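import Mathlib

set_option autoImplicit false

namespace Pool.Agent.P.MP_546b07_lc

variable {V : Type}

/-- `p` is the vertex list of a directed path from `s` to `t`. -/
def IsPath (E : V → V → Prop) (s t : V) (p : List V) : Prop :=
  p.IsChain E ∧ p.Nodup ∧ p.head? = some s ∧ p.getLast? = some t

/-- The sum of the weights of the edges of a path. -/
def weight (w : V → V → ℝ) (p : List V) : ℝ := (List.zipWith w p p.tail).sum

/-- `p` is a shortest path from `s` to `t`. -/
def IsShortest (E : V → V → Prop) (w : V → V → ℝ) (s t : V) (p : List V) : Prop :=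
  IsPath E s t p ∧ ∀ q, IsPath E s t q → weight w p ≤ weight w q

end Pool.Agent.P.MP_546b07_lc
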