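import Pool.Agent.P.MP_546b07_lc.H42Up

set_option autoImplicit false

namespace Pool.Agent.P.MP_546b07_lc.Grid

open Up

section Generic

variable {V : Type}

theorem chain_uniq {R : V → V → Prop} (hR : ∀ v u u', R v u → R v u' → u = u') (s : V)
    (l : List V) : ∀ (l' : List V) (t : V), (t :: l).IsChain R → (t :: l').IsChain R →
      (t :: l).Nodup → (t :: l').Nodup → (t :: l).getLast? = some s →
      (t :: l').getLast? = some s → l = l' := by
  induction l with
  | nil =>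
    intro l' t _ _ _ n2 g1 g2
    rcases l' with _ | ⟨b, l'⟩
    · rfl
    · rw [List.getLast?_singleton, Option.some.injEq] at g1
      rw [List.getLast?_cons_cons, ← g1] at g2
      exact absurd (List.mem_of_getLast? g2) (List.nodup_cons.1 n2).1
  | cons a l ih =>
    intro l' t c1 c2 n1 n2 g1 g2
    rcases l' with _ | ⟨b, l'⟩
    · rw [List.getLast?_singleton, Option.some.injEq] at g2
      rw [List.getLast?_cons_cons, ← g2] at g1
      exact absurd (List.mem_of_getLast? g1) (List.nodup_cons.1 n1).1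
    · rw [List.isChain_cons_cons] at c1 c2
      rw [List.getLast?_cons_cons] at g1 g2
      obtain rfl := hR t a b c1.1 c2.1
      rw [ih l' a c1.2 c2.2 (List.nodup_cons.1 n1).2 (List.nodup_cons.1 n2).2 g1 g2]

theorem path_uniq {E R : V → V → Prop} (hR : ∀ v u u', R u v → R u' v → u = u') {s t : V}
    {p q : List V} (hp : IsPath E s t p) (hq : IsPath E s t q) (c1 : p.IsChain R)
    (c2 : q.IsChain R) : p = q := by
  have rev : ∀ p, IsPath E s t p → p.IsChain R → ∃ l, p.reverse = t :: l ∧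
      (t :: l).IsChain (fun a b => R b a) ∧ (t :: l).Nodup ∧ (t :: l).getLast? = some s := by
    intro p hp c
    have h1 : p.reverse.head? = some t := by rw [List.head?_reverse]; exact hp.2.2.2
    obtain ⟨l, hl⟩ := List.head?_eq_some_iff.1 h1
    refine ⟨l, hl, ?_, ?_, ?_⟩ <;> rw [← hl]
    · exact List.isChain_reverse.2 c
    · exact List.nodup_reverse.2 hp.2.1
    · rw [List.getLast?_reverse]
      exact hp.2.2.1
  obtain ⟨l, e, a1, a2, a3⟩ := rev p hp c1
  obtain ⟨l', e', b1, b2, b3⟩ := rev q hq c2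
  have := chain_uniq (R := fun a b => R b a) hR s l l' t a1 b1 a2 b2 a3 b3
  exact List.reverse_injective (by rw [e, e', this])

theorem key [Fintype V] {E : V → V → Prop} {w h : V → V → ℝ} (φ : V → ℝ)
    (feas : ∀ u v, E u v → φ v - φ u ≤ w u v)
    (uniq : ∀ v u u', E u v ∧ w u v ≤ φ v - φ u → E u' v ∧ w u' v ≤ φ v - φ u' → u = u')
    (hp : ∀ s t p, IsShortest E h s t p → IsShortest E w s t p) {s t : V} {P Q : List V}
    (hP : IsPath E s t P) (hQ : IsPath E s t Q) (t1 : weight w P ≤ φ t - φ s)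
    (t2 : φ t - φ s < weight w Q) : weight h P < weight h Q := by
  obtain ⟨p, h0⟩ := exists_shortest E h s t ⟨P, hP⟩
  have tight : ∀ p, IsPath E s t p → weight w p ≤ φ t - φ s →
      p.IsChain fun u v => E u v ∧ w u v ≤ φ v - φ u := by
    intro p hp ht
    obtain ⟨l, rfl⟩ := path_cons hp
    exact weight_eq feas l s hp.1 (by rw [weight_tele φ l s t hp.2.2.2]; exact ht)
  have e := path_uniq uniq h0.1 hP (tight p h0.1 (((hp _ _ _ h0).2 P hP).trans t1))
    (tight P hP t1)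
  subst e
  by_contra hcon
  have := (hp s t Q ⟨hQ, fun q hq => (not_lt.1 hcon).trans (h0.2 q hq)⟩).2 p hP
  linarith

/-- The weight of a path for integer weights. -/
def wtN (h : V → V → ℕ) (p : List V) : ℕ := (List.zipWith h p p.tail).sum

theorem wtN_cc (h : V → V → ℕ) (a b : V) (l : List V) :
    wtN h (a :: b :: l) = h a b + wtN h (b :: l) := rfl

theorem wtN_one (h : V → V → ℕ) (a : V) : wtN h [a] = 0 := rfl

theorem weight_cast (h : V → V → ℕ) (p : List V) :
    weight (fun u v => (h u v : ℝ)) p = wtN h p := by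
  induction p with
  | nil => simp [weight, wtN]
  | cons a l ih =>
    rcases l with _ | ⟨b, l⟩
    · rw [weight_one, wtN_one, Nat.cast_zero]
    · rw [weight_cc, wtN_cc, ih, Nat.cast_add]

end Generic

/-- The orientation of the grid with three rows. -/
abbrev E0 (r j r' j' : ℕ) : Prop :=
  (r' = r ∧ j' = j + 1) ∨ (j' = j ∧
    ((r = 1 ∧ r' = 0) ∨ (r = 1 ∧ r' = 2 ∧ j % 3 = 0) ∨ (r = 2 ∧ r' = 1 ∧ j % 3 ≠ 0)))

/-- The weights in the first three columns. -/
def c0 (r r' i : ℕ) : ℕ :=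
  if r = r' then ([[3, 0, 14], [3, 8, 14], [0, 8, 0]].getD r []).getD i 0
  else if r' = 0 then [998, 0, 0].getD i 0 else [0, 998, 0].getD i 0

/-- The weights double every three columns. -/
def w0 (r j r' : ℕ) : ℕ := 2 ^ (j / 3) * (c0 r r' (j % 3) + 1)

theorem w0_pos (r j r' : ℕ) : 0 < w0 r j r' := by
  unfold w0
  positivity

theorem w0_shift (m r i r' : ℕ) : w0 r (3 * m + i) r' = 2 ^ m * w0 r i r' := by
  unfold w0
  rw [show (3 * m + i) / 3 = m + i / 3 by omega, show (3 * m + i) % 3 = i % 3 by omega, pow_add,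
    mul_assoc]

/-- A table of distances in a window of fifteen columns. -/
def tb (T : List (List ℕ)) (r i : ℕ) : ℕ := if i < 15 then (T.getD r []).getD i 0 else 0

/-- The table is a feasible potential, with at most one tight edge into each vertex. -/
abbrev Fine (T : List (List ℕ)) : Prop :=
  (∀ r < 3, ∀ i < 15, tb T r i ≤ 2000) ∧
  (∀ r < 3, ∀ r' < 3, ∀ i < 15, ∀ i' < 16, E0 r i r' i' → tb T r' i' ≤ tb T r i + w0 r i r') ∧
  ∀ r < 3, ∀ r' < 3, ∀ i < 14, E0 r (i + 1) r' (i + 1) → tb T r' i + w0 r' i r' ≤ tb T r' (i + 1) →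
    tb T r' (i + 1) < tb T r (i + 1) + w0 r (i + 1) r'

/-- The potential. -/
def pot (T : List (List ℕ)) (m r j : ℕ) : ℕ :=
  2 ^ m * if j < 3 * m then 2000 else tb T r (j - 3 * m)

theorem pot_shift (T : List (List ℕ)) (m r i : ℕ) : pot T m r (3 * m + i) = 2 ^ m * tb T r i := by
  unfold pot
  rw [if_neg (by omega), Nat.add_sub_cancel_left]

theorem pot_cases {T : List (List ℕ)} (hT : Fine T) (m : ℕ) {r j r' j' : ℕ} (hr' : r' < 3)
    (h : E0 r j r' j') : pot T m r' j' < pot T m r j + w0 r j r' ∨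
      ∃ i i', i < 15 ∧ j = 3 * m + i ∧ j' = 3 * m + i' := by
  have hw := w0_pos r j r'
  by_cases h1 : j < 3 * m
  · left
    have : pot T m r' j' ≤ pot T m r j := by
      unfold pot
      rw [if_pos h1]
      refine Nat.mul_le_mul_left _ ?_
      split_ifs
      · exact le_rfl
      · by_cases h2 : j' - 3 * m < 15
        · exact hT.1 r' hr' _ h2
        · unfold tb
          rw [if_neg h2]
          exact Nat.zero_le _
    omega
  · by_cases h2 : j < 3 * m + 15
    · exact .inr ⟨j - 3 * m, j' - 3 * m, by omega, by omega, by omega⟩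
    · left
      have : pot T m r' j' = 0 := by
        unfold pot tb
        rw [if_neg (by omega), if_neg (by omega), Nat.mul_zero]
      omega

theorem pot_feas {T : List (List ℕ)} (hT : Fine T) (m : ℕ) {r j r' j' : ℕ} (hr : r < 3)
    (hr' : r' < 3) (h : E0 r j r' j') : pot T m r' j' ≤ pot T m r j + w0 r j r' := by
  rcases pot_cases hT m hr' h with h1 | ⟨i, i', hi, rfl, rfl⟩
  · exact h1.le
  · rw [pot_shift, pot_shift, w0_shift, ← Nat.mul_add]
    exact Nat.mul_le_mul_left _ (hT.2.1 r hr r' hr' i hi i' (by omega) (by omega))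

theorem pot_mixed {T : List (List ℕ)} (hT : Fine T) (m : ℕ) {r j r' : ℕ} (hr : r < 3)
    (hr' : r' < 3) (h : E0 r (j + 1) r' (j + 1))
    (t1 : pot T m r' j + w0 r' j r' ≤ pot T m r' (j + 1)) :
    pot T m r' (j + 1) < pot T m r (j + 1) + w0 r (j + 1) r' := by
  rcases pot_cases hT m hr' h with h1 | ⟨i, -, hi, e, -⟩
  · exact h1
  rcases pot_cases hT m hr' (.inl ⟨rfl, rfl⟩ : E0 r' j r' (j + 1)) with h2 | ⟨i', -, -, rfl, -⟩
  · omega
  rw [Nat.add_assoc] at h t1 ⊢
  rw [pot_shift, pot_shift, w0_shift, ← Nat.mul_add] at t1 ⊢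
  exact Nat.mul_lt_mul_of_pos_left (hT.2.2 r hr r' hr' i' (by omega) (by omega)
    (Nat.le_of_mul_le_mul_left t1 (by positivity))) (by positivity)

variable {k : ℕ}

/-- The edges. -/
def EG (u v : Fin 3 × Fin k) : Prop := E0 u.1 u.2 v.1 v.2

/-- The weights. -/
def wN (u v : Fin 3 × Fin k) : ℕ := w0 u.1 u.2 v.1

/-- A rank that grows along the edges. -/
def rk (u : Fin 3 × Fin k) : ℕ :=
  3 * u.2 + if (u.1 : ℕ) = 0 then 2 else if (u.2 : ℕ) % 3 = 0 then u.1 - 1 else 2 - u.1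

theorem rk_lt {u v : Fin 3 × Fin k} (h : EG u v) : rk u < rk v := by
  have h1 := u.1.2
  have h2 := v.1.2
  unfold EG at h
  unfold rk
  split_ifs <;> omega

theorem acyclic (v : Fin 3 × Fin k) : ¬Relation.TransGen EG v v := by
  have h : ∀ u v : Fin 3 × Fin k, Relation.TransGen EG u v → rk u < rk v := by
    intro u v h
    induction h with
    | single h => exact rk_lt h
    | tail _ h ih => exact ih.trans (rk_lt h)
  exact fun hv => lt_irrefl _ (h v v hv)

theorem nodup_of_chain {p : List (Fin 3 × Fin k)} (h : p.IsChain EG) : p.Nodup := by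
  have h1 : (p.map rk).IsChain (· < ·) := (List.isChain_map rk).2 (h.imp fun _ _ => rk_lt)
  exact (List.isChain_iff_pairwise.1 h1).nodup.of_map rk

theorem orient (u v : Fin 3 × Fin k) :
    (EG u v ∨ EG v u) ↔ (SimpleGraph.pathGraph 3 □ SimpleGraph.pathGraph k).Adj u v := by
  have h1 := u.1.2
  have h2 := v.1.2
  rw [SimpleGraph.boxProd_adj, SimpleGraph.pathGraph_adj, SimpleGraph.pathGraph_adj, Fin.ext_iff,
    Fin.ext_iff]
  unfold EG
  omega

variable [NeZero k]

/-- The vertex in row `r` and column `j`. -/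
def vt (r j : ℕ) : Fin 3 × Fin k := (Fin.ofNat 3 r, Fin.ofNat k j)

theorem vt_fst {r : ℕ} (j : ℕ) (h : r < 3) : ((vt r j : Fin 3 × Fin k).1 : ℕ) = r :=
  Nat.mod_eq_of_lt h

theorem vt_snd (r : ℕ) {j : ℕ} (h : j < k) : ((vt r j : Fin 3 × Fin k).2 : ℕ) = j :=
  Nat.mod_eq_of_lt h

theorem EG_vt {r j r' j' : ℕ} (h1 : r < 3) (h2 : r' < 3) (h3 : j < k) (h4 : j' < k)
    (h : E0 r j r' j') : EG (vt r j : Fin 3 × Fin k) (vt r' j') := by
  unfold EG
  rw [vt_fst _ h1, vt_fst _ h2, vt_snd _ h3, vt_snd _ h4]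
  exact h

/-- A list of positions, moved `m` periods to the right. -/
def lift (m : ℕ) (L : List (ℕ × ℕ)) : List (Fin 3 × Fin k) := L.map fun x => vt x.1 (3 * m + x.2)

theorem lift_cons (m r i : ℕ) (L : List (ℕ × ℕ)) :
    (lift m ((r, i) :: L) : List (Fin 3 × Fin k)) = vt r (3 * m + i) :: lift m L := rfl

theorem lift_nil (m : ℕ) : (lift m [] : List (Fin 3 × Fin k)) = [] := rfl

theorem lift_ok {m B : ℕ} (hB : 3 * m + B < k) (l : List (ℕ × ℕ)) : ∀ x : ℕ × ℕ,
    (x :: l).IsChain (fun x y => E0 x.1 x.2 y.1 y.2) → (∀ y ∈ x :: l, y.1 < 3 ∧ y.2 ≤ B) →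
    (lift m (x :: l) : List (Fin 3 × Fin k)).IsChain EG ∧
      wtN wN (lift m (x :: l) : List (Fin 3 × Fin k)) =
        2 ^ m * wtN (fun x y => w0 x.1 x.2 y.1) (x :: l) := by
  induction l with
  | nil => exact fun x _ _ => ⟨List.isChain_singleton _, rfl⟩
  | cons y l ih =>
    rintro ⟨r, i⟩ c b
    obtain ⟨r', i'⟩ := y
    rw [List.isChain_cons_cons] at c
    obtain ⟨a1, a2⟩ := ih (r', i') c.2 fun z hz => b z (List.mem_cons_of_mem _ hz)
    have b1 : r < 3 ∧ i ≤ B := b (r, i) List.mem_cons_self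
    have b2 : r' < 3 ∧ i' ≤ B := b (r', i') (List.mem_cons_of_mem _ List.mem_cons_self)
    have c1 : E0 r i r' i' := c.1
    rw [lift_cons] at a1 a2
    rw [lift_cons, lift_cons, List.isChain_cons_cons, wtN_cc, wtN_cc, a2, Nat.mul_add]
    refine ⟨⟨EG_vt b1.1 b2.1 (by omega) (by omega) (by omega), a1⟩, ?_⟩
    unfold wN
    rw [vt_fst _ b1.1, vt_fst _ b2.1, vt_snd _ (by omega), w0_shift]

/-- `x :: l` is a walk in the window that ends in `y`. -/
abbrev Walk (B : ℕ) (x y : ℕ × ℕ) (l : List (ℕ × ℕ)) : Prop :=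
  (x :: l).IsChain (fun x y => E0 x.1 x.2 y.1 y.2) ∧ (∀ z ∈ x :: l, z.1 < 3 ∧ z.2 ≤ B) ∧
    (x :: l).getLast? = some y

theorem cmp {h : Fin 3 × Fin k → Fin 3 × Fin k → ℕ}
    (hp : ∀ s t p, IsShortest EG (fun u v => (h u v : ℝ)) s t p →
      IsShortest EG (fun u v => (wN u v : ℝ)) s t p)
    {T : List (List ℕ)} (hT : Fine T) (B : ℕ) (x y : ℕ × ℕ) (l l' : List (ℕ × ℕ))
    (H : Walk B x y l ∧ Walk B x y l' ∧
      wtN (fun x y => w0 x.1 x.2 y.1) (x :: l) + tb T x.1 x.2 ≤ tb T y.1 y.2 ∧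
      tb T y.1 y.2 < wtN (fun x y => w0 x.1 x.2 y.1) (x :: l') + tb T x.1 x.2)
    (m : ℕ) (hB : 3 * m + B < k) : wtN h (lift m (x :: l)) < wtN h (lift m (x :: l')) := by
  obtain ⟨h1, h2, h3, h4⟩ := H
  have path : ∀ l, Walk B x y l → IsPath EG (vt x.1 (3 * m + x.2)) (vt y.1 (3 * m + y.2))
      (lift m (x :: l) : List (Fin 3 × Fin k)) := by
    intro l hl
    have c := (lift_ok hB l x hl.1 hl.2.1).1
    refine ⟨c, nodup_of_chain c, rfl, ?_⟩
    unfold lift
    rw [List.getLast?_map, hl.2.2]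
    rfl
  have bx := h1.2.1 x List.mem_cons_self
  have by' := h1.2.1 y (List.mem_of_getLast? h1.2.2)
  have hpos : 0 < 2 ^ m := by positivity
  have := key (fun u : Fin 3 × Fin k => (pot T m u.1 u.2 : ℝ)) (fun u v huv => by
      have := pot_feas hT m u.1.2 v.1.2 huv
      rw [sub_le_iff_le_add']
      exact_mod_cast this) (by
      rintro v u u' ⟨e1, t1⟩ ⟨e2, t2⟩
      rw [le_sub_iff_add_le'] at t1 t2
      have s1 : pot T m u.1 u.2 + w0 u.1 u.2 v.1 ≤ pot T m v.1 v.2 := by exact_mod_cast t1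
      have s2 : pot T m u'.1 u'.2 + w0 u'.1 u'.2 v.1 ≤ pot T m v.1 v.2 := by exact_mod_cast t2
      have mix : ∀ u u' : Fin 3 × Fin k, (v.1 : ℕ) = u.1 → (v.2 : ℕ) = u.2 + 1 →
          (v.2 : ℕ) = u'.2 → EG u' v → pot T m u.1 u.2 + w0 u.1 u.2 v.1 ≤ pot T m v.1 v.2 →
          pot T m u'.1 u'.2 + w0 u'.1 u'.2 v.1 ≤ pot T m v.1 v.2 → False := by
        intro u u' f1 f2 f3 e s1 s2
        unfold EG at e
        rw [← f3, f2] at e s2
        rw [← f1, f2] at s1
        exact absurd (pot_mixed hT m u'.1.2 v.1.2 e s1) (not_lt.2 s2)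
      have e1' := e1
      have e2' := e2
      rcases e1' with ⟨f1, f2⟩ | ⟨f1, f2⟩ <;> rcases e2' with ⟨g1, g2⟩ | ⟨g1, g2⟩
      · exact Prod.ext (Fin.ext (by omega)) (Fin.ext (by omega))
      · exact (mix u u' f1 f2 g1 e2 s1 s2).elim
      · exact (mix u' u g1 g2 f1 e1 s2 s1).elim
      · exact Prod.ext (Fin.ext (by omega)) (Fin.ext (by omega)))
    hp (path l h1) (path l' h2) (by
      rw [weight_cast, (lift_ok hB l x h1.1 h1.2.1).2, vt_fst _ bx.1, vt_fst _ by'.1,
        vt_snd _ (by omega), vt_snd _ (by omega), pot_shift, pot_shift, le_sub_iff_add_le]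
      have := Nat.mul_le_mul_left (2 ^ m) h3
      rw [Nat.mul_add] at this
      exact_mod_cast this) (by
      rw [weight_cast, (lift_ok hB l' x h2.1 h2.2.1).2, vt_fst _ bx.1, vt_fst _ by'.1,
        vt_snd _ (by omega), vt_snd _ (by omega), pot_shift, pot_shift, sub_lt_iff_lt_add]
      have := Nat.mul_lt_mul_of_pos_left h4 hpos
      rw [Nat.mul_add] at this
      exact_mod_cast this)
  rw [weight_cast, weight_cast] at this
  exact_mod_cast this

/-- A table of distances. -/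
def tA : List (List ℕ) :=
  [[999, 5, 6, 21, 29, 31, 61, 77, 81, 141, 173, 174, 294, 358, 358],
   [0, 4, 12, 27, 35, 34, 64, 80, 78, 138, 170, 166, 286, 350, 342],
   [1, 2, 11, 12, 14, 32, 34, 38, 74, 78, 86, 158, 166, 182, 326]]

set_option synthInstance.maxSize 2048 in
theorem fineA : Fine tA := by decide +kernel

/-- A table of distances. -/
def tB : List (List ℕ) :=
  [[2000, 2000, 1, 16, 24, 26, 56, 72, 76, 136, 168, 176, 296, 360, 363],
   [2000, 2000, 0, 15, 23, 39, 69, 85, 83, 143, 175, 171, 291, 355, 347],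
   [2000, 2000, 2000, 17, 19, 37, 39, 43, 79, 83, 91, 163, 171, 187, 331]]

set_option synthInstance.maxSize 2048 in
theorem fineB : Fine tB := by decide +kernel

/-- A table of distances. -/
def tC : List (List ℕ) :=
  [[2000, 1, 2, 17, 25, 27, 57, 73, 77, 137, 169, 177, 297, 361, 372],
   [2000, 0, 9, 24, 32, 48, 78, 94, 92, 152, 184, 180, 300, 364, 356],
   [2000, 2000, 2000, 26, 28, 46, 48, 52, 88, 92, 100, 172, 180, 196, 340]]

set_option synthInstance.maxSize 2048 in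
theorem fineC : Fine tC := by decide +kernel

/-- A table of distances. -/
def tD : List (List ℕ) :=
  [[2000, 2000, 2, 17, 25, 25, 55, 71, 71, 131, 163, 163, 283, 347, 347],
   [2000, 2000, 1, 16, 24, 23, 53, 69, 67, 127, 159, 155, 275, 339, 331],
   [2000, 2000, 0, 1, 3, 21, 23, 27, 63, 67, 75, 147, 155, 171, 315]]

set_option synthInstance.maxSize 2048 in
theorem fineD : Fine tD := by decide +kernel

/-- The path that leaves the bottom row at once. -/
def upA (h : Fin 3 × Fin k → Fin 3 × Fin k → ℕ) (m : ℕ) : ℕ :=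
  wtN h (lift m [(2, 2), (1, 2), (0, 2), (0, 3), (0, 4), (0, 5)])

/-- The path that stays in the bottom row for one more period. -/
def upB (h : Fin 3 × Fin k → Fin 3 × Fin k → ℕ) (m : ℕ) : ℕ :=
  wtN h (lift m [(2, 2), (2, 3), (2, 4), (2, 5), (1, 5), (0, 5)])

theorem growth {h : Fin 3 × Fin k → Fin 3 × Fin k → ℕ}
    (hp : ∀ s t p, IsShortest EG (fun u v => (h u v : ℝ)) s t p →
      IsShortest EG (fun u v => (wN u v : ℝ)) s t p) (m : ℕ) :
    3 * m + 5 < k → upB h m + 2 ^ (m / 3) ≤ upA h m := by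
  have i1 := cmp hp fineA 2 (1, 0) (1, 2)
    [(2, 0), (2, 1), (2, 2), (1, 2)]
    [(1, 1), (1, 2)]
    (by decide +kernel)
  have i2 := cmp hp fineA 8 (1, 0) (0, 8)
    [(1, 1), (0, 1), (0, 2), (0, 3), (0, 4), (0, 5), (0, 6), (0, 7), (0, 8)]
    [(2, 0), (2, 1), (2, 2), (2, 3), (2, 4), (2, 5), (2, 6), (2, 7), (2, 8), (1, 8), (0, 8)]
    (by decide +kernel)
  have i3 := cmp hp fineB 4 (1, 2) (0, 4)
    [(0, 2), (0, 3), (0, 4)]
    [(1, 3), (1, 4), (0, 4)]
    (by decide +kernel)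
  have i4 := cmp hp fineC 14 (1, 1) (0, 14)
    [(1, 2), (1, 3), (2, 3), (2, 4), (2, 5), (2, 6), (2, 7), (2, 8), (2, 9), (2, 10),
      (2, 11), (2, 12), (2, 13), (2, 14), (1, 14), (0, 14)]
    [(0, 1), (0, 2), (0, 3), (0, 4), (0, 5), (0, 6), (0, 7), (0, 8), (0, 9), (0, 10),
      (0, 11), (0, 12), (0, 13), (0, 14)]
    (by decide +kernel)
  have i5 := cmp hp fineD 5 (2, 2) (0, 5)
    [(2, 3), (2, 4), (2, 5), (1, 5), (0, 5)]
    [(1, 2), (0, 2), (0, 3), (0, 4), (0, 5)]
    (by decide +kernel)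
  induction m using Nat.strong_induction_on with
  | _ m ih =>
    intro hm
    by_cases h3 : m < 3
    · rw [Nat.div_eq_of_lt h3]
      exact i5 m hm
    obtain ⟨m, rfl⟩ : ∃ x, m = x + 3 := ⟨m - 3, by omega⟩
    have a0 := ih m (by omega) (by omega)
    have a1 := ih (m + 1) (by omega) (by omega)
    have a2 : 2 ^ (m / 3) ≤ 2 ^ ((m + 1) / 3) := Nat.pow_le_pow_right (by omega) (by omega)
    have b1 := i1 m (by omega)
    have b2 := i2 m (by omega)
    have b2' := i2 (m + 1) (by omega)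
    have b3 := i3 m (by omega)
    have b4 := i4 m (by omega)
    rw [show (m + 3) / 3 = m / 3 + 1 by omega, pow_succ]
    simp only [upA, upB, lift_cons, lift_nil, wtN_cc, wtN_one, Nat.mul_add, Nat.add_assoc,
      Nat.reduceMul, Nat.reduceAdd] at a0 a1 b1 b2 b2' b3 b4 ⊢
    omega

theorem big (hk : 6 ≤ k) {h : Fin 3 × Fin k → Fin 3 × Fin k → ℕ}
    (hp : ∀ s t p, IsShortest EG (fun u v => (h u v : ℝ)) s t p →
      IsShortest EG (fun u v => (wN u v : ℝ)) s t p) :
    ∃ u v, EG u v ∧ 2 ^ (k / 9) ≤ 10 * h u v := by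
  by_contra hcon
  have hc : ∀ u v, EG u v → 10 * h u v < 2 ^ (k / 9) :=
    fun u v e => not_le.1 fun hle => hcon ⟨u, v, e, hle⟩
  obtain ⟨m, hm⟩ : ∃ m, m = (k - 6) / 3 := ⟨_, rfl⟩
  have g := growth hp m (by omega)
  have a1 := hc (vt 2 (3 * m + 2)) (vt 1 (3 * m + 2))
    (EG_vt (by omega) (by omega) (by omega) (by omega) (by omega))
  have a2 := hc (vt 1 (3 * m + 2)) (vt 0 (3 * m + 2))
    (EG_vt (by omega) (by omega) (by omega) (by omega) (by omega))
  have a3 := hc (vt 0 (3 * m + 2)) (vt 0 (3 * m + 3))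
    (EG_vt (by omega) (by omega) (by omega) (by omega) (by omega))
  have a4 := hc (vt 0 (3 * m + 3)) (vt 0 (3 * m + 4))
    (EG_vt (by omega) (by omega) (by omega) (by omega) (by omega))
  have a5 := hc (vt 0 (3 * m + 4)) (vt 0 (3 * m + 5))
    (EG_vt (by omega) (by omega) (by omega) (by omega) (by omega))
  have a6 : 2 ^ (k / 9) ≤ 2 ^ (m / 3 + 1) := Nat.pow_le_pow_right (by omega) (by omega)
  rw [pow_succ] at a6
  simp only [upA, lift_cons, lift_nil, wtN_cc, wtN_one] at g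
  omega

omit [NeZero k] in
theorem main (hk : 6 ≤ k) :
    ∃ (E : Fin 3 × Fin k → Fin 3 × Fin k → Prop) (w : Fin 3 × Fin k → Fin 3 × Fin k → ℝ),
      (∀ u v, (E u v ∨ E v u) ↔ (SimpleGraph.pathGraph 3 □ SimpleGraph.pathGraph k).Adj u v) ∧
      (∀ v, ¬Relation.TransGen E v v) ∧ (∀ u v, E u v → 0 < w u v) ∧
      ∀ h : Fin 3 × Fin k → Fin 3 × Fin k → ℕ, (∀ u v, E u v → 1 ≤ h u v) →
        (∀ s t p, IsShortest E (fun u v => (h u v : ℝ)) s t p → IsShortest E w s t p) →
        ∃ u v, E u v ∧ 2 ^ (k / 9) ≤ 10 * h u v := by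
  have : NeZero k := ⟨by omega⟩
  exact ⟨EG, fun u v => (wN u v : ℝ), orient, acyclic,
    fun u v _ => Nat.cast_pos.2 (w0_pos _ _ _), fun h _ hp => big hk hp⟩

end Pool.Agent.P.MP_546b07_lc.Grid
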