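import Pool.Agent.P.MP_546b07_lc.Defs

set_option autoImplicit false

namespace Pool.Agent.P.MP_546b07_lc.Low

section Frame

variable {S M T : Type}

/-- The edges of a three-layer graph. -/
def E3 (B : M → T → Prop) : S ⊕ M ⊕ T → S ⊕ M ⊕ T → Prop
  | .inl _, .inr (.inl _) => True
  | .inr (.inl m), .inr (.inr t) => B m t
  | _, _ => False

/-- The layer of a vertex. -/
def lay3 : S ⊕ M ⊕ T → ℕ
  | .inl _ => 0
  | .inr (.inl _) => 1
  | .inr (.inr _) => 2

/-- The weights of a three-layer graph. -/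
def W3 (a : S → M → ℝ) (b : M → T → ℝ) : S ⊕ M ⊕ T → S ⊕ M ⊕ T → ℝ
  | .inl s, .inr (.inl m) => a s m
  | .inr (.inl m), .inr (.inr t) => b m t
  | _, _ => 1

variable {B : M → T → Prop}

theorem lay3_lt {u v : S ⊕ M ⊕ T} (h : E3 B u v) : lay3 u < lay3 v := by
  rcases u with u | u | u <;> rcases v with v | v | v <;> simp_all [E3, lay3]

theorem acyclic3 (v : S ⊕ M ⊕ T) : ¬Relation.TransGen (E3 B) v v := by
  have h : ∀ u v : S ⊕ M ⊕ T, Relation.TransGen (E3 B) u v → lay3 u < lay3 v := by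
    intro u v h
    induction h with
    | single h => exact lay3_lt h
    | tail _ h ih => exact ih.trans (lay3_lt h)
  intro hv
  exact lt_irrefl _ (h v v hv)

theorem path3 {s : S} {t : T} {p : List (S ⊕ M ⊕ T)}
    (h : IsPath (E3 B) (.inl s) (.inr (.inr t)) p) :
    ∃ m, B m t ∧ p = [.inl s, .inr (.inl m), .inr (.inr t)] := by
  obtain ⟨h1, -, h2, h3⟩ := h
  rcases p with _ | ⟨a, _ | ⟨b, _ | ⟨c, _ | ⟨d, r⟩⟩⟩⟩
  · simp at h2
  · simp only [List.head?_cons, Option.some.injEq, List.getLast?_singleton] at h2 h3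
    rw [h2] at h3
    cases h3
  · simp only [List.head?_cons, Option.some.injEq, List.getLast?_cons_cons,
      List.getLast?_singleton] at h2 h3
    subst h2 h3
    simp [E3] at h1
  · simp only [List.head?_cons, Option.some.injEq, List.getLast?_cons_cons,
      List.getLast?_singleton] at h2 h3
    subst h2 h3
    rcases b with b | b | b
    · simp [E3] at h1
    · simp only [List.isChain_cons_cons, E3, List.isChain_singleton, and_true, true_and] at h1
      exact ⟨b, h1, rfl⟩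
    · simp [E3] at h1
  · simp only [List.isChain_cons_cons] at h1
    have e1 := lay3_lt h1.1
    have e2 := lay3_lt h1.2.1
    have e3 := lay3_lt h1.2.2.1
    have e4 : lay3 d ≤ 2 := by rcases d with d | d | d <;> simp [lay3]
    omega

theorem path_one (s : S) (t : T) (m : M) (hm : B m t) :
    IsPath (E3 B) (.inl s) (.inr (.inr t)) [.inl s, .inr (.inl m), .inr (.inr t)] := by
  refine ⟨?_, by simp, rfl, rfl⟩
  simp only [List.isChain_cons_cons, E3, List.isChain_singleton, and_true, true_and]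
  exact hm

theorem weight_three {V : Type} (w : V → V → ℝ) (a b c : V) :
    weight w [a, b, c] = w a b + w b c := by
  simp [weight]

theorem key3 [Fintype M] {a : S → M → ℝ} {b : M → T → ℝ} {h : S ⊕ M ⊕ T → S ⊕ M ⊕ T → ℝ}
    (hp : ∀ s t p, IsShortest (E3 B) h s t p → IsShortest (E3 B) (W3 a b) s t p)
    (s : S) (t : T) (m m' : M) (hm : B m t) (hm' : B m' t) (hne : m' ≠ m)
    (hw : ∀ m'', B m'' t → m'' ≠ m → a s m + b m t < a s m'' + b m'' t) :
    h (.inl s) (.inr (.inl m)) + h (.inr (.inl m)) (.inr (.inr t)) <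
      h (.inl s) (.inr (.inl m')) + h (.inr (.inl m')) (.inr (.inr t)) := by
  classical
  by_contra hcon
  set f : M → ℝ := fun x => h (.inl s) (.inr (.inl x)) + h (.inr (.inl x)) (.inr (.inr t))
  obtain ⟨x, hx, hmin⟩ := Finset.exists_min_image (Finset.univ.filter fun x => B x t) f
    ⟨m, by simpa using hm⟩
  have hex : ∃ y, B y t ∧ y ≠ m ∧ ∀ z, B z t → f y ≤ f z := by
    by_cases hxm : x = m
    · subst hxm
      exact ⟨m', hm', hne, fun z hz => (not_lt.1 hcon).trans (hmin z (by simpa using hz))⟩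
    · exact ⟨x, by simpa using hx, hxm, fun z hz => hmin z (by simpa using hz)⟩
  obtain ⟨y, hy, hym, hy2⟩ := hex
  have h1 : IsShortest (E3 B) h (.inl s) (.inr (.inr t))
      [.inl s, .inr (.inl y), .inr (.inr t)] := by
    refine ⟨path_one s t y hy, fun q hq => ?_⟩
    obtain ⟨z, hz, rfl⟩ := path3 hq
    simp only [weight_three]
    exact hy2 z hz
  have h2 := (hp _ _ _ h1).2 _ (path_one s t m hm)
  simp only [weight_three, W3] at h2
  exact absurd (hw y hy hym) (not_lt.2 h2)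

/-- The middle vertex `m` is the lexicographic winner for the pair `s`, `t`. -/
def Win (B : M → T → Prop) (α a : S → M → ℤ) (β b : M → T → ℤ) (s : S) (t : T) (m : M) : Prop :=
  ∀ m'', B m'' t → m'' ≠ m → α s m + β m t < α s m'' + β m'' t ∨
    (α s m + β m t = α s m'' + β m'' t ∧ a s m + b m t < a s m'' + b m'' t)

/-- The integer weights `A`, `C` keep all lexicographic winners. -/
def Keeps (B : M → T → Prop) (α a : S → M → ℤ) (β b : M → T → ℤ) (A : S → M → ℤ)
    (C : M → T → ℤ) : Prop :=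
  ∀ s t m m', B m t → B m' t → m' ≠ m → Win B α a β b s t m → A s m + C m t < A s m' + C m' t

theorem exists_bound {X Y : Type} [Fintype X] [Fintype Y] (f : X → Y → ℤ) :
    ∃ L : ℤ, 0 ≤ L ∧ ∀ x y, |f x y| ≤ L := by
  refine ⟨∑ p : X × Y, |f p.1 p.2|, Finset.sum_nonneg fun _ _ => abs_nonneg _, fun x y => ?_⟩
  exact Finset.single_le_sum (f := fun p : X × Y => |f p.1 p.2|) (fun _ _ => abs_nonneg _)
    (Finset.mem_univ (x, y))

theorem frame [Fintype S] [Fintype M] [Fintype T] (B : M → T → Prop) (α a : S → M → ℤ)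
    (β b : M → T → ℤ) (N : ℕ)
    (H : ∀ (A : S → M → ℤ) (C : M → T → ℤ), (∀ s m, 1 ≤ A s m) → Keeps B α a β b A C →
      ∃ s m, (N : ℤ) ≤ A s m) :
    ∃ (E : S ⊕ M ⊕ T → S ⊕ M ⊕ T → Prop) (w : S ⊕ M ⊕ T → S ⊕ M ⊕ T → ℝ),
      (∀ v, ¬Relation.TransGen E v v) ∧ (∀ u v, E u v → 0 < w u v) ∧
      ∀ h : S ⊕ M ⊕ T → S ⊕ M ⊕ T → ℕ, (∀ u v, E u v → 1 ≤ h u v) →
        (∀ s t p, IsShortest E (fun u v => (h u v : ℝ)) s t p → IsShortest E w s t p) →
        ∃ u v, E u v ∧ N ≤ h u v := by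
  obtain ⟨L1, hL1, h1⟩ := exists_bound a
  obtain ⟨L2, hL2, h2⟩ := exists_bound b
  set L : ℤ := 2 * (L1 + L2) + 1 with hL
  obtain ⟨L3, hL3, h3⟩ := exists_bound fun s m => L * α s m + a s m
  obtain ⟨L4, hL4, h4⟩ := exists_bound fun m t => L * β m t + b m t
  refine ⟨E3 B, W3 (fun s m => ((L * α s m + a s m + L3 + 1 : ℤ) : ℝ))
    (fun m t => ((L * β m t + b m t + L4 + 1 : ℤ) : ℝ)), acyclic3, ?_, fun h hh hp => ?_⟩
  · intro u v _
    rcases u with u | u | u <;> rcases v with v | v | v <;> simp only [W3, zero_lt_one]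
    · have := (abs_le.1 (h3 u v)).1
      exact_mod_cast (by linarith : (0 : ℤ) < L * α u v + a u v + L3 + 1)
    · have := (abs_le.1 (h4 u v)).1
      exact_mod_cast (by linarith : (0 : ℤ) < L * β u v + b u v + L4 + 1)
  · obtain ⟨s, m, hsm⟩ := H (fun s m => (h (.inl s) (.inr (.inl m)) : ℤ))
      (fun m t => (h (.inr (.inl m)) (.inr (.inr t)) : ℤ))
      (fun s m => by exact_mod_cast hh (.inl s) (.inr (.inl m)) trivial) (by
        intro s t m m' hm hm' hne hw
        have := key3 hp s t m m' hm hm' hne (fun m'' hm'' hne' => by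
          have e1 := abs_le.1 (h1 s m)
          have e2 := abs_le.1 (h1 s m'')
          have e3 := abs_le.1 (h2 m t)
          have e4 := abs_le.1 (h2 m'' t)
          have : L * α s m + a s m + L3 + 1 + (L * β m t + b m t + L4 + 1) <
              L * α s m'' + a s m'' + L3 + 1 + (L * β m'' t + b m'' t + L4 + 1) := by
            rcases hw m'' hm'' hne' with e | ⟨e, e'⟩
            · have : L * (α s m + β m t + 1) ≤ L * (α s m'' + β m'' t) :=
                mul_le_mul_of_nonneg_left e (by omega)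
              linarith
            · have : L * (α s m + β m t) = L * (α s m'' + β m'' t) := by rw [e]
              linarith
          exact_mod_cast this)
        beta_reduce
        exact_mod_cast this)
    exact ⟨.inl s, .inr (.inl m), trivial, by exact_mod_cast hsm⟩

end Frame

section Concrete

variable (K G r : ℕ)

/-- Sources. -/
abbrev SS : Type := Fin (K + 1) × Fin 3
/-- Middle vertices. -/
abbrev MM : Type := Fin G × Fin 3
/-- Sinks: ordinary sinks, link sinks, isolated vertices. -/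
abbrev TT : Type := (Fin (K + 2 * G) × Fin 3) ⊕ (Fin G × Fin 3) ⊕ Fin r

/-- Adjacency of middle vertices and sinks. -/
def BB : MM G → TT K G r → Prop
  | m, .inl t => m.2 = t.2 ∨ m.2 = t.2 + 1
  | m, .inr (.inl t) => m.2 = t.2 ∧ ((m.1 : ℕ) = t.1 ∨ (m.1 : ℕ) = t.1 + 1)
  | _, .inr (.inr _) => False

/-- The level of the source block `I` in the group `g`. -/
def lev (g I : ℕ) : ℕ := if Even g then I else K - I

/-- The size of the triangle. -/
def rho (g I : ℕ) : ℤ := 4 ^ (g * (K + 1) + lev K g I)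

/-- The shape of the triangle. -/
def sig (j c : Fin 3) : ℤ := if j = c then 1 else if j = c + 1 then -1 else 0

/-- The lower block. -/
def low (g J : ℕ) : ℕ := if Even g then J - (2 * g + 1) else J - 2 * g

/-- The thresholds. -/
def theta (g J : ℕ) : ℤ :=
  if J < 2 * g + 1 then 0 else (-1) ^ low g J * (3 * rho K g (low g J))

/-- Small part of the first weights. -/
def a0 (s : SS K) (m : MM G) : ℤ := (-1) ^ (s.1 : ℕ) * (rho K m.1 s.1 * sig m.2 s.2)

/-- Large part of the first weights. -/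
def al (s : SS K) (m : MM G) : ℤ := 2 * (m.1 : ℕ) * (s.1 : ℕ)

/-- Small part of the second weights. -/
def b0 : MM G → TT K G r → ℤ
  | m, .inl t => if m.2 = t.2 then 0 else theta K m.1 t.1
  | _, _ => 0

/-- Large part of the second weights. -/
def be : MM G → TT K G r → ℤ
  | m, .inl t => 2 * (m.1 : ℕ) ^ 2 + (m.1 : ℕ) - 2 * (m.1 : ℕ) * (t.1 : ℕ)
  | m, .inr (.inl t) => -(2 * (m.1 : ℕ) * (lev K t.1 K : ℕ))
  | _, _ => 0

variable {K G r}

theorem rho_pos (g I : ℕ) : 0 < rho K g I := by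
  unfold rho
  positivity

theorem sig_sub (c c' : Fin 3) : sig c c' - sig (c + 1) c' = if c = c' then 2 else -1 := by
  revert c c'
  decide

theorem win_ord (g : Fin G) (I : Fin (K + 1)) (J : Fin (K + 2 * G))
    (hJ : (J : ℕ) = I + 2 * g ∨ (J : ℕ) = I + 2 * g + 1) (c c' j j' : Fin 3)
    (hj : j = c ∧ j' = c + 1 ∨ j = c + 1 ∧ j' = c)
    (hlt : a0 K G (I, c') (g, j) + b0 K G r (g, j) (.inl (J, c)) <
      a0 K G (I, c') (g, j') + b0 K G r (g, j') (.inl (J, c))) :
    Win (BB K G r) (al K G) (a0 K G) (be K G r) (b0 K G r) (I, c') (.inl (J, c)) (g, j) := by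
  rintro ⟨g2, j2⟩ hB hne
  by_cases hg : g2 = g
  · subst hg
    right
    have hj2 : j2 = j' := by
      have h1 : j2 ≠ j := fun h => hne (by rw [h])
      simp only [BB] at hB
      rcases hj with ⟨rfl, rfl⟩ | ⟨rfl, rfl⟩ <;> tauto
    subst hj2
    exact ⟨by simp [al, be], hlt⟩
  · left
    simp only [al, be]
    have hd : ((g2 : ℕ) : ℤ) ≠ (g : ℕ) := fun h => hg (Fin.ext (by exact_mod_cast h))
    have hJ' : ((J : ℕ) : ℤ) = (I : ℕ) + 2 * (g : ℕ) ∨
        ((J : ℕ) : ℤ) = (I : ℕ) + 2 * (g : ℕ) + 1 := by omega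
    generalize ((g2 : ℕ) : ℤ) = x at *
    generalize ((g : ℕ) : ℤ) = y at *
    generalize ((I : ℕ) : ℤ) = i at *
    rcases hJ' with e | e <;> rw [e] <;> rcases lt_or_gt_of_ne hd with h | h <;> nlinarith

variable {A : SS K → MM G → ℤ} {C : MM G → TT K G r → ℤ}

/-- The coordinates of a source. -/
def XX (A : SS K → MM G → ℤ) (g : Fin G) (s : SS K) (c : Fin 3) : ℤ := A s (g, c) - A s (g, c + 1)

theorem cmp_ord (hk : Keeps (BB K G r) (al K G) (a0 K G) (be K G r) (b0 K G r) A C)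
    (g : Fin G) (I I' : Fin (K + 1)) (J : Fin (K + 2 * G))
    (hJ : (J : ℕ) = I + 2 * g ∨ (J : ℕ) = I + 2 * g + 1)
    (hJ' : (J : ℕ) = I' + 2 * g ∨ (J : ℕ) = I' + 2 * g + 1) (c d d' : Fin 3)
    (h1 : (-1) ^ (I : ℕ) * (rho K g I * (if c = d then 2 else -1)) < theta K g J)
    (h2 : theta K g J < (-1) ^ (I' : ℕ) * (rho K g I' * (if c = d' then 2 else -1))) :
    XX A g (I, d) c + 2 ≤ XX A g (I', d') c := by
  have hc : c + 1 ≠ c := (by decide : ∀ c : Fin 3, c + 1 ≠ c) c
  rw [← sig_sub] at h1 h2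
  have b1 := hk (I, d) (.inl (J, c)) (g, c) (g, c + 1) (Or.inl rfl) (Or.inr rfl)
    (fun h => hc (congrArg Prod.snd h))
    (win_ord g I J hJ c d c (c + 1) (Or.inl ⟨rfl, rfl⟩) (by
      simp only [a0, b0, if_true, if_neg hc]
      linarith))
  have b2 := hk (I', d') (.inl (J, c)) (g, c + 1) (g, c) (Or.inr rfl) (Or.inl rfl)
    (fun h => hc (congrArg Prod.snd h).symm)
    (win_ord g I' J hJ' c d' (c + 1) c (Or.inr ⟨rfl, rfl⟩) (by
      simp only [a0, b0, if_true, if_neg hc]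
      linarith))
  unfold XX
  linarith

theorem step (hk : Keeps (BB K G r) (al K G) (a0 K G) (be K G r) (b0 K G r) A C)
    (g : Fin G) (I I' : Fin (K + 1))
    (hI : Even (g : ℕ) ∧ (I' : ℕ) = I + 1 ∨ ¬Even (g : ℕ) ∧ (I : ℕ) = I' + 1) (c c' : Fin 3)
    (hc : c ≠ c') :
    (-1) ^ (I : ℕ) * XX A g (I, c) c + 2 ≤ (-1) ^ (I : ℕ) * XX A g (I', c') c := by
  have hg := g.2
  have h1 := I.2
  have h2 := I'.2
  let J : Fin (K + 2 * G) := ⟨min (I : ℕ) I' + 2 * g + 1, by omega⟩
  have hJ : (J : ℕ) = min (I : ℕ) I' + 2 * g + 1 := rfl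
  have hlow : low g J = I := by
    unfold low
    rcases hI with ⟨e, e'⟩ | ⟨e, e'⟩
    · rw [if_pos e]; omega
    · rw [if_neg e]; omega
  have hth : theta K g J = (-1) ^ (I : ℕ) * (3 * rho K g I) := by
    unfold theta
    rw [if_neg (by omega), hlow]
  have hrho : rho K g I' = 4 * rho K g I := by
    have : lev K g I' = lev K g I + 1 := by
      unfold lev
      rcases hI with ⟨e, e'⟩ | ⟨e, e'⟩
      · rw [if_pos e, if_pos e]; omega
      · rw [if_neg e, if_neg e]; omega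
    unfold rho
    rw [this, ← add_assoc, pow_succ]
    ring
  have hs : (-1 : ℤ) ^ (I' : ℕ) = -(-1) ^ (I : ℕ) := by
    rcases hI with ⟨-, e'⟩ | ⟨-, e'⟩ <;> rw [e', pow_succ] <;> ring
  have hp := rho_pos (K := K) g I
  have e1 : (J : ℕ) = I + 2 * g ∨ (J : ℕ) = I + 2 * g + 1 := by omega
  have e2 : (J : ℕ) = I' + 2 * g ∨ (J : ℕ) = I' + 2 * g + 1 := by omega
  rcases neg_one_pow_eq_or ℤ (I : ℕ) with e | e
  · have := cmp_ord hk g I I' J e1 e2 c c c' (by rw [hth, e, if_pos rfl]; linarith)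
      (by rw [hth, hs, e, if_neg hc, hrho]; linarith)
    rw [e]
    linarith
  · have := cmp_ord hk g I' I J e2 e1 c c' c (by rw [hth, hs, e, if_neg hc, hrho]; linarith)
      (by rw [hth, e, if_pos rfl]; linarith)
    rw [e]
    linarith

/-- The size of a triangle after reweighting. -/
def tri (A : SS K → MM G → ℤ) (g : Fin G) (I : Fin (K + 1)) : ℤ :=
  (-1) ^ (I : ℕ) * (XX A g (I, 0) 0 + XX A g (I, 1) 1 + XX A g (I, 2) 2)

theorem XX_sum (A : SS K → MM G → ℤ) (g : Fin G) (s : SS K) :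
    XX A g s 0 + XX A g s 1 + XX A g s 2 = 0 := by
  show A s (g, 0) - A s (g, 1) + (A s (g, 1) - A s (g, 2)) + (A s (g, 2) - A s (g, 0)) = 0
  ring

theorem tri_step (hk : Keeps (BB K G r) (al K G) (a0 K G) (be K G r) (b0 K G r) A C)
    (g : Fin G) (I I' : Fin (K + 1))
    (hI : Even (g : ℕ) ∧ (I' : ℕ) = I + 1 ∨ ¬Even (g : ℕ) ∧ (I : ℕ) = I' + 1) :
    2 * tri A g I + 12 ≤ tri A g I' := by
  have hs : (-1 : ℤ) ^ (I' : ℕ) = -(-1) ^ (I : ℕ) := by
    rcases hI with ⟨-, e'⟩ | ⟨-, e'⟩ <;> rw [e', pow_succ] <;> ring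
  have a1 := step hk g I I' hI 1 0 (by decide)
  have a2 := step hk g I I' hI 2 0 (by decide)
  have a3 := step hk g I I' hI 0 1 (by decide)
  have a4 := step hk g I I' hI 2 1 (by decide)
  have a5 := step hk g I I' hI 0 2 (by decide)
  have a6 := step hk g I I' hI 1 2 (by decide)
  have b1 := XX_sum A g (I', 0)
  have b2 := XX_sum A g (I', 1)
  have b3 := XX_sum A g (I', 2)
  unfold tri
  rw [hs]
  rcases neg_one_pow_eq_or ℤ (I : ℕ) with e | e <;> rw [e] at a1 a2 a3 a4 a5 a6 ⊢ <;> linarith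

theorem tri_start (hk : Keeps (BB K G r) (al K G) (a0 K G) (be K G r) (b0 K G r) A C)
    (g : Fin G) (hg : (g : ℕ) = 0) (I : Fin (K + 1)) (hI : (I : ℕ) = 0) : 4 ≤ tri A g I := by
  have hG := g.2
  let J : Fin (K + 2 * G) := ⟨0, by omega⟩
  have hJ : (J : ℕ) = 0 := rfl
  have hth : theta K g J = 0 := by
    unfold theta
    rw [if_pos (by omega)]
  have hp := rho_pos (K := K) g I
  have e1 : (J : ℕ) = I + 2 * g ∨ (J : ℕ) = I + 2 * g + 1 := by omega
  have e : (-1 : ℤ) ^ (I : ℕ) = 1 := by rw [hI, pow_zero]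
  have a1 := cmp_ord hk g I I J e1 e1 1 0 1 (by rw [hth, e, if_neg (by decide)]; linarith)
    (by rw [hth, e, if_pos rfl]; linarith)
  have a2 := cmp_ord hk g I I J e1 e1 2 0 2 (by rw [hth, e, if_neg (by decide)]; linarith)
    (by rw [hth, e, if_pos rfl]; linarith)
  have b1 := XX_sum A g (I, 0)
  unfold tri
  rw [e]
  linarith

theorem win_link (g g' : Fin G) (hg : (g' : ℕ) = g + 1) (I : Fin (K + 1))
    (hI : (I : ℕ) = lev K g K) (c d : Fin 3) (x x' : Fin G)
    (hx : x = g ∧ x' = g' ∨ x = g' ∧ x' = g)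
    (hlt : a0 K G (I, d) (x, c) < a0 K G (I, d) (x', c)) :
    Win (BB K G r) (al K G) (a0 K G) (be K G r) (b0 K G r) (I, d) (.inr (.inl (g, c))) (x, c) := by
  rintro ⟨g2, j2⟩ hB hne
  simp only [BB] at hB
  obtain ⟨rfl, hB⟩ := hB
  have h1 : (g2 : ℕ) ≠ x := fun h => hne (by rw [Fin.ext h])
  have h2 : g2 = x' := by
    rcases hx with ⟨rfl, rfl⟩ | ⟨rfl, rfl⟩ <;> apply Fin.ext <;> omega
  subst h2
  right
  refine ⟨?_, by simpa [b0] using hlt⟩
  simp only [al, be, hI]
  ring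

theorem cmp_link (hk : Keeps (BB K G r) (al K G) (a0 K G) (be K G r) (b0 K G r) A C)
    (g g' : Fin G) (hg : (g' : ℕ) = g + 1) (I : Fin (K + 1)) (hI : (I : ℕ) = lev K g K)
    (c d d' : Fin 3) (h1 : a0 K G (I, d) (g, c) < a0 K G (I, d) (g', c))
    (h2 : a0 K G (I, d') (g', c) < a0 K G (I, d') (g, c)) :
    A (I, d) (g, c) - A (I, d) (g', c) + 2 ≤ A (I, d') (g, c) - A (I, d') (g', c) := by
  have hne : g' ≠ g := fun h => by
    rw [h] at hg
    omega
  have b1 := hk (I, d) (.inr (.inl (g, c))) (g, c) (g', c) ⟨rfl, Or.inl rfl⟩ ⟨rfl, Or.inr hg⟩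
    (fun h => hne (congrArg Prod.fst h))
    (win_link g g' hg I hI c d g g' (Or.inl ⟨rfl, rfl⟩) h1)
  have b2 := hk (I, d') (.inr (.inl (g, c))) (g', c) (g, c) ⟨rfl, Or.inr hg⟩ ⟨rfl, Or.inl rfl⟩
    (fun h => hne (congrArg Prod.fst h).symm)
    (win_link g g' hg I hI c d' g' g (Or.inr ⟨rfl, rfl⟩) h2)
  linarith

theorem tri_link (hk : Keeps (BB K G r) (al K G) (a0 K G) (be K G r) (b0 K G r) A C)
    (g g' : Fin G) (hg : (g' : ℕ) = g + 1) (I : Fin (K + 1)) (hI : (I : ℕ) = lev K g K) :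
    tri A g I ≤ tri A g' I := by
  have hrho : rho K g' I = 4 * rho K g I := by
    have h1 : lev K g I = K ∧ lev K g' I = 0 := by
      unfold lev at hI ⊢
      rw [hg]
      by_cases e : Even (g : ℕ)
      · rw [if_pos e] at hI
        rw [if_pos e, if_neg (by simpa [Nat.even_add_one] using e)]
        omega
      · rw [if_neg e] at hI
        rw [if_neg e, if_pos (by simpa [Nat.even_add_one] using e)]
        omega
    unfold rho
    rw [h1.1, h1.2, hg]
    ring
  have hp := rho_pos (K := K) g I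
  have key : ∀ c : Fin 3, (-1) ^ (I : ℕ) * (A (I, c + 1) (g, c + 1) - A (I, c + 1) (g', c + 1)) + 2
      ≤ (-1) ^ (I : ℕ) * (A (I, c) (g, c + 1) - A (I, c) (g', c + 1)) := by
    intro c
    have s1 : sig (c + 1) (c + 1) = 1 := by simp [sig]
    have s2 : sig (c + 1) c = -1 := (by decide : ∀ c : Fin 3, sig (c + 1) c = -1) c
    rcases neg_one_pow_eq_or ℤ (I : ℕ) with e | e
    · have := cmp_link hk g g' hg I hI (c + 1) (c + 1) c
        (by simp only [a0]; rw [e, s1, hrho]; linarith)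
        (by simp only [a0]; rw [e, s2, hrho]; linarith)
      rw [e]
      linarith
    · have := cmp_link hk g g' hg I hI (c + 1) c (c + 1)
        (by simp only [a0]; rw [e, s2, hrho]; linarith)
        (by simp only [a0]; rw [e, s1, hrho]; linarith)
      rw [e]
      linarith
  have k0 : (-1) ^ (I : ℕ) * (A (I, 1) (g, 1) - A (I, 1) (g', 1)) + 2
      ≤ (-1) ^ (I : ℕ) * (A (I, 0) (g, 1) - A (I, 0) (g', 1)) := key 0
  have k1 : (-1) ^ (I : ℕ) * (A (I, 2) (g, 2) - A (I, 2) (g', 2)) + 2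
      ≤ (-1) ^ (I : ℕ) * (A (I, 1) (g, 2) - A (I, 1) (g', 2)) := key 1
  have k2 : (-1) ^ (I : ℕ) * (A (I, 0) (g, 0) - A (I, 0) (g', 0)) + 2
      ≤ (-1) ^ (I : ℕ) * (A (I, 2) (g, 0) - A (I, 2) (g', 0)) := key 2
  show (-1) ^ (I : ℕ) * (A (I, 0) (g, 0) - A (I, 0) (g, 1) + (A (I, 1) (g, 1) - A (I, 1) (g, 2)) +
      (A (I, 2) (g, 2) - A (I, 2) (g, 0))) ≤
    (-1) ^ (I : ℕ) * (A (I, 0) (g', 0) - A (I, 0) (g', 1) + (A (I, 1) (g', 1) - A (I, 1) (g', 2)) +
      (A (I, 2) (g', 2) - A (I, 2) (g', 0)))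
  linarith

theorem inner (hk : Keeps (BB K G r) (al K G) (a0 K G) (be K G r) (b0 K G r) A C)
    (g : Fin G) (x : ℤ) (h0 : ∀ I : Fin (K + 1), (I : ℕ) = lev K g 0 → x ≤ tri A g I + 12)
    (k : ℕ) (hkK : k ≤ K) (I : Fin (K + 1)) (hI : (I : ℕ) = lev K g k) :
    2 ^ k * x ≤ tri A g I + 12 := by
  induction k generalizing I with
  | zero => simpa using h0 I hI
  | succ k ih =>
    let I0 : Fin (K + 1) := ⟨lev K g k, by unfold lev; split_ifs <;> omega⟩
    have h1 := ih (by omega) I0 rfl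
    have h2 := tri_step hk g I0 I (by
      have e0 : (I0 : ℕ) = lev K g k := rfl
      unfold lev at hI e0
      by_cases e : Even (g : ℕ)
      · rw [if_pos e] at hI e0
        exact Or.inl ⟨e, by omega⟩
      · rw [if_neg e] at hI e0
        exact Or.inr ⟨e, by omega⟩)
    rw [pow_succ]
    linarith

theorem outer (hk : Keeps (BB K G r) (al K G) (a0 K G) (be K G r) (b0 K G r) A C)
    (n : ℕ) (g : Fin G) (hg : (g : ℕ) = n) (I : Fin (K + 1)) (hI : (I : ℕ) = lev K g K) :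
    16 * 2 ^ ((n + 1) * K) ≤ tri A g I + 12 := by
  induction n generalizing g I with
  | zero =>
    have := inner hk g 16 (fun I hI => by
      have := tri_start hk g hg I (by rw [hI, hg]; simp [lev])
      linarith) K le_rfl I hI
    simpa [mul_comm] using this
  | succ n ih =>
    have hG := g.2
    let g0 : Fin G := ⟨n, by omega⟩
    have := inner hk g (16 * 2 ^ ((n + 1) * K)) (fun I hI => by
      have hI' : (I : ℕ) = lev K g0 K := by
        rw [hI, hg]
        show lev K (n + 1) 0 = lev K n K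
        unfold lev
        by_cases e : Even n
        · rw [if_pos e, if_neg (by simpa [Nat.even_add_one] using e)]
          omega
        · rw [if_neg e, if_pos (by simpa [Nat.even_add_one] using e)]
          omega
      have h1 := ih g0 rfl I hI'
      have h2 := tri_link hk g0 g hg I hI'
      linarith) K le_rfl I hI
    calc (16 : ℤ) * 2 ^ ((n + 1 + 1) * K) = 2 ^ K * (16 * 2 ^ ((n + 1) * K)) := by ring
      _ ≤ _ := this

theorem big (hG : 1 ≤ G) (h1 : ∀ s m, 1 ≤ A s m)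
    (hk : Keeps (BB K G r) (al K G) (a0 K G) (be K G r) (b0 K G r) A C) :
    ∃ s m, ((2 ^ (G * K) : ℕ) : ℤ) ≤ A s m := by
  by_contra hcon
  push Not at hcon
  let g : Fin G := ⟨G - 1, by omega⟩
  let I : Fin (K + 1) := ⟨lev K g K, by unfold lev; split_ifs <;> omega⟩
  have h := outer hk (G - 1) g rfl I rfl
  rw [Nat.sub_add_cancel hG] at h
  have hb : ∀ s c, XX A g s c ≤ 2 ^ (G * K) ∧ -2 ^ (G * K) ≤ XX A g s c := by
    intro s c
    have a1 := h1 s (g, c)
    have a2 := h1 s (g, c + 1)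
    have a3 := hcon s (g, c)
    have a4 := hcon s (g, c + 1)
    push_cast at a3 a4
    unfold XX
    constructor <;> linarith
  have b0 := hb (I, 0) 0
  have b1 := hb (I, 1) 1
  have b2 := hb (I, 2) 2
  have hp : (1 : ℤ) ≤ 2 ^ (G * K) := one_le_pow₀ (by norm_num)
  unfold tri at h
  rcases neg_one_pow_eq_or ℤ (I : ℕ) with e | e <;> rw [e] at h <;> linarith

end Concrete

theorem main (n : ℕ) (hn : 27 ≤ n) :
    ∃ (V : Type) (_ : Fintype V) (E : V → V → Prop) (w : V → V → ℝ),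
      Fintype.card V = n ∧ (∀ v, ¬Relation.TransGen E v v) ∧ (∀ u v, E u v → 0 < w u v) ∧
      ∀ h : V → V → ℕ, (∀ u v, E u v → 1 ≤ h u v) →
        (∀ s t p, IsShortest E (fun u v => (h u v : ℝ)) s t p → IsShortest E w s t p) →
        ∃ u v, E u v ∧ 2 ^ (2 * ((n - 3) / 24) ^ 2) ≤ h u v := by
  set G := (n - 3) / 24 with hG
  obtain ⟨E, w, h1, h2, h3⟩ := frame (BB (2 * G) G (n - (24 * G + 3))) (al (2 * G) G)
    (a0 (2 * G) G) (be (2 * G) G _) (b0 (2 * G) G _) (2 ^ (G * (2 * G)))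
    (fun A C hA hk => big (by omega) hA hk)
  refine ⟨_, inferInstance, E, w, ?_, h1, h2, fun h hh hp => ?_⟩
  · simp only [Fintype.card_sum, Fintype.card_prod, Fintype.card_fin]
    omega
  · rw [show 2 * G ^ 2 = G * (2 * G) by ring]
    exact h3 h hh hp

end Pool.Agent.P.MP_546b07_lc.Low
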