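import Pool.Agent.P.MP_546b07_lc.Defs

set_option autoImplicit false

namespace Pool.Agent.P.MP_546b07_lc.Up

open Finset Matrix

section LP

variable {ι ρ : Type} [Fintype ι] [DecidableEq ι] [Fintype ρ]

theorem abs_det_le (M : Matrix ι ι ℤ) : |M.det| ≤ ∏ j, ∑ k, |M j k| := by
  rw [← Matrix.det_transpose, Matrix.det_apply, Finset.prod_univ_sum, Fintype.piFinset_univ]
  refine (Finset.abs_sum_le_sum_abs _ _).trans ?_
  have h1 : ∀ σ : Equiv.Perm ι, |Equiv.Perm.sign σ • ∏ i, Mᵀ (σ i) i| = ∏ i, |M i (σ i)| := by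
    intro σ
    rw [Units.smul_def, smul_eq_mul, abs_mul, Finset.abs_prod]
    rcases Int.units_eq_one_or (Equiv.Perm.sign σ) with e | e <;> simp [e]
  simp only [h1]
  have h2 : ∑ σ : Equiv.Perm ι, ∏ i, |M i (σ i)| =
      ∑ f ∈ (univ : Finset (Equiv.Perm ι)).image (fun σ : Equiv.Perm ι => (σ : ι → ι)), ∏ i, |M i (f i)| := by
    rw [Finset.sum_image]
    intro σ _ τ _ h
    exact Equiv.coe_fn_injective h
  rw [h2]
  exact Finset.sum_le_sum_of_subset_of_nonneg (Finset.subset_univ _)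
    fun _ _ _ => Finset.prod_nonneg fun _ _ => abs_nonneg _

theorem exists_vertex (A : ρ → ι → ℝ) (b : ρ → ℝ) (hA : ∀ i, ∃ r, A r = Pi.single i 1)
    (x0 : ι → ℝ) (hx0 : ∀ r, b r ≤ A r ⬝ᵥ x0) :
    ∃ x : ι → ℝ, (∀ r, b r ≤ A r ⬝ᵥ x) ∧
      Submodule.span ℝ (Set.range fun r : {r // A r ⬝ᵥ x = b r} => A r) = ⊤ := by
  classical
  let c : (ι → ℝ) → ℕ := fun x => (univ.filter fun r => A r ⬝ᵥ x = b r).card
  let P : ℕ → Prop := fun k => ∃ x : ι → ℝ, (∀ r, b r ≤ A r ⬝ᵥ x) ∧ c x = k
  have hle : ∀ x, c x ≤ Fintype.card ρ := fun x => Finset.card_le_univ _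
  obtain ⟨x, hx, hcx⟩ : P (Nat.findGreatest P (Fintype.card ρ)) :=
    Nat.findGreatest_spec (hle x0) ⟨x0, hx0, rfl⟩
  have hmax : ∀ y, (∀ r, b r ≤ A r ⬝ᵥ y) → c y ≤ c x := fun y hy =>
    hcx ▸ Nat.le_findGreatest (hle y) ⟨y, hy, rfl⟩
  refine ⟨x, hx, ?_⟩
  by_contra hne
  obtain ⟨f, hf0, hf⟩ := Submodule.exists_le_ker_of_lt_top _ (lt_top_iff_ne_top.2 hne)
  have hy : ∃ y : ι → ℝ, (∃ i, y i < 0) ∧ ∀ r, A r ⬝ᵥ x = b r → A r ⬝ᵥ y = 0 := by
    let y : ι → ℝ := fun i => f fun j => if i = j then 1 else 0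
    have h1 : ∀ v, f v = v ⬝ᵥ y := fun v => by
      rw [f.pi_apply_eq_sum_univ v]
      simp [dotProduct, y]
    have h2 : ∀ r, A r ⬝ᵥ x = b r → A r ⬝ᵥ y = 0 := fun r hr => by
      rw [← h1]
      exact hf (Submodule.subset_span ⟨⟨r, hr⟩, rfl⟩)
    have h3 : ∃ i, y i ≠ 0 := by
      by_contra hc
      push Not at hc
      exact hf0 (LinearMap.ext fun v => by simp [h1, dotProduct, hc])
    obtain ⟨i, hi⟩ := h3
    rcases lt_or_gt_of_ne hi with h | h
    · exact ⟨y, ⟨i, h⟩, h2⟩
    · exact ⟨-y, ⟨i, by simpa using h⟩, fun r hr => by simp [h2 r hr]⟩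
  obtain ⟨y, ⟨i, hi⟩, hy⟩ := hy
  obtain ⟨r1, hr1⟩ := hA i
  obtain ⟨r0, hr0, hmin⟩ := Finset.exists_min_image (univ.filter fun r => A r ⬝ᵥ y < 0)
    (fun r => (A r ⬝ᵥ x - b r) / (-(A r ⬝ᵥ y))) ⟨r1, by simpa [hr1] using hi⟩
  have hr0' : A r0 ⬝ᵥ y < 0 := by simpa using hr0
  set t := (A r0 ⬝ᵥ x - b r0) / (-(A r0 ⬝ᵥ y)) with ht
  have ht0 : 0 ≤ t := div_nonneg (by linarith [hx r0]) (by linarith)
  have hfe : ∀ r, b r ≤ A r ⬝ᵥ (x + t • y) := by
    intro r
    rw [dotProduct_add, dotProduct_smul, smul_eq_mul]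
    by_cases hr : A r ⬝ᵥ y < 0
    · have := hmin r (by simpa using hr)
      rw [le_div_iff₀ (by linarith)] at this
      linarith
    · have := mul_nonneg ht0 (not_lt.1 hr)
      linarith [hx r]
  have hlt : c x < c (x + t • y) := by
    apply Finset.card_lt_card
    refine ⟨fun r hr => ?_, fun hsub => ?_⟩
    · simp only [Finset.mem_filter, Finset.mem_univ, true_and] at hr ⊢
      rw [dotProduct_add, dotProduct_smul, hy r hr, hr]
      simp
    · have h1 : A r0 ⬝ᵥ (x + t • y) = b r0 := by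
        rw [dotProduct_add, dotProduct_smul, smul_eq_mul, ht]
        field_simp [hr0'.ne]
        ring
      have h2 := hsub (Finset.mem_filter.2 ⟨Finset.mem_univ r0, h1⟩)
      exact hr0'.ne (hy r0 (Finset.mem_filter.1 h2).2)
  exact absurd (hmax _ hfe) (not_le.2 hlt)

theorem lp_int (A : ρ → ι → ℤ) (b : ρ → ℤ) (L : ℤ) (hL : ∀ r, ∑ i, |A r i| + |b r| ≤ L)
    (hb : ∀ r, 0 ≤ b r) (hA : ∀ i, ∃ r, A r = Pi.single i 1) (x0 : ι → ℝ)
    (hx0 : ∀ r, (b r : ℝ) ≤ (fun i => (A r i : ℝ)) ⬝ᵥ x0) :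
    ∃ z : ι → ℤ, (∀ i, z i ≤ L ^ Fintype.card ι) ∧ ∀ r, b r ≤ A r ⬝ᵥ z := by
  obtain ⟨x, hx, hsp⟩ := exists_vertex (fun r i => (A r i : ℝ)) (fun r => (b r : ℝ)) (fun i => by
    obtain ⟨r, hr⟩ := hA i
    refine ⟨r, funext fun j => ?_⟩
    rw [hr]
    by_cases h : j = i <;> simp [h]) x0 hx0
  obtain ⟨κ, a, -, h1, h2⟩ := exists_linearIndependent' ℝ
    (fun r : {r // (fun i => (A r i : ℝ)) ⬝ᵥ x = b r} => fun i => (A r i : ℝ))
  let bs := Module.Basis.mk h2 (by rw [h1, hsp])
  let e : ι ≃ κ := (Pi.basisFun ℝ ι).indexEquiv bs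
  let B : Matrix ι ι ℤ := fun j i => A (a (e j)).1 i
  let c : ι → ℤ := fun j => b (a (e j)).1
  let Br : Matrix ι ι ℝ := B.map (Int.castRingHom ℝ)
  have hu : IsUnit Br := linearIndependent_rows_iff_isUnit.1 (h2.comp e e.injective)
  have hdet : ((B.det : ℤ) : ℝ) = Br.det := (Int.castRingHom ℝ).map_det B
  have hd0 : B.det ≠ 0 := by
    intro h
    have := (isUnit_iff_isUnit_det Br).1 hu
    rw [← hdet, h] at this
    simp at this
  have hz : (fun i => ((cramer B c i : ℤ) : ℝ)) = (B.det : ℝ) • x := by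
    apply mulVec_injective_iff_isUnit.2 hu
    funext j
    have e1 := congrFun (mulVec_cramer B c) j
    have e2 : (Br *ᵥ x) j = c j := (a (e j)).2
    rw [mulVec_smul, Pi.smul_apply, e2]
    have e3 : (Br *ᵥ fun i => ((cramer B c i : ℤ) : ℝ)) j = (((B *ᵥ cramer B c) j : ℤ) : ℝ) := by
      simp [mulVec, dotProduct, Br]
    rw [e3, e1]
    simp
  refine ⟨B.det.sign • cramer B c, fun i => ?_, fun r => ?_⟩
  · have h3 : |cramer B c i| ≤ L ^ Fintype.card ι := by
      rw [cramer_apply]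
      refine (abs_det_le _).trans ?_
      rw [← Finset.card_univ, ← Finset.prod_const]
      refine Finset.prod_le_prod (fun j _ => Finset.sum_nonneg fun _ _ => abs_nonneg _)
        fun j _ => le_trans ?_ (hL (a (e j)).1)
      have : ∀ k, |B.updateCol i c j k| ≤ |B j k| + if k = i then |c j| else 0 := by
        intro k
        rw [updateCol_apply]
        split_ifs
        · linarith [abs_nonneg (B j k)]
        · simp
      refine (Finset.sum_le_sum fun k _ => this k).trans ?_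
      simp [Finset.sum_add_distrib, B, c]
    refine le_trans (le_abs_self _) (le_trans ?_ h3)
    rw [Pi.smul_apply, smul_eq_mul, abs_mul, Int.abs_sign_of_ne_zero hd0, one_mul]
  · have h4 : ((A r ⬝ᵥ (B.det.sign • cramer B c) : ℤ) : ℝ) =
        ((|B.det| : ℤ) : ℝ) * ((fun i => (A r i : ℝ)) ⬝ᵥ x) := by
      have h5 : ((A r ⬝ᵥ cramer B c : ℤ) : ℝ) =
          (fun i => (A r i : ℝ)) ⬝ᵥ fun i => ((cramer B c i : ℤ) : ℝ) := by
        simp [dotProduct]
      rw [dotProduct_smul, smul_eq_mul, Int.cast_mul, h5, hz, dotProduct_smul, smul_eq_mul,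
        ← mul_assoc, ← Int.cast_mul, Int.sign_mul_self_eq_abs]
    have h6 : (1 : ℝ) ≤ ((|B.det| : ℤ) : ℝ) := by exact_mod_cast Int.one_le_abs hd0
    have h7 : (0 : ℝ) ≤ b r := by exact_mod_cast hb r
    have h8 := hx r
    have : (b r : ℝ) ≤ ((A r ⬝ᵥ (B.det.sign • cramer B c) : ℤ) : ℝ) := by
      rw [h4]
      nlinarith
    exact_mod_cast this

end LP

section Graph

variable {V : Type}

theorem weight_cc (w : V → V → ℝ) (a b : V) (l : List V) :
    weight w (a :: b :: l) = w a b + weight w (b :: l) := by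
  simp [weight]

theorem weight_one (w : V → V → ℝ) (a : V) : weight w [a] = 0 := by
  simp [weight]

theorem weight_tele (φ : V → ℝ) (l : List V) (a t : V) (h : (a :: l).getLast? = some t) :
    weight (fun u v => φ v - φ u) (a :: l) = φ t - φ a := by
  induction l generalizing a with
  | nil =>
    simp only [List.getLast?_singleton, Option.some.injEq] at h
    simp [weight_one, h]
  | cons b l ih =>
    rw [List.getLast?_cons_cons] at h
    rw [weight_cc, ih b h]
    ring

theorem weight_mono {R : V → V → Prop} {f g : V → V → ℝ} (hR : ∀ u v, R u v → f u v ≤ g u v)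
    (l : List V) (a : V) (h : (a :: l).IsChain R) : weight f (a :: l) ≤ weight g (a :: l) := by
  induction l generalizing a with
  | nil => simp [weight_one]
  | cons b l ih =>
    rw [List.isChain_cons_cons] at h
    rw [weight_cc, weight_cc]
    linarith [hR a b h.1, ih b h.2]

theorem weight_eq {R : V → V → Prop} {f g : V → V → ℝ} (hR : ∀ u v, R u v → f u v ≤ g u v)
    (l : List V) (a : V) (h : (a :: l).IsChain R) (he : weight g (a :: l) ≤ weight f (a :: l)) :
    (a :: l).IsChain fun u v => R u v ∧ g u v ≤ f u v := by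
  induction l generalizing a with
  | nil => simp
  | cons b l ih =>
    rw [List.isChain_cons_cons] at h ⊢
    rw [weight_cc, weight_cc] at he
    have h1 := hR a b h.1
    have h2 := weight_mono hR l b h.2
    exact ⟨⟨h.1, by linarith⟩, ih b h.2 (by linarith)⟩

theorem chain_reach {E : V → V → Prop} {P : V → Prop} (hP : ∀ u v, P u → E u v → P v)
    (l : List V) (a : V) (ha : P a) (h : (a :: l).IsChain E) :
    (a :: l).IsChain fun u v => E u v ∧ P u := by
  induction l generalizing a with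
  | nil => simp
  | cons b l ih =>
    rw [List.isChain_cons_cons] at h ⊢
    exact ⟨⟨h.1, ha⟩, ih b (hP a b ha h.1) h.2⟩

theorem extend {E : V → V → Prop} {w : V → V → ℝ} (hw : ∀ u v, E u v → 0 < w u v) {u v : V}
    (huv : E u v) (l : List V) (s : V) (h : IsPath E s u (s :: l)) :
    ∃ q, IsPath E s v (s :: q) ∧ weight w (s :: q) ≤ weight w (s :: l) + w u v ∧
      ∀ x ∈ q, x ∈ l ∨ x = v := by
  have h0 : ∀ (l : List V) (a : V), (a :: l).IsChain E → 0 ≤ weight w (a :: l) := by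
    intro l a h
    induction l generalizing a with
    | nil => simp [weight_one]
    | cons b l ih =>
      rw [List.isChain_cons_cons] at h
      rw [weight_cc]
      linarith [hw a b h.1, ih b h.2]
  induction l generalizing s with
  | nil =>
    have hs : s = u := by simpa using h.2.2.2
    subst hs
    by_cases hsv : s = v
    · subst hsv
      exact ⟨[], h, by linarith [hw s s huv], by simp⟩
    · exact ⟨[v], ⟨by simpa using huv, by simpa using hsv, rfl, rfl⟩,
        by simp [weight_cc, weight_one], by simp⟩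
  | cons b l ih =>
    by_cases hsv : s = v
    · subst hsv
      exact ⟨[], ⟨by simp, by simp, rfl, rfl⟩,
        by linarith [weight_one w s, hw u s huv, h0 _ _ h.1], by simp⟩
    · obtain ⟨h1, h2, -, h4⟩ := h
      rw [List.isChain_cons_cons] at h1
      rw [List.nodup_cons] at h2
      rw [List.getLast?_cons_cons] at h4
      obtain ⟨q, ⟨k1, k2, -, k4⟩, k5, k6⟩ := ih b ⟨h1.2, h2.2, rfl, h4⟩
      refine ⟨b :: q, ⟨List.isChain_cons_cons.2 ⟨h1.1, k1⟩, List.nodup_cons.2 ⟨?_, k2⟩, rfl,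
        by rw [List.getLast?_cons_cons]; exact k4⟩, by rw [weight_cc, weight_cc]; linarith, ?_⟩
      · intro hm
        rcases List.mem_cons.1 hm with e | e
        · exact h2.1 (e ▸ List.mem_cons_self)
        · rcases k6 s e with e' | e'
          · exact h2.1 (List.mem_cons_of_mem _ e')
          · exact hsv e'
      · intro x hx
        rcases List.mem_cons.1 hx with e | e
        · exact Or.inl (e ▸ List.mem_cons_self)
        · exact (k6 x e).imp_left (List.mem_cons_of_mem _)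

theorem path_cons {E : V → V → Prop} {s t : V} {p : List V} (h : IsPath E s t p) :
    ∃ l, p = s :: l := by
  rcases p with _ | ⟨a, l⟩
  · simp [IsPath] at h
  · have : a = s := by simpa using h.2.2.1
    exact ⟨l, by rw [this]⟩

theorem exists_shortest [Fintype V] (E : V → V → Prop) (w : V → V → ℝ) (s t : V)
    (h : ∃ p, IsPath E s t p) : ∃ p, IsShortest E w s t p := by
  have hf : {p | IsPath E s t p}.Finite :=
    (List.finite_length_le V (Fintype.card V)).subset fun p hp => hp.2.1.length_le_card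
  obtain ⟨p, hp, hmin⟩ := Set.exists_min_image _ (weight w) hf h
  exact ⟨p, hp, hmin⟩

theorem exists_dist [Fintype V] (E : V → V → Prop) (w : V → V → ℝ)
    (hw : ∀ u v, E u v → 0 < w u v) :
    ∃ D : V → V → ℝ, (∀ s, D s s = 0) ∧
      (∀ s t, (∃ p, IsPath E s t p) → ∃ p, IsPath E s t p ∧ weight w p = D s t) ∧
      ∀ s u v, E u v ∧ (∃ p, IsPath E s u p) → D s v - D s u ≤ w u v := by
  classical
  let D : V → V → ℝ := fun s t =>
    if h : ∃ p, IsPath E s t p then weight w (exists_shortest E w s t h).choose else 0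
  have h1 : ∀ s t, (∃ p, IsPath E s t p) → ∃ p, IsShortest E w s t p ∧ weight w p = D s t :=
    fun s t h => ⟨_, (exists_shortest E w s t h).choose_spec, by simp only [D, dif_pos h]⟩
  refine ⟨D, fun s => ?_, fun s t h => (h1 s t h).imp fun p hp => ⟨hp.1.1, hp.2⟩, ?_⟩
  · obtain ⟨p, hp, he⟩ := h1 s s ⟨[s], by simp, by simp, rfl, rfl⟩
    obtain ⟨l, rfl⟩ := path_cons hp.1
    rcases l with _ | ⟨b, l⟩
    · rw [← he, weight_one]
    · exfalso
      obtain ⟨-, h2, -, h4⟩ := hp.1
      rw [List.getLast?_cons_cons] at h4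
      exact (List.nodup_cons.1 h2).1 (List.mem_of_getLast? h4)
  · rintro s u v ⟨huv, hu⟩
    obtain ⟨p, hp, he⟩ := h1 s u hu
    obtain ⟨l, rfl⟩ := path_cons hp.1
    obtain ⟨q, hq, hq2, -⟩ := extend hw huv l s hp.1
    obtain ⟨p', hp', he'⟩ := h1 s v ⟨_, hq⟩
    linarith [hp'.2 _ hq]

theorem exists_scale {X : Type} [Fintype X] (f : X → ℝ) :
    ∃ c : ℝ, 0 < c ∧ ∀ c', c ≤ c' → ∀ x, 0 < f x → 1 ≤ c' * f x := by
  have h0 : 0 ≤ ∑ x, |(f x)⁻¹| := Finset.sum_nonneg fun _ _ => abs_nonneg _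
  refine ⟨1 + ∑ x, |(f x)⁻¹|, by linarith, fun c' hc x hx => ?_⟩
  have h1 : |(f x)⁻¹| ≤ ∑ x, |(f x)⁻¹| :=
    Finset.single_le_sum (f := fun x => |(f x)⁻¹|) (fun _ _ => abs_nonneg _) (Finset.mem_univ x)
  have h2 : (f x)⁻¹ ≤ c' := by linarith [le_abs_self (f x)⁻¹]
  calc (1 : ℝ) = (f x)⁻¹ * f x := (inv_mul_cancel₀ hx.ne').symm
    _ ≤ c' * f x := mul_le_mul_of_nonneg_right h2 hx.le

theorem preserve {E : V → V → Prop} {w h D d : V → V → ℝ} (hw : ∀ u v, E u v → 0 < w u v)
    (h1 : ∀ s, D s s = 0)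
    (h2 : ∀ s t, (∃ p, IsPath E s t p) → ∃ p, IsPath E s t p ∧ weight w p = D s t)
    (h3 : ∀ s u v, E u v ∧ (∃ p, IsPath E s u p) → D s v - D s u ≤ w u v)
    (k1 : ∀ s u v, E u v ∧ (∃ p, IsPath E s u p) → d s v - d s u ≤ h u v)
    (k2 : ∀ s u v, E u v ∧ (∃ p, IsPath E s u p) →
      (w u v ≤ D s v - D s u ↔ h u v ≤ d s v - d s u))
    (s t : V) (p : List V) (hp : IsShortest E h s t p) : IsShortest E w s t p := by
  have hP : ∀ u v, (∃ p, IsPath E s u p) → E u v → ∃ p, IsPath E s v p := by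
    rintro u v ⟨p, hp⟩ huv
    obtain ⟨l, rfl⟩ := path_cons hp
    obtain ⟨q, hq, -⟩ := extend hw huv l s hp
    exact ⟨_, hq⟩
  have hs : ∃ p, IsPath E s s p := ⟨[s], by simp, by simp, rfl, rfl⟩
  obtain ⟨p0, hp0, he0⟩ := h2 s t ⟨p, hp.1⟩
  obtain ⟨l0, rfl⟩ := path_cons hp0
  obtain ⟨l, rfl⟩ := path_cons hp.1
  have c0 := chain_reach hP l0 s hs hp0.1
  have c1 := chain_reach hP l s hs hp.1.1
  have a1 := weight_eq (h3 s) l0 s c0 (by rw [weight_tele (D s) l0 s t hp0.2.2.2, he0, h1]; simp)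
  have a2 := weight_mono (g := fun u v => d s v - d s u)
    (fun u v huv => (k2 s u v huv.1).1 huv.2) l0 s a1
  have a3 := weight_eq (k1 s) l s c1 (by
    rw [weight_tele (d s) l s t hp.1.2.2.2, ← weight_tele (d s) l0 s t hp0.2.2.2]
    exact (hp.2 _ hp0).trans a2)
  have a4 := weight_mono (g := fun u v => D s v - D s u)
    (fun u v huv => (k2 s u v huv.1).2 huv.2) l s a3
  refine ⟨hp.1, fun q hq => ?_⟩
  obtain ⟨l1, rfl⟩ := path_cons hq
  have a5 := weight_mono (h3 s) l1 s (chain_reach hP l1 s hs hq.1)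
  rw [weight_tele (D s) l1 s t hq.2.2.2] at a5
  rw [weight_tele (D s) l s t hp.1.2.2.2] at a4
  exact a4.trans a5

/-- A row with three entries. -/
def row {ι : Type} [DecidableEq ι] (a b c : ι) : ι → ℤ :=
  Pi.single a 1 + Pi.single b 1 - Pi.single c 1

theorem row_l1 {ι : Type} [Fintype ι] [DecidableEq ι] (a b c : ι) : ∑ i, |row a b c i| ≤ 3 := by
  have h : ∀ i, |row a b c i| ≤
      (if i = a then 1 else 0) + (if i = b then 1 else 0) + (if i = c then 1 else 0) := by
    intro i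
    simp only [row, Pi.add_apply, Pi.sub_apply, Pi.single_apply]
    split_ifs <;> decide
  refine (Finset.sum_le_sum fun i _ => h i).trans ?_
  simp [Finset.sum_add_distrib]

theorem row_dot {ι : Type} [Fintype ι] [DecidableEq ι] (a b c : ι) (z : ι → ℤ) :
    row a b c ⬝ᵥ z = z a + z b - z c := by
  simp [row]

theorem row_dotR {ι : Type} [Fintype ι] [DecidableEq ι] (a b c : ι) (x : ι → ℝ) :
    (fun i => (row a b c i : ℝ)) ⬝ᵥ x = x a + x b - x c := by
  simp [row, dotProduct, Pi.single_apply, add_mul, sub_mul, Finset.sum_add_distrib,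
    Finset.sum_sub_distrib]

theorem main [Fintype V] (E : V → V → Prop) (w : V → V → ℝ) (hw : ∀ u v, E u v → 0 < w u v) :
    ∃ h : V → V → ℕ, (∀ u v, E u v → 1 ≤ h u v ∧ h u v ≤ 2 ^ (4 * Fintype.card V ^ 2)) ∧
      ∀ s t p, IsShortest E (fun u v => (h u v : ℝ)) s t p → IsShortest E w s t p := by
  classical
  obtain ⟨D, h1, h2, h3⟩ := exists_dist E w hw
  obtain ⟨c1, hc1, k1⟩ := exists_scale fun x : V × V => w x.1 x.2
  obtain ⟨c2, hc2, k2⟩ :=
    exists_scale fun x : V × V × V => w x.2.1 x.2.2 + D x.1 x.2.1 - D x.1 x.2.2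
  let R : V × V × V → Prop := fun x => E x.2.1 x.2.2 ∧ ∃ p, IsPath E x.1 x.2.1 p
  let Tt : V × V × V → Prop := fun x => w x.2.1 x.2.2 ≤ D x.1 x.2.2 - D x.1 x.2.1
  let rw3 : V × V × V → (V × V) ⊕ (V × V) → ℤ := fun x =>
    row (.inl (x.2.1, x.2.2)) (.inr (x.1, x.2.1)) (.inr (x.1, x.2.2))
  let A : ((V × V) ⊕ (V × V)) ⊕ (V × V) ⊕ (V × V × V) ⊕ (V × V × V) → (V × V) ⊕ (V × V) → ℤ :=
    fun r => match r with
      | .inl i => Pi.single i 1
      | .inr (.inl e) => Pi.single (.inl e) 1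
      | .inr (.inr (.inl x)) => if R x then rw3 x else 0
      | .inr (.inr (.inr x)) => if R x ∧ Tt x then -rw3 x else 0
  let b : ((V × V) ⊕ (V × V)) ⊕ (V × V) ⊕ (V × V × V) ⊕ (V × V × V) → ℤ :=
    fun r => match r with
      | .inl _ => 0
      | .inr (.inl e) => if E e.1 e.2 then 1 else 0
      | .inr (.inr (.inl x)) => if R x ∧ ¬Tt x then 1 else 0
      | .inr (.inr (.inr _)) => 0
  obtain ⟨M, hM0, hM⟩ : ∃ M : ℝ, 0 ≤ M ∧ ∀ s v, 0 ≤ D s v + M := by
    refine ⟨∑ x : V × V, |D x.1 x.2|, Finset.sum_nonneg fun _ _ => abs_nonneg _, fun s v => ?_⟩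
    have : |D s v| ≤ ∑ x : V × V, |D x.1 x.2| :=
      Finset.single_le_sum (f := fun x : V × V => |D x.1 x.2|) (fun _ _ => abs_nonneg _)
        (Finset.mem_univ (s, v))
    linarith [neg_abs_le (D s v)]
  let x0 : (V × V) ⊕ (V × V) → ℝ := fun i => match i with
    | .inl e => if E e.1 e.2 then (c1 + c2) * w e.1 e.2 else 0
    | .inr e => (c1 + c2) * (D e.1 e.2 + M)
  have hx3 : ∀ x, R x → (fun i => (rw3 x i : ℝ)) ⬝ᵥ x0 =
      (c1 + c2) * (w x.2.1 x.2.2 + D x.1 x.2.1 - D x.1 x.2.2) := by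
    intro x hx
    simp only [rw3, row_dotR, x0, if_pos hx.1]
    ring
  have hsing : ∀ i, (fun j => ((Pi.single i 1 : (V × V) ⊕ (V × V) → ℤ) j : ℝ)) ⬝ᵥ x0 = x0 i := by
    intro i
    simp [dotProduct, Pi.single_apply]
  obtain ⟨z, hz1, hz2⟩ := lp_int A b 4 (by
      rintro (i | e | x | x)
      · simp [A, b, Pi.single_apply, apply_ite]
      · simp only [A, b, Pi.single_apply, apply_ite abs]
        split_ifs <;> simp
      · have := row_l1 (Sum.inl (x.2.1, x.2.2) : (V × V) ⊕ (V × V)) (.inr (x.1, x.2.1))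
          (.inr (x.1, x.2.2))
        simp only [A, b, rw3]
        split_ifs <;> simp only [abs_one, abs_zero, Pi.zero_apply, Finset.sum_const_zero] <;>
          linarith
      · have := row_l1 (Sum.inl (x.2.1, x.2.2) : (V × V) ⊕ (V × V)) (.inr (x.1, x.2.1))
          (.inr (x.1, x.2.2))
        simp only [A, b, rw3]
        split_ifs <;>
          simp only [abs_zero, Pi.zero_apply, Pi.neg_apply, abs_neg, Finset.sum_const_zero] <;>
          linarith)
    (by
      rintro (i | e | x | x) <;> simp only [b, le_refl] <;> split_ifs <;> norm_num)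
    (fun i => ⟨.inl i, rfl⟩) x0 (by
      rintro (i | e | x | x)
      · simp only [A, b, hsing, Int.cast_zero]
        rcases i with e | e
        · simp only [x0]
          split_ifs with he
          · exact mul_nonneg (by linarith) (hw _ _ he).le
          · exact le_rfl
        · exact mul_nonneg (by linarith) (hM _ _)
      · simp only [A, b, hsing, x0]
        split_ifs with he
        · simpa using k1 (c1 + c2) (by linarith) e (hw _ _ he)
        · simp
      · simp only [A, b]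
        by_cases hx : R x
        · rw [if_pos hx, hx3 x hx]
          split_ifs with ht
          · simpa using k2 (c1 + c2) (by linarith) x (by linarith [not_le.1 ht.2])
          · simpa using mul_nonneg (by linarith) (by linarith [h3 _ _ _ hx])
        · simp [hx]
      · simp only [A, b]
        split_ifs with ht
        · have e1 := hx3 x ht.1
          have e2 : w x.2.1 x.2.2 + D x.1 x.2.1 - D x.1 x.2.2 = 0 := by
            linarith [h3 _ _ _ ht.1, ht.2]
          have e3 : (fun i => ((-rw3 x) i : ℝ)) = -fun i => (rw3 x i : ℝ) := by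
            funext i
            simp
          rw [e3, neg_dotProduct, e1, e2]
          simp
        · simp)
  have hz0 : ∀ i, 0 ≤ z i := fun i => by simpa [A, b] using hz2 (.inl i)
  have hcast : ∀ u v, (((z (.inl (u, v))).toNat : ℕ) : ℝ) = (z (.inl (u, v)) : ℝ) := fun u v => by
    rw [← Int.cast_natCast, Int.toNat_of_nonneg (hz0 _)]
  refine ⟨fun u v => (z (.inl (u, v))).toNat, fun u v huv => ⟨?_, ?_⟩, ?_⟩
  · have := hz2 (.inr (.inl (u, v)))
    simp only [A, b, if_pos huv, single_dotProduct, one_mul] at this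
    show 1 ≤ (z (.inl (u, v))).toNat
    omega
  · have := hz1 (.inl (u, v))
    show (z (.inl (u, v))).toNat ≤ _
    rw [Int.toNat_le]
    refine this.trans (le_of_eq ?_)
    simp only [Fintype.card_sum, Fintype.card_prod]
    push_cast
    rw [show (4 : ℤ) = 2 ^ 2 by norm_num, ← pow_mul]
    congr 1
    ring
  · have q1 : ∀ s u v, R (s, u, v) → (if Tt (s, u, v) then 0 else 1) ≤
        z (.inl (u, v)) + z (.inr (s, u)) - z (.inr (s, v)) := by
      intro s u v hR
      have := hz2 (.inr (.inr (.inl (s, u, v))))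
      simp only [A, b, if_pos hR, rw3, row_dot, hR, true_and, ite_not] at this
      exact this
    have q2 : ∀ s u v, R (s, u, v) → Tt (s, u, v) →
        z (.inl (u, v)) + z (.inr (s, u)) - z (.inr (s, v)) ≤ 0 := by
      intro s u v hR hT
      have := hz2 (.inr (.inr (.inr (s, u, v))))
      simp only [A, b, if_pos (And.intro hR hT), rw3, neg_dotProduct, row_dot] at this
      linarith
    refine preserve (d := fun s v => (z (.inr (s, v)) : ℝ)) hw h1 h2 h3 ?_ ?_
    · intro s u v hR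
      have := q1 s u v hR
      rw [hcast]
      have : z (.inr (s, v)) - z (.inr (s, u)) ≤ z (.inl (u, v)) := by
        split_ifs at this <;> linarith
      exact_mod_cast this
    · intro s u v hR
      rw [hcast]
      constructor
      · intro hT
        have : z (.inl (u, v)) ≤ z (.inr (s, v)) - z (.inr (s, u)) := by
          linarith [q2 s u v hR hT]
        exact_mod_cast this
      · intro hle
        by_contra hT
        have := q1 s u v hR
        rw [if_neg hT] at this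
        have h5 : z (.inl (u, v)) ≤ z (.inr (s, v)) - z (.inr (s, u)) := by exact_mod_cast hle
        linarith

end Graph

end Pool.Agent.P.MP_546b07_lc.Up
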