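import Pool.Agent.P.MP_546b07_lc.Defs

set_option autoImplicit false

namespace Pool.Agent.P.MP_546b07_lc

/-- Sources, three middle vertices, sinks. -/
abbrev VV (K : ℕ) : Type := (Fin (K + 1) × Fin 3) ⊕ Fin 3 ⊕ (Fin (K + 1) × Fin 3)

variable {K : ℕ}

/-- The edges. -/
def EE : VV K → VV K → Prop
  | .inl _, .inr (.inl _) => True
  | .inr (.inl m), .inr (.inr t) => m = t.2 ∨ m = t.2 + 1
  | _, _ => False

/-- The layer of a vertex. -/
def lay : VV K → ℕ
  | .inl _ => 0
  | .inr (.inl _) => 1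
  | .inr (.inr _) => 2

theorem lay_lt {u v : VV K} (h : EE u v) : lay u < lay v := by
  rcases u with u | u | u <;> rcases v with v | v | v <;> simp_all [EE, lay]

theorem acyclic (v : VV K) : ¬Relation.TransGen EE v v := by
  have h : ∀ u v : VV K, Relation.TransGen EE u v → lay u < lay v := by
    intro u v h
    induction h with
    | single h => exact lay_lt h
    | tail _ h ih => exact ih.trans (lay_lt h)
  intro hv
  exact lt_irrefl _ (h v v hv)

/-- The weights. -/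
noncomputable def ww : VV K → VV K → ℝ
  | .inl s, .inr (.inl m) => 2 ^ (K + 2) + (-1) ^ (s.1 : ℕ) * (2 ^ (s.1 : ℕ) - 1) *
      (if m = s.2 then 1 else if m = s.2 + 1 then -1 else 0)
  | .inr (.inl m), .inr (.inr t) => 2 ^ (K + 2) +
      (if m = t.2 then 0 else (-1) ^ (t.1 : ℕ) * (2 * (2 ^ (t.1 : ℕ) - 1) + 1 / 2))
  | _, _ => 1

theorem ww_pos (u v : VV K) : 0 < ww u v := by
  have h : ∀ k : Fin (K + 1), (1 : ℝ) ≤ 2 ^ (k : ℕ) ∧ (2 : ℝ) ^ (k : ℕ) ≤ 2 ^ K :=
    fun k => ⟨one_le_pow₀ (by norm_num), pow_le_pow_right₀ (by norm_num) (Nat.lt_succ_iff.1 k.2)⟩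
  have h2 : (2 : ℝ) ^ (K + 2) = 4 * 2 ^ K := by ring
  rcases u with u | u | u <;> rcases v with v | v | v <;> simp only [ww, zero_lt_one]
  · obtain ⟨h3, h4⟩ := h u.1
    rcases neg_one_pow_eq_or ℝ (u.1 : ℕ) with e | e <;> rw [e] <;> split_ifs <;> linarith
  · obtain ⟨h3, h4⟩ := h v.1
    rcases neg_one_pow_eq_or ℝ (v.1 : ℕ) with e | e <;> rw [e] <;> split_ifs <;> linarith

theorem path_cases {s t : Fin (K + 1) × Fin 3} {p : List (VV K)}
    (h : IsPath EE (.inl s) (.inr (.inr t)) p) :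
    p = [.inl s, .inr (.inl t.2), .inr (.inr t)] ∨
      p = [.inl s, .inr (.inl (t.2 + 1)), .inr (.inr t)] := by
  obtain ⟨h1, -, h2, h3⟩ := h
  rcases p with _ | ⟨a, _ | ⟨b, _ | ⟨c, _ | ⟨d, r⟩⟩⟩⟩
  · simp at h2
  · simp only [List.head?_cons, Option.some.injEq, List.getLast?_singleton] at h2 h3
    rw [h2] at h3
    cases h3
  · simp only [List.head?_cons, Option.some.injEq, List.getLast?_cons_cons,
      List.getLast?_singleton] at h2 h3
    subst h2 h3
    simp [EE] at h1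
  · simp only [List.head?_cons, Option.some.injEq, List.getLast?_cons_cons,
      List.getLast?_singleton] at h2 h3
    subst h2 h3
    rcases b with b | b | b
    · simp [EE] at h1
    · simp only [List.isChain_cons_cons, EE, List.isChain_singleton, and_true, true_and] at h1
      rcases h1 with rfl | rfl
      · exact Or.inl rfl
      · exact Or.inr rfl
    · simp [EE] at h1
  · simp only [List.isChain_cons_cons] at h1
    have e1 := lay_lt h1.1
    have e2 := lay_lt h1.2.1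
    have e3 := lay_lt h1.2.2.1
    have e4 : lay d ≤ 2 := by rcases d with d | d | d <;> simp [lay]
    omega

theorem path_one (s t : Fin (K + 1) × Fin 3) (m : Fin 3) (hm : m = t.2 ∨ m = t.2 + 1) :
    IsPath EE (.inl s) (.inr (.inr t)) [.inl s, .inr (.inl m), .inr (.inr t)] := by
  refine ⟨?_, by simp, rfl, rfl⟩
  simp only [List.isChain_cons_cons, EE, List.isChain_singleton, and_true, true_and]
  exact hm

theorem weight_three {V : Type} (w : V → V → ℝ) (a b c : V) :
    weight w [a, b, c] = w a b + w b c := by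
  simp [weight]

theorem key {h : VV K → VV K → ℝ}
    (hp : ∀ s t p, IsShortest EE h s t p → IsShortest EE ww s t p) (s t : Fin (K + 1) × Fin 3)
    (m m' : Fin 3) (hm : m = t.2 ∧ m' = t.2 + 1 ∨ m = t.2 + 1 ∧ m' = t.2)
    (hlt : ww (.inl s : VV K) (.inr (.inl m)) + ww (.inr (.inl m) : VV K) (.inr (.inr t)) <
      ww (.inl s : VV K) (.inr (.inl m')) + ww (.inr (.inl m') : VV K) (.inr (.inr t))) :
    h (.inl s) (.inr (.inl m)) + h (.inr (.inl m)) (.inr (.inr t)) <
      h (.inl s) (.inr (.inl m')) + h (.inr (.inl m')) (.inr (.inr t)) := by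
  by_contra hcon
  have h1 : IsShortest EE h (.inl s) (.inr (.inr t)) [.inl s, .inr (.inl m'), .inr (.inr t)] := by
    refine ⟨path_one s t m' (by tauto), fun q hq => ?_⟩
    rcases hm with ⟨rfl, rfl⟩ | ⟨rfl, rfl⟩ <;> rcases path_cases hq with rfl | rfl <;>
      simp only [weight_three] <;> linarith
  have h2 := (hp _ _ _ h1).2 _ (path_one s t m (by tauto))
  simp only [weight_three] at h2
  linarith

/-- The source of level `k` and direction `c`. -/
def src (k : Fin (K + 1)) (c : Fin 3) : Fin (K + 1) × Fin 3 := (k, if (k : ℕ) = 0 then 0 else c)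

theorem ww_src (k : Fin (K + 1)) (c c' : Fin 3) :
    ww (.inl (src k c) : VV K) (.inr (.inl c')) - ww (.inl (src k c) : VV K) (.inr (.inl (c' + 1))) =
      (-1) ^ (k : ℕ) * (2 ^ (k : ℕ) - 1) * (if c' = c then 2 else -1) := by
  by_cases hk : (k : ℕ) = 0
  · simp [ww, src, hk]
  · simp only [ww, src, hk, if_false]
    fin_cases c <;> fin_cases c' <;> simp <;> ring

theorem ww_snk (t : Fin (K + 1) × Fin 3) :
    ww (.inr (.inl (t.2 + 1)) : VV K) (.inr (.inr t)) - ww (.inr (.inl t.2) : VV K) (.inr (.inr t)) =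
      (-1) ^ (t.1 : ℕ) * (2 * (2 ^ (t.1 : ℕ) - 1) + 1 / 2) := by
  have h : ∀ c : Fin 3, c + 1 ≠ c := by decide
  simp [ww, h]

/-- The coordinates of a source in the reweighted graph. -/
def XX (h : VV K → VV K → ℕ) (s : Fin (K + 1) × Fin 3) (c : Fin 3) : ℤ :=
  (h (.inl s) (.inr (.inl c)) : ℤ) - h (.inl s) (.inr (.inl (c + 1)))

theorem step {h : VV K → VV K → ℕ}
    (hp : ∀ s t p, IsShortest EE (fun u v => (h u v : ℝ)) s t p → IsShortest EE ww s t p)
    (k k' : Fin (K + 1)) (hk : (k' : ℕ) = k + 1) (c c' : Fin 3) (hc : c ≠ c') :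
    (-1) ^ (k : ℕ) * XX h (src k c) c + 2 ≤ (-1) ^ (k : ℕ) * XX h (src k' c') c := by
  have a1 := ww_src k c c
  have a2 := ww_src k' c' c
  have a3 := ww_snk (K := K) (k, c)
  rw [if_pos rfl] at a1
  rw [if_neg hc, hk, pow_succ, pow_succ] at a2
  simp only at a3
  unfold XX
  rcases Nat.even_or_odd (k : ℕ) with e | e
  · rw [e.neg_one_pow] at a1 a2 a3 ⊢
    have b1 := key hp (src k c) (k, c) c (c + 1) (Or.inl ⟨rfl, rfl⟩) (by linarith)
    have b2 := key hp (src k' c') (k, c) (c + 1) c (Or.inr ⟨rfl, rfl⟩) (by linarith)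
    norm_cast at b1 b2
    omega
  · rw [e.neg_one_pow] at a1 a2 a3 ⊢
    have b1 := key hp (src k c) (k, c) (c + 1) c (Or.inr ⟨rfl, rfl⟩) (by linarith)
    have b2 := key hp (src k' c') (k, c) c (c + 1) (Or.inl ⟨rfl, rfl⟩) (by linarith)
    norm_cast at b1 b2
    omega

theorem XX_sum (h : VV K → VV K → ℕ) (s : Fin (K + 1) × Fin 3) (c : Fin 3) :
    XX h s c + XX h s (c + 1) + XX h s (c + 2) = 0 := by
  have h1 : ∀ c : Fin 3, c + 1 + 1 = c + 2 ∧ c + 2 + 1 = c := by decide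
  unfold XX
  rw [(h1 c).1, (h1 c).2]
  ring

theorem growth {h : VV K → VV K → ℕ}
    (hp : ∀ s t p, IsShortest EE (fun u v => (h u v : ℝ)) s t p → IsShortest EE ww s t p)
    (k : ℕ) (hk : k < K + 1) (c : Fin 3) :
    4 * (2 ^ k - 1) ≤ (-1) ^ k * (XX h (src ⟨k, hk⟩ c) c - XX h (0, 0) c) := by
  induction k generalizing c with
  | zero => simp [src]
  | succ k ih =>
    have hk' : k < K + 1 := by omega
    have h1 : ∀ c : Fin 3, c + 1 ≠ c ∧ c + 2 ≠ c := by decide
    have a1 := ih hk' (c + 1)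
    have a2 := ih hk' (c + 2)
    have b1 := step hp ⟨k, hk'⟩ ⟨k + 1, hk⟩ rfl (c + 1) c (h1 c).1
    have b2 := step hp ⟨k, hk'⟩ ⟨k + 1, hk⟩ rfl (c + 2) c (h1 c).2
    have c1 := XX_sum h (src ⟨k + 1, hk⟩ c) c
    have c2 := XX_sum h (0, 0) c
    simp only at b1 b2
    rw [pow_succ, pow_succ]
    rcases neg_one_pow_eq_or ℤ k with e | e <;> rw [e] at a1 a2 b1 b2 ⊢ <;> linarith

theorem main (K : ℕ) : ∃ (V : Type) (_ : Fintype V) (E : V → V → Prop) (w : V → V → ℝ),
    Fintype.card V = 6 * K + 9 ∧ (∀ v, ¬Relation.TransGen E v v) ∧ (∀ u v, E u v → 0 < w u v) ∧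
    ∀ h : V → V → ℕ, (∀ u v, E u v → 1 ≤ h u v) →
      (∀ s t p, IsShortest E (fun u v => (h u v : ℝ)) s t p → IsShortest E w s t p) →
      ∃ u v, E u v ∧ 2 ^ K ≤ h u v := by
  refine ⟨VV K, inferInstance, EE, ww, ?_, acyclic, fun u v _ => ww_pos u v, fun h h1 hp => ?_⟩
  · simp only [Fintype.card_sum, Fintype.card_prod, Fintype.card_fin]
    ring
  · by_contra hcon
    push Not at hcon
    have hb : ∀ (s : Fin (K + 1) × Fin 3) (c : Fin 3),
        XX h s c ≤ 2 ^ K - 2 ∧ -(2 ^ K - 2) ≤ XX h s c := by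
      intro s c
      have a1 := h1 (.inl s) (.inr (.inl c)) trivial
      have a2 := h1 (.inl s) (.inr (.inl (c + 1))) trivial
      have a3 := hcon (.inl s) (.inr (.inl c)) trivial
      have a4 := hcon (.inl s) (.inr (.inl (c + 1))) trivial
      unfold XX
      zify at a1 a2 a3 a4
      constructor <;> linarith
    have g := growth hp K (Nat.lt_succ_self K) 0
    obtain ⟨a1, a2⟩ := hb (src ⟨K, Nat.lt_succ_self K⟩ 0) 0
    obtain ⟨a3, a4⟩ := hb (0, 0) 0
    have a5 : (0 : ℤ) < 2 ^ K := by positivity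
    rcases neg_one_pow_eq_or ℤ K with e | e <;> rw [e] at g <;> linarith

end Pool.Agent.P.MP_546b07_lc
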