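import Pool.Agent.P.MP_546b07_lc.Defs

set_option autoImplicit false

namespace Pool.Agent.P.MP_546b07_lc

variable {V : Type}

/-- `p` is a path from `s` to `t` whose weight is at most `α` times the weight of every path
from `s` to `t`. -/
def IsApprox (α : ℝ) (E : V → V → Prop) (w : V → V → ℝ) (s t : V) (p : List V) : Prop :=
  IsPath E s t p ∧ ∀ q, IsPath E s t q → weight w p ≤ α * weight w q

end Pool.Agent.P.MP_546b07_lc
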