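import Pool.Agent.P.MP_546b07_lc.TDefs
import Pool.Agent.P.MP_546b07_lc.H42Low

set_option autoImplicit false

namespace Pool.Agent.P.MP_546b07_lc.TLow

open Low

section Frame

variable {S M T : Type} {B : M → T → Prop}

theorem gap {c : ℝ} (hc : 1 ≤ c) {x y x' y' : ℕ} (h : max x y < max x' y') :
    c * ((2 * c) ^ x + (2 * c) ^ y) < (2 * c) ^ x' + (2 * c) ^ y' := by
  have h1 : (1 : ℝ) ≤ 2 * c := by linarith
  have a1 : (2 * c) ^ x ≤ (2 * c) ^ max x y := pow_le_pow_right₀ h1 (le_max_left _ _)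
  have a2 : (2 * c) ^ y ≤ (2 * c) ^ max x y := pow_le_pow_right₀ h1 (le_max_right _ _)
  have a3 : (2 * c) ^ (max x y + 1) ≤ (2 * c) ^ max x' y' := pow_le_pow_right₀ h1 h
  have a4 : (2 * c) ^ max x' y' < (2 * c) ^ x' + (2 * c) ^ y' := by
    have p1 : 0 < (2 * c) ^ x' := by positivity
    have p2 : 0 < (2 * c) ^ y' := by positivity
    rcases max_choice x' y' with e | e <;> rw [e] <;> linarith
  rw [pow_succ] at a3
  nlinarith

theorem paths3 {u v : S ⊕ M ⊕ T} {p : List (S ⊕ M ⊕ T)} (h : IsPath (E3 B) u v p) :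
    (p = [u] ∧ u = v) ∨ (p = [u, v] ∧ E3 B u v) ∨ ∃ s t, u = .inl s ∧ v = .inr (.inr t) := by
  obtain ⟨h1, -, h2, h3⟩ := h
  rcases p with _ | ⟨a, _ | ⟨b, _ | ⟨c, _ | ⟨d, r⟩⟩⟩⟩
  · simp at h2
  · simp only [List.head?_cons, Option.some.injEq, List.getLast?_singleton] at h2 h3
    exact .inl ⟨by rw [h2], h2.symm.trans h3⟩
  · simp only [List.head?_cons, Option.some.injEq, List.getLast?_cons_cons,
      List.getLast?_singleton] at h2 h3
    subst h2 h3
    exact .inr (.inl ⟨rfl, by simpa using h1⟩)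
  · simp only [List.head?_cons, Option.some.injEq, List.getLast?_cons_cons,
      List.getLast?_singleton] at h2 h3
    subst h2 h3
    simp only [List.isChain_cons_cons] at h1
    have e1 := lay3_lt h1.1
    have e2 := lay3_lt h1.2.1
    refine .inr (.inr ?_)
    rcases a with a | a | a <;> rcases c with c | c | c <;> simp only [lay3] at e1 e2 <;>
      first | omega | exact ⟨_, _, rfl, rfl⟩
  · simp only [List.isChain_cons_cons] at h1
    have e1 := lay3_lt h1.1
    have e2 := lay3_lt h1.2.1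
    have e3 := lay3_lt h1.2.2.1
    have e4 : lay3 d ≤ 2 := by rcases d with d | d | d <;> simp [lay3]
    omega

/-- The weights given by levels. -/
noncomputable def WL (c : ℝ) (L1 : S → M → ℕ) (L2 : M → T → ℕ) :
    S ⊕ M ⊕ T → S ⊕ M ⊕ T → ℝ :=
  W3 (fun s m => (2 * c) ^ L1 s m) (fun m t => (2 * c) ^ L2 m t)

theorem WL_pos {c : ℝ} (hc : 1 ≤ c) (L1 : S → M → ℕ) (L2 : M → T → ℕ) (u v : S ⊕ M ⊕ T) :
    0 < WL c L1 L2 u v := by
  have : 0 < 2 * c := by linarith
  rcases u with u | u | u <;> rcases v with v | v | v <;> simp only [WL, W3, zero_lt_one] <;>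
    positivity

theorem weight_nonneg {V : Type} {w : V → V → ℝ} (hw : ∀ u v, 0 ≤ w u v) (p : List V) :
    0 ≤ weight w p := by
  refine List.sum_nonneg fun x hx => ?_
  obtain ⟨i, hi, rfl⟩ := List.mem_iff_getElem.1 hx
  rw [List.getElem_zipWith]
  exact hw _ _

theorem self_valid {a b c : ℝ} (hc : 1 ≤ c) (hac : a ≤ c) (hb : 1 ≤ b) (L1 : S → M → ℕ)
    (L2 : M → T → ℕ)
    (sep : ∀ s t m m', B m t → B m' t → m ≠ m' →
      max (L1 s m) (L2 m t) ≠ max (L1 s m') (L2 m' t))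
    (u v : S ⊕ M ⊕ T) (p : List (S ⊕ M ⊕ T)) (hp : IsApprox a (E3 B) (WL c L1 L2) u v p) :
    IsApprox b (E3 B) (WL c L1 L2) u v p := by
  refine ⟨hp.1, fun q hq => ?_⟩
  have h0 := weight_nonneg (fun u v => (WL_pos hc L1 L2 u v).le) q
  suffices h : weight (WL c L1 L2) p ≤ weight (WL c L1 L2) q by nlinarith
  have three : (∃ s t, u = .inl s ∧ v = .inr (.inr t)) →
      weight (WL c L1 L2) p ≤ weight (WL c L1 L2) q := by
    rintro ⟨s, t, rfl, rfl⟩
    obtain ⟨m, hm, rfl⟩ := path3 hp.1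
    obtain ⟨m', hm', rfl⟩ := path3 hq
    by_cases e : m = m'
    · rw [e]
    have h2 := hp.2 _ hq
    simp only [weight_three, WL, W3] at h2 h0 ⊢
    rcases lt_or_gt_of_ne (sep s t m m' hm hm' e) with g | g
    · have g1 := gap hc g
      have : 0 < 2 * c := by linarith
      have p1 : 0 < (2 * c) ^ L1 s m + (2 * c) ^ L2 m t := by positivity
      nlinarith
    · have g1 := gap hc g
      nlinarith
  rcases paths3 hp.1 with ⟨e1, e2⟩ | ⟨e1, e2⟩ | e
  · rw [e1]
    simpa [weight] using h0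
  · rcases paths3 hq with ⟨-, f2⟩ | ⟨f1, -⟩ | f
    · rw [f2] at e2
      exact absurd (lay3_lt e2) (lt_irrefl _)
    · rw [e1, f1]
    · exact three f
  · exact three e

theorem key {a b c : ℝ} (hc : 1 ≤ c) (ha : 1 < a) (hbc : b ≤ c) {L1 : S → M → ℕ}
    {L2 : M → T → ℕ} {h : S ⊕ M ⊕ T → S ⊕ M ⊕ T → ℝ} (hh : ∀ u v, E3 B u v → 0 < h u v)
    (hv : ∀ s t p, IsApprox a (E3 B) h s t p → IsApprox b (E3 B) (WL c L1 L2) s t p)
    (s : S) (t : T) (m m' : M) (hm : B m t) (hm' : B m' t)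
    (two : ∀ z, B z t → z = m ∨ z = m')
    (g : max (L1 s m) (L2 m t) < max (L1 s m') (L2 m' t)) :
    a * (h (.inl s) (.inr (.inl m)) + h (.inr (.inl m)) (.inr (.inr t))) <
      h (.inl s) (.inr (.inl m')) + h (.inr (.inl m')) (.inr (.inr t)) := by
  by_contra hcon
  have p1 := hh (.inl s) (.inr (.inl m')) trivial
  have p2 := hh (.inr (.inl m')) (.inr (.inr t)) hm'
  have h1 : IsApprox a (E3 B) h (.inl s) (.inr (.inr t))
      [.inl s, .inr (.inl m'), .inr (.inr t)] := by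
    refine ⟨path_one s t m' hm', fun q hq => ?_⟩
    obtain ⟨z, hz, rfl⟩ := path3 hq
    simp only [weight_three]
    rcases two z hz with rfl | rfl
    · exact not_lt.1 hcon
    · nlinarith
  have h2 := (hv _ _ _ h1).2 _ (path_one s t m hm)
  simp only [weight_three, WL, W3] at h2
  have g1 := gap hc g
  have : 0 < 2 * c := by linarith
  have p3 : 0 < (2 * c) ^ L1 s m + (2 * c) ^ L2 m t := by positivity
  nlinarith

end Frame

section Growth

/-- The end of the run of row `i`. -/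
def ex (k i : ℕ) : ℕ := if Even i then k else 0

theorem pair {α μ x x' z z' y y' : ℝ} (hα : 1 < α) (hz : μ ≤ z') (hy : μ ≤ y') (hμ : 0 ≤ μ)
    (h1 : α * (x + y) < x' + y') (h2 : α * (z' + y') < z + y) :
    α * (x - z + 4 * μ) ≤ x' - z' + 4 * μ := by
  have h3 : α * (α * (z' + y')) ≤ α * (z + y) := mul_le_mul_of_nonneg_left h2.le (by linarith)
  have h4 : (α * α - 1) * (2 * μ) ≤ (α * α - 1) * (z' + y') :=
    mul_le_mul_of_nonneg_left (by linarith) (by nlinarith)
  have h5 : 0 ≤ (α - 1) * (α - 1) * μ := by positivity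
  nlinarith

variable {k : ℕ} {α ν : ℝ} {D : ℕ → ℕ → ℝ}

theorem run (hα : 0 ≤ α)
    (h1 : ∀ e o j, e < 2 * k → o < 2 * k → Even e → ¬Even o → j < k →
      α * (D e j - D o j + ν) ≤ D e (j + 1) - D o (j + 1) + ν)
    (h2 : ∀ e o j, e < 2 * k → o < 2 * k → Even e → ¬Even o → j < k →
      α * (D o (j + 1) - D e (j + 1) + ν) ≤ D o j - D e j + ν)
    (u d : ℕ) (hu : u < 2 * k) (hd : d < 2 * k) (hp : Even u ↔ ¬Even d) :
    α ^ k * (D u (ex k d) - D d (ex k d) + ν) ≤ D u (ex k u) - D d (ex k u) + ν := by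
  by_cases e : Even u
  · have o := hp.1 e
    have : ∀ j, j ≤ k → α ^ j * (D u 0 - D d 0 + ν) ≤ D u j - D d j + ν := by
      intro j
      induction j with
      | zero => simp
      | succ j ih =>
        intro hj
        have a1 := mul_le_mul_of_nonneg_left (ih (by omega)) hα
        have a2 := h1 u d j hu hd e o (by omega)
        rw [pow_succ]
        linarith
    simpa only [ex, if_pos e, if_neg o] using this k le_rfl
  · have o : Even d := by
      by_contra o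
      exact e (hp.2 o)
    have : ∀ j, j ≤ k → α ^ j * (D u j - D d j + ν) ≤ D u 0 - D d 0 + ν := by
      intro j
      induction j with
      | zero => simp
      | succ j ih =>
        intro hj
        have a1 := ih (by omega)
        have a2 := mul_le_mul_of_nonneg_left (h2 d u j hd hu o e (by omega)) (pow_nonneg hα j)
        rw [pow_succ]
        linarith
    simpa only [ex, if_pos o, if_neg e] using this k le_rfl

theorem grow (hα : 0 ≤ α)
    (h1 : ∀ e o j, e < 2 * k → o < 2 * k → Even e → ¬Even o → j < k →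
      α * (D e j - D o j + ν) ≤ D e (j + 1) - D o (j + 1) + ν)
    (h2 : ∀ e o j, e < 2 * k → o < 2 * k → Even e → ¬Even o → j < k →
      α * (D o (j + 1) - D e (j + 1) + ν) ≤ D o j - D e j + ν)
    (hL : ∀ x, x + 1 < 2 * k → D x (ex k x) ≤ D (x + 1) (ex k x)) (r : ℕ) :
    ∀ d, d + r + 1 = k → α ^ (k * (r + 1)) * ν ≤
      D (d + 2 * r + 1) (ex k (d + 2 * r + 1)) - D d (ex k (d + 2 * r + 1)) + ν := by
  have hk : 0 ≤ α ^ k := pow_nonneg hα k
  induction r with
  | zero =>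
    intro d hd
    have a1 := run hα h1 h2 (d + 1) d (by omega) (by omega) Nat.even_add_one
    have a2 := mul_le_mul_of_nonneg_left (hL d (by omega)) hk
    simp only [zero_add, mul_one, mul_zero, add_zero]
    linarith
  | succ r ih =>
    intro d hd
    have a0 := ih (d + 1) (by omega)
    have e1 : ex k (d + 1 + 2 * r + 1) = ex k d := by
      have : Even (d + 1 + 2 * r + 1) ↔ Even d := by
        simp only [Nat.even_iff]
        omega
      simp only [ex, this]
    have a1 := run hα h1 h2 (d + 2 * (r + 1) + 1) d (by omega) (by omega) (by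
      simp only [Nat.even_iff]
      omega)
    have a2 := hL d (by omega)
    have a3 := hL (d + 1 + 2 * r + 1) (by omega)
    rw [e1] at a0 a3
    rw [show d + 1 + 2 * r + 1 + 1 = d + 2 * (r + 1) + 1 by ring] at a3
    have a4 : α ^ (k * (r + 1)) * ν ≤ D (d + 2 * (r + 1) + 1) (ex k d) - D d (ex k d) + ν := by
      linarith
    have a5 := mul_le_mul_of_nonneg_left a4 hk
    rw [show k * (r + 1 + 1) = k + k * (r + 1) by ring, pow_add]
    linarith

end Growth

section Concrete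

variable (k r : ℕ)

/-- Sinks: columns of the two chains, links between consecutive rows, isolated vertices. -/
abbrev TT : Type := (Bool × Fin k) ⊕ Fin (2 * k) ⊕ Fin r

/-- The edges from the middle layer to the sinks. -/
def BB : Bool × Fin (k + 1) → TT k r → Prop
  | m, .inl c => m.1 = c.1 ∧ ((m.2 : ℕ) = c.2 ∨ (m.2 : ℕ) = c.2 + 1)
  | m, .inr (.inl x) => (m.2 : ℕ) = ex k x
  | _, .inr (.inr _) => False

/-- Levels of the edges that leave a row. -/
def l1 (i : ℕ) (σ : Bool) (j : ℕ) : ℕ :=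
  if σ then k + 2 + i * (k + 2) + (if Even i then j else k - j)
  else 1 + (if Even i then k - j else j)

/-- Levels of the edges that leave a row. -/
def L1 (i : Fin (2 * k)) (m : Bool × Fin (k + 1)) : ℕ := l1 k i m.1 m.2

/-- Levels of the edges that enter a sink. -/
def L2 : Bool × Fin (k + 1) → TT k r → ℕ
  | m, .inr (.inl x) => if m.1 then 0 else k + 2 + x * (k + 2) + (k + 1)
  | _, _ => 0

theorem ex_lt (x : ℕ) : ex k x < k + 1 := by
  unfold ex
  split_ifs <;> omega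

theorem sep (s : Fin (2 * k)) (t : TT k r) (m m' : Bool × Fin (k + 1)) (hm : BB k r m t)
    (hm' : BB k r m' t) (hne : m ≠ m') :
    max (L1 k s m) (L2 k r m t) ≠ max (L1 k s m') (L2 k r m' t) := by
  obtain ⟨σ, j⟩ := m
  obtain ⟨σ', j'⟩ := m'
  have b1 := j.2
  have b2 := j'.2
  rcases t with c | x | x
  · obtain ⟨e1, -⟩ := hm
    obtain ⟨e2, -⟩ := hm'
    have e : σ' = σ := e2.trans e1.symm
    subst e
    have hj : (j : ℕ) ≠ j' := fun h => hne (by rw [Fin.ext h])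
    simp only [L1, L2, l1, Nat.max_zero]
    split_ifs <;> omega
  · have e : j' = j := Fin.ext (hm'.trans hm.symm)
    subst e
    have hx : (s : ℕ) * (k + 2) ≤ x * (k + 2) ∨ x * (k + 2) + (k + 2) ≤ s * (k + 2) := by
      rcases le_or_gt (s : ℕ) x with h | h
      · exact .inl (Nat.mul_le_mul_right _ h)
      · exact .inr (by simpa only [Nat.succ_mul] using Nat.mul_le_mul_right (k + 2) h)
    cases σ <;> cases σ' <;> simp only [ne_eq, not_true_eq_false] at hne <;>
      simp only [L1, L2, l1, Bool.false_eq_true, if_false, if_true] <;> split_ifs <;> omega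
  · exact hm.elim

variable {k r}

theorem two_col (σ : Bool) {j : ℕ} (hj : j < k) (z : Bool × Fin (k + 1))
    (hz : BB k r z (.inl (σ, ⟨j, hj⟩))) :
    z = (σ, ⟨j, by omega⟩) ∨ z = (σ, ⟨j + 1, by omega⟩) := by
  obtain ⟨τ, i⟩ := z
  obtain ⟨rfl, e | e⟩ := hz
  · exact .inl (Prod.ext rfl (Fin.ext e))
  · exact .inr (Prod.ext rfl (Fin.ext e))

theorem two_link (x : Fin (2 * k)) (z : Bool × Fin (k + 1)) (hz : BB k r z (.inr (.inl x))) :
    z = (true, ⟨ex k x, ex_lt k x⟩) ∨ z = (false, ⟨ex k x, ex_lt k x⟩) := by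
  obtain ⟨τ, i⟩ := z
  cases τ
  · exact .inr (Prod.ext rfl (Fin.ext hz))
  · exact .inl (Prod.ext rfl (Fin.ext hz))

theorem big {a μ : ℝ} (hk : 1 ≤ k) (ha : 1 < a) (hμ : 0 < μ)
    (X : Fin (2 * k) → Bool × Fin (k + 1) → ℝ) (Y : Bool × Fin (k + 1) → TT k r → ℝ)
    (hX : ∀ s m, μ ≤ X s m) (hY : ∀ m t, BB k r m t → μ ≤ Y m t)
    (H : ∀ s t m m', BB k r m t → BB k r m' t → (∀ z, BB k r z t → z = m ∨ z = m') →
      max (L1 k s m) (L2 k r m t) < max (L1 k s m') (L2 k r m' t) →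
      a * (X s m + Y m t) < X s m' + Y m' t) :
    ∃ s m, a ^ (k * k) * μ < X s m := by
  by_contra hcon
  have hU : ∀ s m, X s m ≤ a ^ (k * k) * μ := fun s m => not_lt.1 fun h => hcon ⟨s, m, h⟩
  have inc : ∀ (σ : Bool) (i : ℕ) (hi : i < 2 * k) (j : ℕ) (hj : j < k),
      (σ = true ↔ Even i) →
      a * (X ⟨i, hi⟩ (σ, ⟨j, by omega⟩) + Y (σ, ⟨j, by omega⟩) (.inl (σ, ⟨j, hj⟩))) <
        X ⟨i, hi⟩ (σ, ⟨j + 1, by omega⟩) + Y (σ, ⟨j + 1, by omega⟩) (.inl (σ, ⟨j, hj⟩)) := by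
    intro σ i hi j hj hσ
    refine H _ _ _ _ ⟨rfl, .inl rfl⟩ ⟨rfl, .inr rfl⟩ (two_col σ hj) ?_
    simp only [L1, L2, l1, Nat.max_zero]
    split_ifs with h1 h2 h2
    · omega
    · exact absurd (hσ.1 h1) h2
    · exact absurd (hσ.2 h2) h1
    · omega
  have dec : ∀ (σ : Bool) (i : ℕ) (hi : i < 2 * k) (j : ℕ) (hj : j < k),
      (σ = true ↔ ¬Even i) →
      a * (X ⟨i, hi⟩ (σ, ⟨j + 1, by omega⟩) + Y (σ, ⟨j + 1, by omega⟩) (.inl (σ, ⟨j, hj⟩))) <
        X ⟨i, hi⟩ (σ, ⟨j, by omega⟩) + Y (σ, ⟨j, by omega⟩) (.inl (σ, ⟨j, hj⟩)) := by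
    intro σ i hi j hj hσ
    refine H _ _ _ _ ⟨rfl, .inr rfl⟩ ⟨rfl, .inl rfl⟩ (fun z hz => (two_col σ hj z hz).symm) ?_
    simp only [L1, L2, l1, Nat.max_zero]
    split_ifs with h1 h2 h2
    · exact absurd h2 (hσ.1 h1)
    · omega
    · omega
    · exact absurd (hσ.2 h2) h1
  have hY0 : ∀ (σ : Bool) (j : ℕ) (hj : j < k),
      μ ≤ Y (σ, ⟨j, by omega⟩) (.inl (σ, ⟨j, hj⟩)) := fun σ j hj => hY _ _ ⟨rfl, .inl rfl⟩
  have hY1 : ∀ (σ : Bool) (j : ℕ) (hj : j < k),
      μ ≤ Y (σ, ⟨j + 1, by omega⟩) (.inl (σ, ⟨j, hj⟩)) := fun σ j hj => hY _ _ ⟨rfl, .inr rfl⟩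
  let D : ℕ → ℕ → ℝ := fun i j => if h : i < 2 * k ∧ j < k + 1 then
    X ⟨i, h.1⟩ (true, ⟨j, h.2⟩) - X ⟨i, h.1⟩ (false, ⟨j, h.2⟩) else 0
  have hD : ∀ (i : ℕ) (hi : i < 2 * k) (j : ℕ) (hj : j < k + 1),
      D i j = X ⟨i, hi⟩ (true, ⟨j, hj⟩) - X ⟨i, hi⟩ (false, ⟨j, hj⟩) :=
    fun i hi j hj => dif_pos ⟨hi, hj⟩
  have G := grow (k := k) (α := a) (ν := 8 * μ) (D := D) (by linarith) (by
      intro e o j he ho ee oo hj
      rw [hD e he j (by omega), hD o ho j (by omega), hD e he (j + 1) (by omega),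
        hD o ho (j + 1) (by omega)]
      have a1 := pair ha (hX _ _) (hY1 _ j hj) hμ.le
        (inc true e he j hj (by simpa using ee)) (dec true o ho j hj (by simpa using oo))
      have a2 := pair ha (hX _ _) (hY1 _ j hj) hμ.le
        (inc false o ho j hj (by simpa using oo)) (dec false e he j hj (by simpa using ee))
      linarith) (by
      intro e o j he ho ee oo hj
      rw [hD e he j (by omega), hD o ho j (by omega), hD e he (j + 1) (by omega),
        hD o ho (j + 1) (by omega)]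
      have a1 := pair ha (hX _ _) (hY0 _ j hj) hμ.le
        (dec true o ho j hj (by simpa using oo)) (inc true e he j hj (by simpa using ee))
      have a2 := pair ha (hX _ _) (hY0 _ j hj) hμ.le
        (dec false e he j hj (by simpa using ee)) (inc false o ho j hj (by simpa using oo))
      linarith) (by
      intro x hx
      have hx' : x < 2 * k := by omega
      have hl := ex_lt k x
      rw [hD x hx' _ hl, hD (x + 1) hx _ hl]
      have a1 := H ⟨x, hx'⟩ (.inr (.inl ⟨x, hx'⟩)) (true, ⟨ex k x, hl⟩) (false, ⟨ex k x, hl⟩)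
        rfl rfl (two_link ⟨x, hx'⟩) (by
          simp only [L1, L2, l1, Bool.false_eq_true, if_false, if_true]
          split_ifs <;> omega)
      have a2 := H ⟨x + 1, hx⟩ (.inr (.inl ⟨x, hx'⟩)) (false, ⟨ex k x, hl⟩) (true, ⟨ex k x, hl⟩)
        rfl rfl (fun z hz => (two_link ⟨x, hx'⟩ z hz).symm) (by
          simp only [L1, L2, l1, Bool.false_eq_true, if_false, if_true, Nat.succ_mul]
          split_ifs <;> omega)
      have b1 := hX ⟨x, hx'⟩ (true, ⟨ex k x, hl⟩)
      have b2 := hX ⟨x + 1, hx⟩ (false, ⟨ex k x, hl⟩)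
      have b3 := hY (true, ⟨ex k x, hl⟩) (.inr (.inl ⟨x, hx'⟩)) rfl
      have b4 := hY (false, ⟨ex k x, hl⟩) (.inr (.inl ⟨x, hx'⟩)) rfl
      nlinarith) (k - 1) 0 (by omega)
  have hu : 0 + 2 * (k - 1) + 1 < 2 * k := by omega
  rw [hD _ hu _ (ex_lt k _), hD 0 (by omega) _ (ex_lt k _), show k - 1 + 1 = k by omega] at G
  have c1 := hU ⟨_, hu⟩ (true, ⟨_, ex_lt k (0 + 2 * (k - 1) + 1)⟩)
  have c2 := hX ⟨_, hu⟩ (false, ⟨_, ex_lt k (0 + 2 * (k - 1) + 1)⟩)
  have c3 := hX ⟨0, by omega⟩ (true, ⟨_, ex_lt k (0 + 2 * (k - 1) + 1)⟩)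
  have c4 := hU ⟨0, by omega⟩ (false, ⟨_, ex_lt k (0 + 2 * (k - 1) + 1)⟩)
  have c5 : 1 < a ^ (k * k) := one_lt_pow₀ ha (by positivity)
  nlinarith

end Concrete

theorem main (a b : ℝ) (ha : 1 < a) (hb : 1 ≤ b) (n : ℕ) (hn : 10 ≤ n) :
    ∃ (V : Type) (_ : Fintype V) (E : V → V → Prop) (w : V → V → ℝ),
      Fintype.card V = n ∧ (∀ v, ¬Relation.TransGen E v v) ∧ (∀ u v, E u v → 0 < w u v) ∧
      (∀ s t p, IsApprox a E w s t p → IsApprox b E w s t p) ∧
      ∀ h : V → V → ℝ, (∀ u v, E u v → 0 < h u v) →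
        (∀ s t p, IsApprox a E h s t p → IsApprox b E w s t p) →
        ∃ u v x y, E u v ∧ E x y ∧ a ^ (((n - 2) / 8) ^ 2) * h x y < h u v := by
  classical
  set k := (n - 2) / 8 with hk
  set r := n - (8 * k + 2) with hr
  have hc : 1 ≤ max a b := hb.trans (le_max_right a b)
  refine ⟨Fin (2 * k) ⊕ (Bool × Fin (k + 1)) ⊕ TT k r, inferInstance, E3 (BB k r),
    WL (max a b) (L1 k) (L2 k r), ?_, acyclic3, fun u v _ => WL_pos hc _ _ u v,
    self_valid hc (le_max_left a b) hb _ _ (sep k r), fun h hh hv => ?_⟩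
  · simp only [Fintype.card_sum, Fintype.card_prod, Fintype.card_fin, Fintype.card_bool]
    omega
  · obtain ⟨e, he, hmin⟩ := Finset.exists_min_image
      (Finset.univ.filter fun e : _ × _ => E3 (BB k r) e.1 e.2) (fun e => h e.1 e.2)
      ⟨(.inl ⟨0, by omega⟩, .inr (.inl (true, 0))), by simp [E3]⟩
    have he' : E3 (BB k r) e.1 e.2 := by simpa using he
    have hm : ∀ u v, E3 (BB k r) u v → h e.1 e.2 ≤ h u v :=
      fun u v huv => hmin (u, v) (by simpa using huv)
    obtain ⟨s, m, hs⟩ := big (k := k) (r := r) (by omega) ha (hh _ _ he')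
      (fun s m => h (.inl s) (.inr (.inl m))) (fun m t => h (.inr (.inl m)) (.inr (.inr t)))
      (fun s m => hm _ _ trivial) (fun m t hB => hm _ _ hB)
      (fun s t m m' h1 h2 h3 h4 => key hc ha (le_max_right a b) hh hv s t m m' h1 h2 h3 h4)
    exact ⟨.inl s, .inr (.inl m), e.1, e.2, trivial, he', by rw [sq]; exact hs⟩

end Pool.Agent.P.MP_546b07_lc.TLow
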