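import Pool.Agent.P.MP_546b07_lc.TDefs

set_option autoImplicit false

namespace Pool.Agent.P.MP_546b07_lc.TUp

open Finset

section Core

variable {ι : Type} [DecidableEq ι] {w : ι → ℝ} {a b C μ : ℝ}

/-- On subsets of `s`, a gap by the factor `b` for `w` gives a gap by the factor `a` for `h`. -/
def Good (a b : ℝ) (w h : ι → ℝ) (s : Finset ι) : Prop :=
  ∀ P Q, P ⊆ s → Q ⊆ s → b * ∑ e ∈ P, w e < ∑ e ∈ Q, w e → a * ∑ e ∈ P, h e < ∑ e ∈ Q, h e

theorem good_top (ha : 0 ≤ a) (hab : a < b) (hC : a < C) (hC2 : 1 + a ≤ C * (b - a))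
    (hw : ∀ e, 0 < w e) {h : ι → ℝ} {lam θ : ℝ} {s L : Finset ι} (hl : 0 < lam) (hLs : L ⊆ s)
    (h0 : ∀ e ∈ s, 0 < h e) (h1 : ∀ e ∈ s, lam * w e ≤ h e)
    (h2 : ∀ e ∈ s, e ∉ L → h e = lam * w e ∧ θ ≤ w e) (h3 : C * ∑ e ∈ L, h e ≤ lam * θ)
    (hG : Good a b w h L) : Good a b w h s := by
  intro P Q hP hQ hlt
  have split : ∀ (f : ι → ℝ) (R : Finset ι),
      ∑ e ∈ R, f e = ∑ e ∈ R ∩ L, f e + ∑ e ∈ R \ L, f e :=
    fun f R => (sum_inter_add_sum_sdiff R L f).symm
  have top : ∀ R, R ⊆ s → ∑ e ∈ R \ L, h e = lam * ∑ e ∈ R \ L, w e := fun R hR => by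
    rw [mul_sum]
    exact sum_congr rfl fun e he => (h2 e (hR (mem_sdiff.1 he).1) (mem_sdiff.1 he).2).1
  have lowh : ∀ R, ∑ e ∈ R ∩ L, h e ≤ ∑ e ∈ L, h e := fun R =>
    sum_le_sum_of_subset_of_nonneg inter_subset_right fun e he _ => (h0 e (hLs he)).le
  have loww : ∀ R, ∑ e ∈ R ∩ L, w e ≤ ∑ e ∈ L, w e := fun R =>
    sum_le_sum_of_subset_of_nonneg inter_subset_right fun e _ _ => (hw e).le
  have lowh0 : ∀ R, 0 ≤ ∑ e ∈ R ∩ L, h e := fun R =>
    sum_nonneg fun e he => (h0 e (hLs (mem_inter.1 he).2)).le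
  have loww0 : ∀ R, 0 ≤ ∑ e ∈ R ∩ L, w e := fun R => sum_nonneg fun e _ => (hw e).le
  have big : ∀ R, R ⊆ s → (R \ L).Nonempty → θ ≤ ∑ e ∈ R \ L, w e ∧ 0 < ∑ e ∈ R \ L, w e := by
    rintro R hR ⟨e, he⟩
    have := single_le_sum (f := w) (fun e _ => (hw e).le) he
    exact ⟨(h2 e (hR (mem_sdiff.1 he).1) (mem_sdiff.1 he).2).2.trans this, (hw e).trans_le this⟩
  have hS : lam * ∑ e ∈ L, w e ≤ ∑ e ∈ L, h e := by
    rw [mul_sum]
    exact sum_le_sum fun e he => h1 e (hLs he)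
  have hS0 : 0 ≤ ∑ e ∈ L, h e := sum_nonneg fun e he => (h0 e (hLs he)).le
  rcases (P \ L).eq_empty_or_nonempty with eP | nP
  · rcases (Q \ L).eq_empty_or_nonempty with eQ | nQ
    · exact hG P Q (sdiff_eq_empty_iff_subset.1 eP) (sdiff_eq_empty_iff_subset.1 eQ) hlt
    · obtain ⟨b1, b2⟩ := big Q hQ nQ
      rw [split h P, split h Q, top Q hQ, eP, sum_empty, add_zero]
      have c1 := lowh P
      have c2 := lowh0 Q
      have c3 := mul_le_mul_of_nonneg_left b1 hl.le
      have c4 := mul_pos hl b2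
      rcases (lowh0 P).eq_or_lt with e | e
      · rw [← e]
        linarith
      · have c5 := mul_lt_mul_of_pos_right hC e
        have c6 := mul_le_mul_of_nonneg_left c1 (ha.trans hC.le)
        linarith
  · obtain ⟨b1, -⟩ := big P hP nP
    rw [split w P, split w Q] at hlt
    rw [split h P, split h Q, top P hP, top Q hQ]
    have c1 := mul_le_mul_of_nonneg_left (lowh P) ha
    have c2 := lowh0 Q
    have c3 := mul_le_mul_of_nonneg_left (loww Q) hl.le
    have c4 := mul_nonneg hl.le (mul_nonneg (ha.trans hab.le) (loww0 P))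
    have c5 := mul_lt_mul_of_pos_left hlt hl
    have c6 := mul_le_mul_of_nonneg_right hC2 hS0
    have c7 := mul_le_mul_of_nonneg_left h3 (sub_nonneg.2 hab.le)
    have c8 := mul_le_mul_of_nonneg_left (mul_le_mul_of_nonneg_left b1 hl.le)
      (sub_nonneg.2 hab.le)
    linarith

omit [DecidableEq ι] in
theorem good_congr {h h' : ι → ℝ} {L : Finset ι} (e : ∀ x ∈ L, h' x = h x)
    (hG : Good a b w h L) : Good a b w h' L := by
  intro P Q hP hQ hlt
  rw [sum_congr rfl fun x hx => e x (hP hx), sum_congr rfl fun x hx => e x (hQ hx)]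
  exact hG P Q hP hQ hlt

theorem core (ha : 0 ≤ a) (hab : a < b) (hC : a < C) (hC1 : 1 ≤ C) (hC2 : 1 + a ≤ C * (b - a))
    (hμ : 0 < μ) (hw : ∀ e, μ ≤ w e) (s : Finset ι) :
    ∃ (h : ι → ℝ) (lam θ : ℝ) (L : Finset ι), 0 < lam ∧ L ⊆ s ∧ (∀ e ∈ s, μ ≤ h e) ∧
      (∀ e ∈ s, lam * w e ≤ h e) ∧ (∀ e ∈ s, e ∉ L → h e = lam * w e ∧ θ ≤ w e) ∧
      C * ∑ e ∈ L, h e ≤ lam * θ ∧ Good a b w h L ∧
      ∑ e ∈ s, h e + μ ≤ (1 + C) ^ s.card * μ ∧
      ∀ x, (∀ e ∈ s, w e ≤ w x) → θ ≤ w x ∧ μ ≤ lam * w x := by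
  have hw0 : ∀ e, 0 < w e := fun e => hμ.trans_le (hw e)
  induction s using Finset.induction_on_max_value w with
  | empty =>
    refine ⟨w, 1, 0, ∅, one_pos, Subset.rfl, by simp, by simp, by simp, by simp, ?_, by simp,
      fun x _ => ⟨(hw0 x).le, by simpa using hw x⟩⟩
    intro P Q hP hQ hlt
    rw [subset_empty.1 hP, subset_empty.1 hQ] at hlt
    simp at hlt
  | insert x s hx hmax ih =>
    obtain ⟨h, lam, θ, L, hl, hLs, h0, h1, h2, h3, hG, h4, h5⟩ := ih
    have hS0 : 0 ≤ ∑ e ∈ s, h e := sum_nonneg fun e he => hμ.le.trans (h0 e he)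
    have upd : ∀ (v : ℝ) (e : ι), e ∈ s → Function.update h x v e = h e :=
      fun v e he => Function.update_of_ne (ne_of_mem_of_not_mem he hx) v h
    have hsum : ∀ v : ℝ, v ≤ C * (∑ e ∈ s, h e + μ) →
        ∑ e ∈ insert x s, Function.update h x v e + μ ≤ (1 + C) ^ (insert x s).card * μ := by
      intro v hv
      rw [sum_insert hx, Function.update_self, sum_congr rfl (upd v), card_insert_of_notMem hx,
        pow_succ]
      have := mul_le_mul_of_nonneg_left h4 (by linarith : 0 ≤ 1 + C)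
      linarith
    by_cases g : lam * w x ≤ C * (∑ e ∈ s, h e + μ)
    · refine ⟨Function.update h x (lam * w x), lam, θ, L, hl, hLs.trans (subset_insert x s),
        ?_, ?_, ?_, ?_, good_congr (fun e he => upd _ e (hLs he)) hG, hsum _ g,
        fun y hy => h5 y fun e he => hy e (mem_insert_of_mem he)⟩
      · rw [forall_mem_insert, Function.update_self]
        exact ⟨(h5 x hmax).2, fun e he => upd _ e he ▸ h0 e he⟩
      · rw [forall_mem_insert, Function.update_self]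
        exact ⟨le_rfl, fun e he => upd _ e he ▸ h1 e he⟩
      · rw [forall_mem_insert, Function.update_self]
        exact ⟨fun _ => ⟨rfl, (h5 x hmax).1⟩, fun e he => upd _ e he ▸ h2 e he⟩
      · rw [sum_congr rfl fun e he => upd _ e (hLs he)]
        exact h3
    · set v := C * (∑ e ∈ s, h e + μ) with hv
      have hv1 : μ ≤ v := by nlinarith
      have hx0 := hw0 x
      have e1 : v / w x * w x = v := div_mul_cancel₀ v hx0.ne'
      have hl' : 0 < v / w x := div_pos (hμ.trans_le hv1) hx0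
      have hle : v / w x ≤ lam := (div_le_iff₀ hx0).2 (not_le.1 g).le
      refine ⟨Function.update h x v, v / w x, w x, s, hl', subset_insert x s, ?_, ?_, ?_, ?_,
        good_congr (upd v) (good_top ha hab hC hC2 hw0 hl hLs
          (fun e he => hμ.trans_le (h0 e he)) h1 h2 h3 hG), hsum v le_rfl, fun y hy => ?_⟩
      · rw [forall_mem_insert, Function.update_self]
        exact ⟨hv1, fun e he => upd _ e he ▸ h0 e he⟩
      · rw [forall_mem_insert, Function.update_self]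
        refine ⟨e1.le, fun e he => ?_⟩
        rw [upd _ e he]
        exact (mul_le_mul_of_nonneg_right hle (hw0 e).le).trans (h1 e he)
      · rw [forall_mem_insert, Function.update_self]
        exact ⟨fun _ => ⟨e1.symm, le_rfl⟩, fun e he he' => absurd he he'⟩
      · rw [sum_congr rfl (upd v), e1, hv]
        nlinarith
      · have := hy x (mem_insert_self x s)
        exact ⟨this, hv1.trans (e1.symm.le.trans (mul_le_mul_of_nonneg_left this hl'.le))⟩

end Core

variable {V : Type}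

theorem nodup_zip (l : List V) (hl : l.Nodup) (l' : List V) : (l.zip l').Nodup := by
  induction l generalizing l' with
  | nil => simp
  | cons a l ih =>
    rcases l' with _ | ⟨b, l'⟩
    · simp
    · rw [List.zip_cons_cons, List.nodup_cons]
      exact ⟨fun h => (List.nodup_cons.1 hl).1 (List.of_mem_zip h).1,
        ih (List.nodup_cons.1 hl).2 l'⟩

theorem weight_sum [DecidableEq V] (f : V × V → ℝ) {p : List V} (hp : p.Nodup) :
    weight (fun u v => f (u, v)) p = ∑ e ∈ (p.zip p.tail).toFinset, f e := by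
  rw [List.sum_toFinset f (nodup_zip p hp _), weight, ← List.map_uncurry_zip_eq_zipWith]
  rfl

theorem weight_congr {E : V → V → Prop} {f g : V → V → ℝ} (e : ∀ u v, E u v → f u v = g u v)
    (p : List V) (hp : p.IsChain E) : weight f p = weight g p := by
  induction p with
  | nil => rfl
  | cons a l ih =>
    rcases l with _ | ⟨b, l⟩
    · rfl
    · rw [List.isChain_cons_cons] at hp
      have := ih hp.2
      simp only [weight, List.tail_cons, List.zipWith_cons_cons, List.sum_cons] at this ⊢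
      rw [e a b hp.1, this]

theorem core_int {ι : Type} [Fintype ι] {a b : ℝ} (ha : 0 ≤ a) (hab : a < b) (w : ι → ℝ)
    (hw : ∀ e, 0 < w e) :
    ∃ h : ι → ℕ, (∀ e, 1 ≤ h e ∧
      (h e : ℝ) ≤ (2 + b + 2 * (1 + b) / (b - a)) ^ (Fintype.card ι + 1)) ∧
      Good a b w (fun e => (h e : ℝ)) univ := by
  classical
  obtain ⟨μ, hμ, hm⟩ : ∃ μ : ℝ, 0 < μ ∧ ∀ e, μ ≤ w e := by
    rcases isEmpty_or_nonempty ι with h | h
    · exact ⟨1, one_pos, fun e => isEmptyElim e⟩
    · obtain ⟨e, he⟩ := Finite.exists_min w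
      exact ⟨w e, hw e, he⟩
  have hba : 0 < b - a := sub_pos.2 hab
  have hb : 0 < b := ha.trans_lt hab
  set N := 2 * (1 + b) / (b - a) with hN
  have hN0 : 0 < N := by positivity
  have hN1 : N * (b - a) = 2 * (1 + b) := div_mul_cancel₀ _ hba.ne'
  have ha' : 0 ≤ (a + b) / 2 := by linarith
  have hab' : (a + b) / 2 < b := by linarith
  have hC : (a + b) / 2 < 1 + b + N := by linarith
  have hC2 : 1 + (a + b) / 2 ≤ (1 + b + N) * (b - (a + b) / 2) := by nlinarith
  obtain ⟨h, lam, θ, L, hl, hLs, h0, h1, h2, h3, hG, h4, -⟩ :=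
    core ha' hab' hC (by linarith) hC2 hμ hm (univ : Finset ι)
  have hp : ∀ e, 0 < h e := fun e => hμ.trans_le (h0 e (mem_univ e))
  have G := good_top ha' hab' hC hC2 hw hl hLs (fun e _ => hp e) h1 h2 h3 hG
  have lo : ∀ e, N / μ * h e ≤ (⌈N / μ * h e⌉₊ : ℝ) := fun e => Nat.le_ceil _
  have hi : ∀ e, (⌈N / μ * h e⌉₊ : ℝ) ≤ (N + 1) / μ * h e := fun e => by
    have a1 := Nat.ceil_lt_add_one (mul_pos (div_pos hN0 hμ) (hp e)).le
    have a2 : 1 ≤ 1 / μ * h e := by
      rw [one_div, inv_mul_eq_div, one_le_div hμ]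
      exact h0 e (mem_univ e)
    rw [add_div, add_mul]
    linarith
  refine ⟨fun e => ⌈N / μ * h e⌉₊, fun e =>
    ⟨Nat.ceil_pos.2 (mul_pos (div_pos hN0 hμ) (hp e)), (hi e).trans ?_⟩, fun P Q hP hQ hlt => ?_⟩
  · have c1 := single_le_sum (f := h) (fun e _ => (hp e).le) (mem_univ e)
    rw [card_univ, show 1 + (1 + b + N) = 2 + b + N by ring] at h4
    have c2 : h e / μ ≤ (2 + b + N) ^ Fintype.card ι := (div_le_iff₀ hμ).2 (by linarith)
    rw [pow_succ', show (N + 1) / μ * h e = (N + 1) * (h e / μ) by ring]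
    exact mul_le_mul (by linarith) c2 (div_pos (hp e) hμ).le (by linarith)
  · have c1 := mul_lt_mul_of_pos_left (G P Q hP hQ hlt) (div_pos hN0 hμ)
    have c2 := sum_le_sum fun e (_ : e ∈ Q) => lo e
    have c3 := mul_le_mul_of_nonneg_left (sum_le_sum fun e (_ : e ∈ P) => hi e) ha
    rw [← mul_sum] at c2 c3
    have c4 : 0 ≤ (∑ e ∈ P, h e) / μ := div_nonneg (sum_nonneg fun e _ => (hp e).le) hμ.le
    have c5 : a * (N + 1) ≤ N * ((a + b) / 2) := by nlinarith
    have c6 := mul_le_mul_of_nonneg_right c5 c4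
    have c7 : a * ((N + 1) / μ * ∑ e ∈ P, h e) = a * (N + 1) * ((∑ e ∈ P, h e) / μ) := by ring
    have c8 : N / μ * ((a + b) / 2 * ∑ e ∈ P, h e) =
        N * ((a + b) / 2) * ((∑ e ∈ P, h e) / μ) := by ring
    beta_reduce
    linarith

theorem main (a b : ℝ) (ha : 0 ≤ a) (hab : a < b) [Fintype V] (E : V → V → Prop)
    (w : V → V → ℝ) (hw : ∀ u v, E u v → 0 < w u v) :
    ∃ h : V → V → ℕ, (∀ u v, E u v → 1 ≤ h u v ∧
        (h u v : ℝ) ≤ (2 + b + 2 * (1 + b) / (b - a)) ^ (Fintype.card V ^ 2 + 1)) ∧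
      ∀ s t p, IsApprox a E (fun u v => (h u v : ℝ)) s t p → IsApprox b E w s t p := by
  classical
  let w' : V × V → ℝ := fun e => if E e.1 e.2 then w e.1 e.2 else 1
  have hw' : ∀ e, 0 < w' e := fun e => by
    simp only [w']
    split_ifs with h
    · exact hw _ _ h
    · exact one_pos
  obtain ⟨h, h1, G⟩ := core_int ha hab w' hw'
  rw [Fintype.card_prod, ← sq] at h1
  refine ⟨fun u v => h (u, v), fun u v _ => h1 _, fun s t p hA => ⟨hA.1, fun q hq => ?_⟩⟩
  have e : ∀ u v, E u v → w u v = w' (u, v) := fun u v huv => (if_pos huv).symm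
  rw [weight_congr e p hA.1.1, weight_congr e q hq.1, weight_sum w' hA.1.2.1,
    weight_sum w' hq.2.1]
  have := hA.2 q hq
  rw [weight_sum (fun e => (h e : ℝ)) hA.1.2.1, weight_sum (fun e => (h e : ℝ)) hq.2.1] at this
  exact not_lt.1 fun hlt => absurd (G _ _ (subset_univ _) (subset_univ _) hlt) (not_lt.2 this)

end Pool.Agent.P.MP_546b07_lc.TUp
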