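import Mathlib

set_option autoImplicit false

namespace Pool.Agent.P.MP_546b07_lc.Tw

section Local

/-- A monotone function with values at most one that vanishes at zero. -/
def Adm (f : ℝ → ℤ) : Prop := Monotone f ∧ f 0 = 0 ∧ ∀ t, f t ≤ 1

/-- The three functions respect the slack relation of a triangle. -/
def Compat (k : ℝ) (f1 f2 f3 : ℝ → ℤ) (κ : ℤ) : Prop :=
  ∀ a b c : ℝ, 0 ≤ a → 0 ≤ b → 0 ≤ c → a + b - c = k → (a = 0 ∨ b = 0 ∨ c = 0) →
    f1 a + f2 b - f3 c = κ

theorem Adm.nonneg {f : ℝ → ℤ} (h : Adm f) {t : ℝ} (ht : 0 ≤ t) : 0 ≤ f t := h.2.1 ▸ h.1 ht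

theorem adm_zero : Adm 0 := ⟨monotone_const, rfl, fun _ => zero_le_one⟩

theorem adm_gt {x : ℝ} (hx : 0 ≤ x) : Adm fun t => if x < t then 1 else 0 := by
  refine ⟨fun a b h => ?_, if_neg (not_lt.2 hx), fun t => by beta_reduce; split_ifs <;> omega⟩
  beta_reduce
  split_ifs with h1 h2
  · exact le_rfl
  · exact absurd (h1.trans_le h) h2
  · omega
  · omega

theorem adm_ge {x : ℝ} (hx : 0 < x) : Adm fun t => if x ≤ t then 1 else 0 := by
  refine ⟨fun a b h => ?_, if_neg (not_le.2 hx), fun t => by beta_reduce; split_ifs <;> omega⟩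
  beta_reduce
  split_ifs with h1 h2
  · exact le_rfl
  · exact absurd (h1.trans h) h2
  · omega
  · omega

theorem Compat.swap {k : ℝ} {f1 f2 f3 : ℝ → ℤ} {κ : ℤ} (h : Compat k f1 f2 f3 κ) :
    Compat k f2 f1 f3 κ := by
  intro a b c ha hb hc e z
  have := h b a c hb ha hc (by linarith) (by tauto)
  omega

/-- The function on the old edge extends to the two new edges. -/
def Ext (R : (ℝ → ℤ) → (ℝ → ℤ) → (ℝ → ℤ) → ℤ → Prop) (f : ℝ → ℤ)
    (P : (ℝ → ℤ) → (ℝ → ℤ) → Prop) : Prop :=
  ∃ g g' κ, Adm g ∧ Adm g' ∧ |κ| ≤ 1 ∧ R f g g' κ ∧ P g g'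

/-- A demand on the new edges is met at once or moved to the old edge. -/
def Push (R : (ℝ → ℤ) → (ℝ → ℤ) → (ℝ → ℤ) → ℤ → Prop)
    (P : (ℝ → ℤ) → (ℝ → ℤ) → Prop) : Prop :=
  Ext R 0 P ∨ ∃ x y : ℝ, 0 ≤ x ∧ x < y ∧ ∀ f, Adm f → f x < f y → Ext R f P

/-- The local extension property. -/
def Loc (R : (ℝ → ℤ) → (ℝ → ℤ) → (ℝ → ℤ) → ℤ → Prop) : Prop :=
  (∀ f, Adm f → Ext R f fun _ _ => True) ∧ ∀ x y : ℝ, 0 ≤ x → x < y →
    Push R (fun g _ => g x < g y) ∧ Push R fun _ g => g x < g y

theorem ext1 {k : ℝ} (hk : 0 ≤ k) {f : ℝ → ℤ} (hf : Adm f) {P : (ℝ → ℤ) → (ℝ → ℤ) → Prop}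
    (hP : P (fun t => if t ≤ k then f k - f (k - t) else f t) fun t => f (k + t) - f k) :
    Ext (Compat k) f P := by
  have h0 := hf.nonneg hk
  have h1 := hf.2.2 k
  refine ⟨_, _, f k, ⟨fun a b h => ?_, ?_, fun t => ?_⟩,
    ⟨fun a b h => ?_, by simp, fun t => ?_⟩, abs_le.2 ⟨by omega, h1⟩, ?_, hP⟩
  · split_ifs with h2 h3 h3
    · have := hf.1 (show k - b ≤ k - a by linarith)
      omega
    · have a1 := hf.nonneg (show 0 ≤ k - a by linarith)
      have a2 := hf.1 (not_le.1 h3).le
      omega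
    · exact absurd (h.trans h3) h2
    · exact hf.1 h
  · simp [hk]
  · split_ifs with h2
    · have := hf.nonneg (show 0 ≤ k - t by linarith)
      omega
    · exact hf.2.2 t
  · have := hf.1 (show k + a ≤ k + b by linarith)
    omega
  · have := hf.2.2 (k + t)
    omega
  · rintro a b c ha hb hc e (rfl | rfl | rfl) <;> beta_reduce
    · obtain rfl : b = k + c := by linarith
      split_ifs with h
      · obtain rfl : c = 0 := by linarith
        simp [hf.2.1]
      · rw [hf.2.1]
        omega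
    · obtain rfl : a = k + c := by linarith
      simp [hk]
    · obtain rfl : a = k - b := by linarith
      rw [if_pos (by linarith)]
      simp

theorem loc1 {k : ℝ} (hk : 0 ≤ k) : Loc (Compat k) := by
  refine ⟨fun f hf => ext1 hk hf trivial, fun x y hx hxy => ⟨?_, ?_⟩⟩
  · by_cases h1 : y ≤ k
    · refine .inr ⟨k - y, k - x, by linarith, by linarith, fun f hf h => ext1 hk hf ?_⟩
      beta_reduce
      rw [if_pos h1, if_pos (hxy.le.trans h1)]
      omega
    · by_cases h2 : x < k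
      · refine .inr ⟨0, k - x, le_rfl, by linarith, fun f hf h => ext1 hk hf ?_⟩
        have := hf.1 (not_le.1 h1).le
        rw [hf.2.1] at h
        beta_reduce
        rw [if_neg h1, if_pos h2.le]
        omega
      · refine .inr ⟨x, y, hx, hxy, fun f hf h => ext1 hk hf ?_⟩
        beta_reduce
        rw [if_neg h1]
        split_ifs with h3
        · obtain rfl : x = k := le_antisymm h3 (not_lt.1 h2)
          rw [sub_self, hf.2.1]
          omega
        · exact h
  · refine .inr ⟨k + x, k + y, by linarith, by linarith, fun f hf h => ext1 hk hf ?_⟩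
    beta_reduce
    omega

theorem loc2 {k : ℝ} (hk : 0 ≤ k) : Loc fun f g g' κ => Compat k g f g' κ := by
  have : (fun f g g' κ => Compat k g f g' κ) = Compat k := by
    funext f g g' κ
    exact propext ⟨Compat.swap, Compat.swap⟩
  rw [this]
  exact loc1 hk

theorem ext3 {k : ℝ} (hk : 0 ≤ k) {f : ℝ → ℤ} (hf : Adm f) {P : (ℝ → ℤ) → (ℝ → ℤ) → Prop}
    (hP : P (fun t => f (max 0 (t - k))) fun t => f (max 0 (t - k))) :
    Ext (fun f g g' κ => Compat k g g' f κ) f P := by
  have h : Adm fun t => f (max 0 (t - k)) :=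
    ⟨fun a b h => hf.1 (max_le_max le_rfl (by linarith)),
      by beta_reduce; rw [max_eq_left (by linarith), hf.2.1], fun t => hf.2.2 _⟩
  refine ⟨_, _, 0, h, h, by simp, ?_, hP⟩
  rintro a b c ha hb hc e (rfl | rfl | rfl) <;> beta_reduce
  · rw [max_eq_left (by linarith), max_eq_right (by linarith), show b - k = c by linarith, hf.2.1]
    omega
  · rw [max_eq_right (by linarith), max_eq_left (by linarith), show a - k = c by linarith, hf.2.1]
    omega
  · rw [max_eq_left (by linarith), max_eq_left (by linarith), hf.2.1]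
    omega

theorem cut3 {k x : ℝ} (hx : 0 ≤ x) (h : x < k) :
    Compat k (fun t => if x < t then 1 else 0) (fun t => if k - x ≤ t then 1 else 0) 0 1 := by
  rintro a b c ha hb hc e (rfl | rfl | rfl) <;> simp only [Pi.zero_apply]
  · rw [if_neg (not_lt.2 hx), if_pos (by linarith)]
    omega
  · rw [if_pos (by linarith), if_neg (by linarith)]
    omega
  · by_cases h1 : x < a
    · rw [if_pos h1, if_neg (by linarith)]
      omega
    · rw [if_neg h1, if_pos (by linarith)]
      omega

theorem loc3 {k : ℝ} (hk : 0 ≤ k) : Loc fun f g g' κ => Compat k g g' f κ := by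
  refine ⟨fun f hf => ext3 hk hf trivial, fun x y hx hxy => ?_⟩
  by_cases h : x < k
  · have e : (if x < x then (1 : ℤ) else 0) < if x < y then 1 else 0 := by simp [hxy]
    exact ⟨.inl ⟨_, _, 1, adm_gt hx, adm_ge (sub_pos.2 h), by simp, cut3 hx h, e⟩,
      .inl ⟨_, _, 1, adm_ge (sub_pos.2 h), adm_gt hx, by simp, (cut3 hx h).swap, e⟩⟩
  · have e : ∀ f : ℝ → ℤ, f (x - k) < f (y - k) → f (max 0 (x - k)) < f (max 0 (y - k)) := by
      intro f hf
      rwa [max_eq_right (by linarith), max_eq_right (by linarith)]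
    exact ⟨.inr ⟨x - k, y - k, by linarith, by linarith, fun f hf h => ext3 hk hf (e f h)⟩,
      .inr ⟨x - k, y - k, by linarith, by linarith, fun f hf h => ext3 hk hf (e f h)⟩⟩

end Local

section Graph

variable {V : Type} [DecidableEq V]

/-- An acyclic orientation of a chordal graph without four pairwise adjacent vertices, with an
elimination order. -/
structure Frame (E : V → V → Prop) (top key : V → ℕ) : Prop where
  up : ∀ u v, E u v → top u < top v
  inj : Function.Injective key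
  clq : ∀ c a b, (E c a ∨ E a c) → (E c b ∨ E b c) → key a < key c → key b < key c → a ≠ b →
    E a b ∨ E b a
  two : ∀ c a b d, (E c a ∨ E a c) → (E c b ∨ E b c) → (E c d ∨ E d c) → key a < key c →
    key b < key c → key d < key c → a = b ∨ a = d ∨ b = d

/-- A solution on the vertex set `S`. -/
def Sol (E : V → V → Prop) (k : V → V → V → ℝ) (S : Finset V) (f : V → V → ℝ → ℤ)
    (τ : V → V → ℤ) : Prop :=
  (∀ u v, Adm (f u v)) ∧ (∀ u v, |τ u v| ≤ S.card) ∧
    ∀ x ∈ S, ∀ y ∈ S, ∀ z ∈ S, E x y → E y z → E x z →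
      Compat (k x y z) (f x y) (f y z) (f x z) (τ x y + τ y z - τ x z)

variable {E : V → V → Prop} {top key : V → ℕ} {k : V → V → V → ℝ}

omit [DecidableEq V] in
theorem sol_zero (S : Finset V) : Sol E k S 0 0 :=
  ⟨fun _ _ => adm_zero, fun _ _ => by simp, fun _ _ _ _ _ _ _ _ _ _ _ _ _ _ _ _ _ => by simp⟩

theorem glue {S : Finset V} {c : V} (hc : c ∉ S) {f g f' : V → V → ℝ → ℤ} {τ ρ τ' : V → V → ℤ}
    (h : Sol E k S f τ) (hg : ∀ u v, Adm (g u v)) (hρ : ∀ u v, |ρ u v| ≤ S.card + 1)
    (e1 : ∀ u v, f' u v = if u = c ∨ v = c then g u v else f u v)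
    (e2 : ∀ u v, τ' u v = if u = c ∨ v = c then ρ u v else τ u v)
    (ht : ∀ x ∈ insert c S, ∀ y ∈ insert c S, ∀ z ∈ insert c S, E x y → E y z → E x z →
      (x = c ∨ y = c ∨ z = c) →
      Compat (k x y z) (f' x y) (f' y z) (f' x z) (τ' x y + τ' y z - τ' x z)) :
    Sol E k (insert c S) f' τ' := by
  refine ⟨fun u v => ?_, fun u v => ?_, fun x hx y hy z hz h1 h2 h3 => ?_⟩
  · rw [e1]
    split_ifs
    · exact hg u v
    · exact h.1 u v
  · rw [e2, Finset.card_insert_of_notMem hc, Nat.cast_succ]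
    split_ifs
    · exact hρ u v
    · exact (h.2.1 u v).trans (by omega)
  · by_cases e : x = c ∨ y = c ∨ z = c
    · exact ht x hx y hy z hz h1 h2 h3 e
    · simp only [not_or] at e
      simp only [e1, e2, e.1, e.2.1, e.2.2, or_self, if_false]
      exact h.2.2 x ((Finset.mem_insert.1 hx).resolve_left e.1) y
        ((Finset.mem_insert.1 hy).resolve_left e.2.1) z
        ((Finset.mem_insert.1 hz).resolve_left e.2.2) h1 h2 h3

/-- Every demand on an edge inside `S` is met by a solution on `S`. -/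
def Full (E : V → V → Prop) (k : V → V → V → ℝ) (S : Finset V) : Prop :=
  ∀ u ∈ S, ∀ v ∈ S, E u v → ∀ x y : ℝ, 0 ≤ x → x < y →
    ∃ f τ, Sol E k S f τ ∧ f u v x < f u v y

theorem step_free {S : Finset V} {c : V} (hc : c ∉ S) (ih : Full E k S)
    (hn : ∀ x ∈ insert c S, ∀ y ∈ insert c S, ∀ z ∈ insert c S, E x y → E y z → E x z →
      ¬(x = c ∨ y = c ∨ z = c)) : Full E k (insert c S) := by
  intro u hu v hv huv x y hx hxy
  by_cases e : u = c ∨ v = c
  · refine ⟨_, _, glue hc (sol_zero S) (g := fun _ _ t => if x < t then 1 else 0) (ρ := 0)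
      (fun _ _ => adm_gt hx) (fun _ _ => by simp only [Pi.zero_apply, abs_zero]; omega) (fun _ _ => rfl) (fun _ _ => rfl)
      (fun x hx y hy z hz h1 h2 h3 h => absurd h (hn x hx y hy z hz h1 h2 h3)), ?_⟩
    simp [e, hxy]
  · obtain ⟨f, τ, h, hs⟩ := ih u ((Finset.mem_insert.1 hu).resolve_left fun h => e (.inl h)) v
      ((Finset.mem_insert.1 hv).resolve_left fun h => e (.inr h)) huv x y hx hxy
    refine ⟨_, _, glue hc h (g := 0) (ρ := 0)
      (fun _ _ => adm_zero) (fun _ _ => by simp only [Pi.zero_apply, abs_zero]; omega) (fun _ _ => rfl) (fun _ _ => rfl)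
      (fun x hx y hy z hz h1 h2 h3 h => absurd h (hn x hx y hy z hz h1 h2 h3)), ?_⟩
    simpa only [if_neg e] using hs

theorem step_tri {S : Finset V} {c p q : V} (hc : c ∉ S) (ih : Full E k S) (hp : p ∈ S)
    (hq : q ∈ S) (hpq : E p q) {a b : V × V} (hab : b ≠ a) (ha : a.1 = c ∨ a.2 = c)
    (hb : b.1 = c ∨ b.2 = c)
    (he : ∀ u ∈ insert c S, ∀ v ∈ insert c S, E u v → (u = c ∨ v = c) → (u, v) = a ∨ (u, v) = b)
    {R : (ℝ → ℤ) → (ℝ → ℤ) → (ℝ → ℤ) → ℤ → Prop} (hR : Loc R) {ε : ℤ} (hε : |ε| = 1)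
    (ht : ∀ (f : V → V → ℝ → ℤ) (τ : V → V → ℤ) (κ : ℤ), τ b.1 b.2 = 0 →
      τ a.1 a.2 = κ + ε * τ p q → R (f p q) (f a.1 a.2) (f b.1 b.2) κ →
      ∀ x ∈ insert c S, ∀ y ∈ insert c S, ∀ z ∈ insert c S, E x y → E y z → E x z →
      (x = c ∨ y = c ∨ z = c) →
      Compat (k x y z) (f x y) (f y z) (f x z) (τ x y + τ y z - τ x z)) :
    Full E k (insert c S) := by
  have hpc : ¬(p = c ∨ q = c) := by
    rintro (rfl | rfl)
    · exact hc hp
    · exact hc hq
  have main : ∀ f τ P, Sol E k S f τ → Ext R (f p q) P → ∃ f' τ', Sol E k (insert c S) f' τ' ∧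
      (∀ u v, ¬(u = c ∨ v = c) → f' u v = f u v) ∧ P (f' a.1 a.2) (f' b.1 b.2) := by
    rintro f τ P h ⟨g, g', κ, h1, h2, h3, h4, h5⟩
    let f' : V → V → ℝ → ℤ := fun u v =>
      if u = c ∨ v = c then (if (u, v) = a then g else g') else f u v
    let τ' : V → V → ℤ := fun u v =>
      if u = c ∨ v = c then (if (u, v) = a then κ + ε * τ p q else 0) else τ u v
    have a1 : f' p q = f p q := if_neg hpc
    have a2 : f' a.1 a.2 = g := (if_pos ha).trans (if_pos rfl)
    have a3 : f' b.1 b.2 = g' := (if_pos hb).trans (if_neg hab)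
    have b1 : τ' p q = τ p q := if_neg hpc
    have b2 : τ' a.1 a.2 = κ + ε * τ p q := (if_pos ha).trans (if_pos rfl)
    have b3 : τ' b.1 b.2 = 0 := (if_pos hb).trans (if_neg hab)
    refine ⟨f', τ', glue hc h (fun u v => ?_) (fun u v => ?_) (fun _ _ => rfl) (fun _ _ => rfl)
      (ht f' τ' κ b3 (by rw [b2, b1]) (by rw [a1, a2, a3]; exact h4)), fun u v e => if_neg e,
      by rw [a2, a3]; exact h5⟩
    · split_ifs
      · exact h1
      · exact h2
    · split_ifs
      · have c1 := abs_add_le κ (ε * τ p q)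
        have c2 := h.2.1 p q
        rw [abs_mul, hε, one_mul] at c1
        omega
      · rw [abs_zero]
        omega
  have push : ∀ P, Push R P → ∃ f' τ', Sol E k (insert c S) f' τ' ∧
      P (f' a.1 a.2) (f' b.1 b.2) := by
    rintro P (h | ⟨x, y, hx, hxy, h⟩)
    · obtain ⟨f', τ', h1, -, h2⟩ := main 0 0 P (sol_zero S) h
      exact ⟨f', τ', h1, h2⟩
    · obtain ⟨f, τ, h1, h2⟩ := ih p hp q hq hpq x y hx hxy
      obtain ⟨f', τ', h3, -, h4⟩ := main f τ P h1 (h _ (h1.1 p q) h2)
      exact ⟨f', τ', h3, h4⟩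
  intro u hu v hv huv x y hx hxy
  by_cases e : u = c ∨ v = c
  · rcases he u hu v hv huv e with rfl | rfl
    · exact push _ (hR.2 x y hx hxy).1
    · exact push _ (hR.2 x y hx hxy).2
  · obtain ⟨f, τ, h, hs⟩ := ih u ((Finset.mem_insert.1 hu).resolve_left fun h => e (.inl h)) v
      ((Finset.mem_insert.1 hv).resolve_left fun h => e (.inr h)) huv x y hx hxy
    obtain ⟨f', τ', h1, h2, -⟩ := main f τ _ h (hR.1 _ (h.1 p q))
    exact ⟨f', τ', h1, by rw [h2 u v e]; exact hs⟩

omit [DecidableEq V] in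
theorem lower {S : Finset V} {c : V} (hF : Frame E top key) (hc : c ∉ S)
    (hm : ∀ x ∈ S, key x ≤ key c) {a : V} (ha : a ∈ S) : key a < key c :=
  (hm a ha).lt_of_ne fun e => hc (hF.inj e ▸ ha)

theorem full (hF : Frame E top key) (hk : ∀ x y z, E x y → E y z → E x z → 0 ≤ k x y z)
    (S : Finset V) : Full E k S := by
  induction S using Finset.induction_on_max_value key with
  | empty => exact fun u hu => absurd hu (Finset.notMem_empty u)
  | insert c S hc hm ih =>
    by_cases hn : ∀ x ∈ insert c S, ∀ y ∈ insert c S, ∀ z ∈ insert c S, E x y → E y z → E x z →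
      ¬(x = c ∨ y = c ∨ z = c)
    · exact step_free hc ih hn
    simp only [not_forall, not_not] at hn
    obtain ⟨x, hx, y, hy, z, hz, h1, h2, h3, e⟩ := hn
    have t1 := hF.up _ _ h1
    have t2 := hF.up _ _ h2
    have mem : ∀ u ∈ insert c S, top u ≠ top c → u ∈ S := fun u hu h =>
      (Finset.mem_insert.1 hu).resolve_left fun e => h (by rw [e])
    have nb : ∀ p ∈ S, ∀ q ∈ S, (E c p ∨ E p c) → (E c q ∨ E q c) → top p < top q →
        ∀ u ∈ insert c S, (E c u ∨ E u c) → u = p ∨ u = q := by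
      intro p hp q hq a1 a2 a3 u hu a4
      have hu' := mem u hu (by rcases a4 with a | a <;> have := hF.up _ _ a <;> omega)
      rcases hF.two c u p q a4 a1 a2 (lower hF hc hm hu') (lower hF hc hm hp)
        (lower hF hc hm hq) with e | e | e
      · exact .inl e
      · exact .inr e
      · rw [e] at a3
        omega
    have tri : (∀ u ∈ insert c S, (E c u ∨ E u c) → u = x ∨ u = y ∨ u = z) →
        ∀ x' ∈ insert c S, ∀ y' ∈ insert c S, ∀ z' ∈ insert c S, E x' y' → E y' z' → E x' z' →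
        (x' = c ∨ y' = c ∨ z' = c) → x' = x ∧ y' = y ∧ z' = z := by
      intro hN x' hx' y' hy' z' hz' a1 a2 a3 e'
      have s1 := hF.up _ _ a1
      have s2 := hF.up _ _ a2
      have hc' : c = x ∨ c = y ∨ c = z := by tauto
      have : (x' = x ∨ x' = y ∨ x' = z) ∧ (y' = x ∨ y' = y ∨ y' = z) ∧
          (z' = x ∨ z' = y ∨ z' = z) := by
        rcases e' with rfl | rfl | rfl
        · exact ⟨hc', hN _ hy' (.inl a1), hN _ hz' (.inl a3)⟩
        · exact ⟨hN _ hx' (.inr a1), hc', hN _ hz' (.inl a2)⟩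
        · exact ⟨hN _ hx' (.inr a3), hN _ hy' (.inr a2), hc'⟩
      obtain ⟨b1 | b1 | b1, b2 | b2 | b2, b3 | b3 | b3⟩ := this <;>
        first | exact ⟨b1, b2, b3⟩ | (rw [b1, b2] at s1; rw [b2, b3] at s2; omega)
    rcases e with rfl | rfl | rfl
    · have hy' := mem y hy (by omega)
      have hz' := mem z hz (by omega)
      have N := nb y hy' z hz' (.inl h1) (.inl h3) t2
      refine step_tri hc ih hy' hz' h2 (a := (x, y)) (b := (x, z)) (ε := -1)
        (fun e => by rw [(Prod.mk.inj e).2] at t2; omega) (.inl rfl) (.inl rfl) ?_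
        (loc2 (hk _ _ _ h1 h2 h3)) (by simp) ?_
      · rintro u hu v hv huv (rfl | rfl)
        · exact (N v hv (.inl huv)).imp (fun e => by rw [e]) fun e => by rw [e]
        · have := hF.up _ _ huv
          rcases N u hu (.inr huv) with rfl | rfl <;> omega
      · intro f τ κ c1 c2 c3 x' hx' y' hy' z' hz' a1 a2 a3 e'
        obtain ⟨rfl, rfl, rfl⟩ := tri (fun u hu h => .inr (N u hu h)) x' hx' y' hy' z' hz' a1 a2
          a3 e'
        rw [show τ x' y' + τ y' z' - τ x' z' = κ by simp only at c1 c2; omega]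
        exact c3
    · have hx' := mem x hx (by omega)
      have hz' := mem z hz (by omega)
      have N := nb x hx' z hz' (.inr h1) (.inl h2) (by omega)
      refine step_tri hc ih hx' hz' h3 (a := (x, y)) (b := (y, z)) (ε := 1)
        (fun e => by rw [(Prod.mk.inj e).2] at t2; omega) (.inr rfl) (.inl rfl) ?_
        (loc3 (hk _ _ _ h1 h2 h3)) (by simp) ?_
      · rintro u hu v hv huv (rfl | rfl)
        · have := hF.up _ _ huv
          rcases N v hv (.inl huv) with rfl | rfl
          · omega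
          · exact .inr rfl
        · have := hF.up _ _ huv
          rcases N u hu (.inr huv) with rfl | rfl
          · exact .inl rfl
          · omega
      · intro f τ κ c1 c2 c3 x' hx' y' hy' z' hz' a1 a2 a3 e'
        obtain ⟨rfl, rfl, rfl⟩ := tri (fun u hu h => (N u hu h).imp_right .inr) x' hx' y' hy' z'
          hz' a1 a2 a3 e'
        rw [show τ x' y' + τ y' z' - τ x' z' = κ by simp only at c1 c2; omega]
        exact c3
    · have hx' := mem x hx (by omega)
      have hy' := mem y hy (by omega)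
      have N := nb x hx' y hy' (.inr h3) (.inr h2) t1
      refine step_tri hc ih hx' hy' h1 (a := (y, z)) (b := (x, z)) (ε := -1)
        (fun e => by rw [(Prod.mk.inj e).1] at t1; omega) (.inr rfl) (.inr rfl) ?_
        (loc1 (hk _ _ _ h1 h2 h3)) (by simp) ?_
      · rintro u hu v hv huv (rfl | rfl)
        · have := hF.up _ _ huv
          rcases N v hv (.inl huv) with rfl | rfl <;> omega
        · exact (N u hu (.inr huv)).symm.imp (fun e => by rw [e]) fun e => by rw [e]
      · intro f τ κ c1 c2 c3 x' hx' y' hy' z' hz' a1 a2 a3 e'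
        obtain ⟨rfl, rfl, rfl⟩ := tri (fun u hu h => (N u hu h).imp_right .inl) x' hx' y' hy' z'
          hz' a1 a2 a3 e'
        rw [show τ x' y' + τ y' z' - τ x' z' = κ by simp only at c1 c2; omega]
        exact c3

end Graph

end Pool.Agent.P.MP_546b07_lc.Tw
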