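import Pool.Agent.P.MP_546b07_lc.Tw1
import Pool.Agent.P.MP_546b07_lc.H42Up

set_option autoImplicit false

namespace Pool.Agent.P.MP_546b07_lc.Tw

open Up Relation

variable {V : Type} {E : V → V → Prop} {top key : V → ℕ}

theorem Frame.ne (hF : Frame E top key) {u v : V} (h : E u v ∨ E v u) : u ≠ v := by
  rintro rfl
  exact lt_irrefl _ (hF.up _ _ (h.elim id id))

theorem no_K4 [DecidableEq V] (hF : Frame E top key) {x y z : V} (h1 : E x y) (h2 : E y z)
    (h3 : E x z) (C : Finset V) : (∀ v ∈ C, v ≠ x ∧ v ≠ y ∧ v ≠ z) →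
      (∀ u ∈ C, ∀ v ∈ C, ReflTransGen (fun p q => p ∈ C ∧ q ∈ C ∧ (E p q ∨ E q p)) u v) →
      (∀ t, t = x ∨ t = y ∨ t = z → ∃ p ∈ C, E t p ∨ E p t) → False := by
  have n1 := hF.ne (.inl h1)
  have n2 := hF.ne (.inl h2)
  have n3 := hF.ne (.inl h3)
  induction C using Finset.induction_on_max_value key with
  | empty => exact fun _ _ h => by simpa using h x (.inl rfl)
  | insert m C hm hmax ih =>
    intro hT hc hN
    have low : ∀ p ∈ insert m C, key p ≤ key m := by
      intro p hp
      rcases Finset.mem_insert.1 hp with rfl | hp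
      · exact le_rfl
      · exact hmax p hp
    have k1 : key x ≠ key y := fun e => n1 (hF.inj e)
    have k2 : key y ≠ key z := fun e => n2 (hF.inj e)
    have k3 : key x ≠ key z := fun e => n3 (hF.inj e)
    have hm' := hT m (Finset.mem_insert_self m C)
    have k4 : key m ≠ key x := fun e => hm'.1 (hF.inj e)
    have k5 : key m ≠ key y := fun e => hm'.2.1 (hF.inj e)
    have k6 : key m ≠ key z := fun e => hm'.2.2 (hF.inj e)
    by_cases big : key x < key m ∧ key y < key m ∧ key z < key m
    · rcases C.eq_empty_or_nonempty with rfl | ⟨n, hn⟩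
      · have a : ∀ t, t = x ∨ t = y ∨ t = z → E m t ∨ E t m := by
          intro t ht
          obtain ⟨p, hp, h⟩ := hN t ht
          obtain rfl : p = m := by simpa using hp
          exact h.symm
        rcases hF.two m x y z (a x (by simp)) (a y (by simp)) (a z (by simp)) big.1 big.2.1
          big.2.2 with e | e | e
        · exact n1 e
        · exact n3 e
        · exact n2 e
      have walk : ∀ u ∈ C, ∀ v, ReflTransGen
          (fun p q => p ∈ insert m C ∧ q ∈ insert m C ∧ (E p q ∨ E q p)) u v →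
          (v ≠ m → ReflTransGen (fun p q => p ∈ C ∧ q ∈ C ∧ (E p q ∨ E q p)) u v) ∧
          (v = m → ∃ p ∈ C, (E m p ∨ E p m) ∧
            ReflTransGen (fun p q => p ∈ C ∧ q ∈ C ∧ (E p q ∨ E q p)) u p) := by
        intro u hu v h
        induction h with
        | refl => exact ⟨fun _ => .refl, fun e => absurd (e ▸ hu) hm⟩
        | @tail b c _ hbc ih =>
          obtain ⟨hb, hc, hE⟩ := hbc
          refine ⟨fun hcm => ?_, fun hcm => ?_⟩
          · have hc' := (Finset.mem_insert.1 hc).resolve_left hcm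
            by_cases hbm : b = m
            · obtain ⟨p, hp, hpm, hr⟩ := ih.2 hbm
              by_cases e : p = c
              · exact e ▸ hr
              · exact hr.tail ⟨hp, hc', hF.clq m p c hpm (hbm ▸ hE) (lower hF hm hmax hp)
                  (lower hF hm hmax hc') e⟩
            · exact (ih.1 hbm).tail ⟨(Finset.mem_insert.1 hb).resolve_left hbm, hc', hE⟩
          · subst hcm
            have hbm := hF.ne hE
            exact ⟨b, (Finset.mem_insert.1 hb).resolve_left hbm, hE.symm, ih.1 hbm⟩
      refine ih (fun v hv => hT v (Finset.mem_insert_of_mem hv)) (fun u hu v hv =>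
        (walk u hu v (hc u (Finset.mem_insert_of_mem hu) v (Finset.mem_insert_of_mem hv))).1
          (ne_of_mem_of_not_mem hv hm)) fun t ht => ?_
      obtain ⟨p, hp, h⟩ := hN t ht
      rcases Finset.mem_insert.1 hp with rfl | hp
      · obtain ⟨q, hq, hqm, -⟩ := (walk n hn p (hc n (Finset.mem_insert_of_mem hn) p hp)).2 rfl
        have hq' := hT q (Finset.mem_insert_of_mem hq)
        refine ⟨q, hq, hF.clq p t q h.symm hqm ?_ (lower hF hm hmax hq) ?_⟩
        · rcases ht with rfl | rfl | rfl <;> omega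
        · rcases ht with rfl | rfl | rfl
          · exact hq'.1.symm
          · exact hq'.2.1.symm
          · exact hq'.2.2.symm
      · exact ⟨p, hp, h⟩
    · have a : ∀ t a b, t = x ∨ t = y ∨ t = z → (E t a ∨ E a t) → (E t b ∨ E b t) → a ≠ b →
          (∀ v ∈ insert m C, v ≠ a ∧ v ≠ b) → key a < key t → key b < key t → key m < key t →
          False := by
        intro t a b ht ha hb hab hC b1 b2 b3
        obtain ⟨p, hp, h⟩ := hN t ht
        rcases hF.two t a b p ha hb h b1 b2 ((low p hp).trans_lt b3) with e | e | e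
        · exact hab e
        · exact (hC p hp).1 e.symm
        · exact (hC p hp).2 e.symm
      by_cases c1 : key y < key x ∧ key z < key x
      · exact a x y z (by simp) (.inl h1) (.inl h3) n2 (fun v hv => (hT v hv).2) c1.1 c1.2
          (by omega)
      by_cases c2 : key z < key y
      · exact a y x z (by simp) (.inr h1) (.inl h2) n3 (fun v hv => ⟨(hT v hv).1, (hT v hv).2.2⟩)
          (by omega) c2 (by omega)
      · exact a z x y (by simp) (.inr h3) (.inr h2) n1 (fun v hv => ⟨(hT v hv).1, (hT v hv).2.1⟩)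
          (by omega) (by omega) (by omega)

theorem cob [DecidableEq V] (hF : Frame E top key) (R : V → Prop) (A : V → V → ℤ)
    (hA : ∀ x y z, R x → R y → R z → E x y → E y z → E x z → A x y + A y z = A x z)
    (S : Finset V) : ∃ d : V → ℤ, ∀ u ∈ S, ∀ v ∈ S, R u → R v → E u v → d v - d u = A u v := by
  classical
  have asy : ∀ u v, E u v → ¬E v u := fun u v h h' => by
    have := hF.up _ _ h
    have := hF.up _ _ h'
    omega
  induction S using Finset.induction_on_max_value key with
  | empty => exact ⟨0, by simp⟩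
  | insert c S hc hm ih =>
    obtain ⟨d, hd⟩ := ih
    have fin : ∀ x : ℤ, (R c → ∀ v ∈ S, R v → (E c v → d v - x = A c v) ∧
        (E v c → x - d v = A v c)) → ∃ d : V → ℤ, ∀ u ∈ insert c S, ∀ v ∈ insert c S,
        R u → R v → E u v → d v - d u = A u v := by
      intro x hx
      refine ⟨Function.update d c x, fun u hu v hv ru rv huv => ?_⟩
      rcases Finset.mem_insert.1 hu with rfl | mu <;> rcases Finset.mem_insert.1 hv with rfl | mv
      · exact absurd huv (asy _ _ huv)
      · rw [Function.update_self, Function.update_of_ne (ne_of_mem_of_not_mem mv hc)]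
        exact (hx ru v mv rv).1 huv
      · rw [Function.update_self, Function.update_of_ne (ne_of_mem_of_not_mem mu hc)]
        exact (hx rv u mu ru).2 huv
      · rw [Function.update_of_ne (ne_of_mem_of_not_mem mu hc),
          Function.update_of_ne (ne_of_mem_of_not_mem mv hc)]
        exact hd u mu v mv ru rv huv
    by_cases h : ∃ a ∈ S, R a ∧ (E c a ∨ E a c)
    · obtain ⟨a, ha, ra, hE⟩ := h
      have adj : ∀ v ∈ S, (E c v ∨ E v c) → v = a ∨ E v a ∨ E a v := fun v hv h =>
        or_iff_not_imp_left.2 (hF.clq c v a h hE (lower hF hc hm hv) (lower hF hc hm ha))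
      rcases hE with hE | hE
      · refine fin (d a - A c a) fun rc v hv rv => ⟨fun h => ?_, fun h => ?_⟩
        · rcases adj v hv (.inl h) with rfl | e | e
          · omega
          · have := hd v hv a ha rv ra e
            have := hA c v a rc rv ra h e hE
            omega
          · have := hd a ha v hv ra rv e
            have := hA c a v rc ra rv hE e h
            omega
        · rcases adj v hv (.inr h) with rfl | e | e
          · exact absurd h (asy _ _ hE)
          · have := hd v hv a ha rv ra e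
            have := hA v c a rv rc ra h hE e
            omega
          · have := hF.up _ _ hE
            have := hF.up _ _ h
            have := hF.up _ _ e
            omega
      · refine fin (d a + A a c) fun rc v hv rv => ⟨fun h => ?_, fun h => ?_⟩
        · rcases adj v hv (.inl h) with rfl | e | e
          · exact absurd h (asy _ _ hE)
          · have := hF.up _ _ hE
            have := hF.up _ _ h
            have := hF.up _ _ e
            omega
          · have := hd a ha v hv ra rv e
            have := hA a c v ra rc rv hE h e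
            omega
        · rcases adj v hv (.inr h) with rfl | e | e
          · omega
          · have := hd v hv a ha rv ra e
            have := hA v a c rv ra rc e hE h
            omega
          · have := hd a ha v hv ra rv e
            have := hA a v c ra rv rc e h hE
            omega
    · exact fin 0 fun _ v hv rv =>
        ⟨fun e => absurd ⟨v, hv, rv, .inl e⟩ h, fun e => absurd ⟨v, hv, rv, .inr e⟩ h⟩

theorem rtg_of_chain {R : V → V → Prop} (l : List V) : ∀ a t, (a :: l).IsChain R →
    (a :: l).getLast? = some t → ReflTransGen R a t := by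
  induction l with
  | nil =>
    intro a t _ h
    rw [List.getLast?_singleton, Option.some.injEq] at h
    exact h ▸ .refl
  | cons b l ih =>
    intro a t c h
    rw [List.isChain_cons_cons] at c
    rw [List.getLast?_cons_cons] at h
    exact (ih b t c.2 h).head c.1

theorem first_hit {R : V → V → Prop} {T : V → Prop} {s v : V} (hs : ¬T s)
    (h : ReflTransGen R s v) :
    (¬T v ∧ ReflTransGen (fun p q => R p q ∧ ¬T p ∧ ¬T q) s v) ∨ ∃ u p, T u ∧ ¬T p ∧
      ReflTransGen (fun p q => R p q ∧ ¬T p ∧ ¬T q) s p ∧ R p u ∧ ReflTransGen R u v := by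
  induction h with
  | refl => exact .inl ⟨hs, .refl⟩
  | @tail b c _ hbc ih =>
    rcases ih with ⟨h1, h2⟩ | ⟨u, p, h1, h2, h3, h4, h5⟩
    · by_cases hc : T c
      · exact .inr ⟨c, b, hc, h1, h2, hbc, .refl⟩
      · exact .inl ⟨hc, h2.tail ⟨hbc, h1, hc⟩⟩
    · exact .inr ⟨u, p, h1, h2, h3, h4, h5.tail hbc⟩

/-- `D` is the distance function. -/
structure Dist (E : V → V → Prop) (w D : V → V → ℝ) : Prop where
  pos : ∀ u v, E u v → 0 < w u v
  h1 : ∀ s, D s s = 0
  h2 : ∀ s t, (∃ p, IsPath E s t p) → ∃ p, IsPath E s t p ∧ weight w p = D s t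
  h3 : ∀ s u v, E u v ∧ (∃ p, IsPath E s u p) → D s v - D s u ≤ w u v

variable {w D : V → V → ℝ}

theorem reach_refl (s : V) : ∃ p, IsPath E s s p := ⟨[s], by simp, by simp, rfl, rfl⟩

theorem Dist.step (hD : Dist E w D) (s u v : V) : (∃ p, IsPath E s u p) → E u v →
    ∃ p, IsPath E s v p := by
  rintro ⟨p, hp⟩ huv
  obtain ⟨l, rfl⟩ := path_cons hp
  obtain ⟨q, hq, -⟩ := extend hD.pos huv l s hp
  exact ⟨_, hq⟩

theorem Dist.tight (hD : Dist E w D) {s v : V} (h : ∃ p, IsPath E s v p) :
    ReflTransGen (fun u v => (E u v ∧ ∃ p, IsPath E s u p) ∧ w u v ≤ D s v - D s u) s v := by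
  obtain ⟨p, hp, he⟩ := hD.h2 s v h
  obtain ⟨l, rfl⟩ := path_cons hp
  refine rtg_of_chain l s v (weight_eq (hD.h3 s) l s
    (chain_reach (hD.step s) l s (reach_refl s) hp.1) ?_) hp.2.2.2
  rw [weight_tele (D s) l s v hp.2.2.2, he, hD.h1, sub_zero]

theorem Dist.sub (hD : Dist E w D) (hF : Frame E top key) {s u v : V} (h : ReflTransGen
    (fun u v => (E u v ∧ ∃ p, IsPath E s u p) ∧ w u v ≤ D s v - D s u) u v) :
    (∃ p, IsPath E u v p) ∧ D s u + D u v ≤ D s v ∧ top u ≤ top v := by
  induction h with
  | refl => exact ⟨reach_refl u, by rw [hD.h1, add_zero], le_rfl⟩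
  | @tail b c _ hbc ih =>
    have := hD.h3 u b c ⟨hbc.1.1, ih.1⟩
    exact ⟨hD.step u b c ih.1 hbc.1.1, by linarith [hbc.2, ih.2.1],
      ih.2.2.trans (hF.up _ _ hbc.1.1).le⟩

theorem Dist.tri (hD : Dist E w D) {s u v : V} (hu : ∃ p, IsPath E s u p)
    (hv : ∃ p, IsPath E u v p) : D s v ≤ D s u + D u v := by
  have : ∀ v, ReflTransGen
      (fun a b => (E a b ∧ ∃ p, IsPath E u a p) ∧ w a b ≤ D u b - D u a) u v →
      (∃ p, IsPath E s v p) ∧ D s v ≤ D s u + D u v := by
    intro v h
    induction h with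
    | refl => exact ⟨hu, by rw [hD.h1, add_zero]⟩
    | @tail b c _ hbc ih =>
      have := hD.h3 s b c ⟨hbc.1.1, ih.1⟩
      exact ⟨hD.step s b c ih.1 hbc.1.1, by linarith [hbc.2, ih.2]⟩
  exact (this v (hD.tight hv)).2

theorem Dist.edge (hD : Dist E w D) {u v : V} (h : E u v) : ∃ p, IsPath E u v p :=
  hD.step u u v (reach_refl u) h

theorem Dist.triangle [Fintype V] (hD : Dist E w D) (hF : Frame E top key) {s x y z : V}
    (hx : ∃ p, IsPath E s x p) (h1 : E x y) (h2 : E y z) (h3 : E x z) :
    D s x + D x y - D s y = 0 ∨ D s y + D y z - D s z = 0 ∨ D s x + D x z - D s z = 0 := by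
  classical
  have hy := hD.step s x y hx h1
  have hz := hD.step s x z hx h3
  have a1 := hD.tri hx (hD.edge h1)
  have a2 := hD.tri hy (hD.edge h2)
  have a3 := hD.tri hx (hD.edge h3)
  have t1 := hF.up _ _ h1
  have t2 := hF.up _ _ h2
  by_contra hcon
  simp only [not_or] at hcon
  obtain ⟨n1, n2, n3⟩ := hcon
  have t0 := (hD.sub hF (hD.tight hx)).2.2
  have hs : ¬(s = x ∨ s = y ∨ s = z) := by
    rintro (rfl | rfl | rfl)
    · exact n1 (by rw [hD.h1]; ring)
    · omega
    · omega
  set R := fun p q => ((E p q ∧ ∃ l, IsPath E s p l) ∧ w p q ≤ D s q - D s p) ∧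
    ¬(p = x ∨ p = y ∨ p = z) ∧ ¬(q = x ∨ q = y ∨ q = z) with hR
  let C := Finset.univ.filter fun v => ReflTransGen R s v
  have hC : ∀ v, v ∈ C ↔ ReflTransGen R s v := fun v => by simp [C]
  have conn : ∀ v, ReflTransGen R s v →
      ReflTransGen (fun p q => p ∈ C ∧ q ∈ C ∧ (E p q ∨ E q p)) s v ∧
      ReflTransGen (fun p q => p ∈ C ∧ q ∈ C ∧ (E p q ∨ E q p)) v s := by
    intro v h
    induction h with
    | refl => exact ⟨.refl, .refl⟩
    | @tail b c hb hbc ih =>
      exact ⟨ih.1.tail ⟨(hC b).2 hb, (hC c).2 (hb.tail hbc), .inl hbc.1.1.1⟩,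
        ih.2.head ⟨(hC c).2 (hb.tail hbc), (hC b).2 hb, .inr hbc.1.1.1⟩⟩
  refine no_K4 hF h1 h2 h3 C (fun v hv => ?_)
    (fun u hu v hv => (conn u ((hC u).1 hu)).2.trans (conn v ((hC v).1 hv)).1) fun t ht => ?_
  · rcases ((hC v).1 hv).cases_tail with rfl | ⟨b, -, hb⟩
    · simpa only [not_or] using hs
    · simpa only [not_or] using hb.2.2
  · have rt : ∃ p, IsPath E s t p := by
      rcases ht with rfl | rfl | rfl <;> assumption
    rcases first_hit (T := fun p => p = x ∨ p = y ∨ p = z) hs (hD.tight rt) with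
      ⟨h, -⟩ | ⟨u, p, b1, -, b3, b4, b5⟩
    · exact absurd ht h
    · obtain ⟨-, c2, c3⟩ := hD.sub hF b5
      have : u = t := by
        rcases b1 with rfl | rfl | rfl <;> rcases ht with rfl | rfl | rfl <;>
          first | rfl | omega | exact absurd (by linarith) n1 | exact absurd (by linarith) n2 |
            exact absurd (by linarith) n3
      exact ⟨p, (hC p).2 b3, .inr (this ▸ b4.1.1)⟩

theorem frame_main [Fintype V] (hF : Frame E top key) (hw : ∀ u v, E u v → 0 < w u v) {N : ℕ}
    (hN : ∀ v, top v ≤ N) :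
    ∃ h : V → V → ℕ, (∀ u v, E u v → 1 ≤ h u v ∧ h u v ≤ (Fintype.card V ^ 4 + 1) * (N + 1)) ∧
      ∀ s t p, IsShortest E (fun u v => (h u v : ℝ)) s t p → IsShortest E w s t p := by
  classical
  obtain ⟨D, h1, h2, h3⟩ := exists_dist E w hw
  have hD : Dist E w D := ⟨hw, h1, h2, h3⟩
  let k : V → V → V → ℝ := fun x y z => D x y + D y z - D x z
  let σ : V → V → V → ℝ := fun s u v => D s u + D u v - D s v
  have hσ : ∀ s u v, (∃ p, IsPath E s u p) → E u v → 0 ≤ σ s u v :=
    fun s u v a b => sub_nonneg.2 (hD.tri a (hD.edge b))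
  have hfull := full (k := k) hF
    (fun x y z a b _ => sub_nonneg.2 (hD.tri (hD.edge a) (hD.edge b))) Finset.univ
  have hex : ∀ r : V × V × V, ∃ f τ, Sol E k Finset.univ f τ ∧
      (E r.2.1 r.2.2 → 0 < σ r.1 r.2.1 r.2.2 → 0 < f r.2.1 r.2.2 (σ r.1 r.2.1 r.2.2)) := by
    rintro ⟨s, u, v⟩
    by_cases h : E u v ∧ 0 < σ s u v
    · obtain ⟨f, τ, a, b⟩ := hfull u (Finset.mem_univ u) v (Finset.mem_univ v) h.1 0 _ le_rfl h.2
      exact ⟨f, τ, a, fun _ _ => (a.1 u v).2.1 ▸ b⟩
    · exact ⟨0, 0, sol_zero _, fun a b => absurd ⟨a, b⟩ h⟩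
  choose f τ hsol hsat using hex
  let T : V → V → ℤ := fun u v => ∑ r, τ r u v
  let G : V → V → V → ℤ := fun s u v => ∑ r, f r u v (σ s u v)
  have hT : ∀ u v, |T u v| ≤ (Fintype.card V : ℤ) ^ 4 := by
    intro u v
    refine (Finset.abs_sum_le_sum_abs _ _).trans
      ((Finset.sum_le_sum fun r _ => (hsol r).2.1 u v).trans (le_of_eq ?_))
    simp only [Finset.sum_const, Finset.card_univ, Fintype.card_prod, nsmul_eq_mul]
    push_cast
    ring
  have hG : ∀ s u v, (∃ p, IsPath E s u p) → E u v →
      0 ≤ G s u v ∧ (G s u v ≤ 0 ↔ σ s u v ≤ 0) := by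
    intro s u v a b
    have c0 := fun r => ((hsol r).1 u v).nonneg (hσ s u v a b)
    refine ⟨Finset.sum_nonneg fun r _ => c0 r, fun h => ?_, fun h => ?_⟩
    · by_contra hlt
      have c1 := hsat (s, u, v) b (not_le.1 hlt)
      have c2 := Finset.single_le_sum (f := fun r => f r u v (σ s u v)) (fun r _ => c0 r)
        (Finset.mem_univ (s, u, v))
      exact absurd (c1.trans_le (c2.trans h)) (lt_irrefl _)
    · refine le_of_eq (Finset.sum_eq_zero fun r _ => ?_)
      rw [le_antisymm h (hσ s u v a b)]
      exact ((hsol r).1 u v).2.1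
  have hd : ∀ s, ∃ d : V → ℤ, ∀ u v, (∃ p, IsPath E s u p) → E u v →
      d v - d u = T u v - G s u v := by
    intro s
    obtain ⟨d, hd⟩ := cob hF (fun v => ∃ p, IsPath E s v p) (fun u v => T u v - G s u v) (by
      intro x y z rx ry _ a b c
      have : ∑ r, (f r x y (σ s x y) + f r y z (σ s y z) - f r x z (σ s x z)) =
          ∑ r, (τ r x y + τ r y z - τ r x z) := Finset.sum_congr rfl fun r _ =>
        (hsol r).2.2 x (Finset.mem_univ x) y (Finset.mem_univ y) z (Finset.mem_univ z) a b c
          _ _ _ (hσ s x y rx a) (hσ s y z ry b) (hσ s x z rx c) (by simp only [σ, k]; ring)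
          (hD.triangle hF rx a b c)
      simp only [Finset.sum_sub_distrib, Finset.sum_add_distrib] at this
      simp only [T, G]
      omega) Finset.univ
    exact ⟨d, fun u v a b =>
      hd u (Finset.mem_univ u) v (Finset.mem_univ v) a (hD.step s u v a b) b⟩
  choose d hd using hd
  set L : ℤ := (Fintype.card V : ℤ) ^ 4 + 1 with hL
  have hL0 : 0 < L := by positivity
  let H : V → V → ℤ := fun u v =>
    T u v + (if D u v < w u v then 1 else 0) + L * ((top v : ℤ) - top u)
  have hH : ∀ u v, E u v → 1 ≤ H u v ∧ H u v ≤ L * (N + 1) := by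
    intro u v b
    have c1 := abs_le.1 (hT u v)
    have c2 : (top u : ℤ) + 1 ≤ top v := by exact_mod_cast hF.up u v b
    have c3 : (top v : ℤ) ≤ N := by exact_mod_cast hN v
    have c4 : (0 : ℤ) ≤ top u := Int.natCast_nonneg _
    have c5 := mul_le_mul_of_nonneg_left (show (1 : ℤ) ≤ top v - top u by omega) hL0.le
    have c6 := mul_le_mul_of_nonneg_left (show (top v : ℤ) - top u ≤ N by omega) hL0.le
    simp only [H]
    split_ifs <;> constructor <;> linarith
  have cast : ∀ u v, E u v → (((H u v).toNat : ℕ) : ℝ) = (H u v : ℝ) := fun u v b => by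
    have : (((H u v).toNat : ℕ) : ℤ) = H u v := Int.toNat_of_nonneg (by linarith [(hH u v b).1])
    exact_mod_cast this
  have gap : ∀ s u v, (∃ p, IsPath E s u p) → E u v →
      H u v - (d s v + L * top v - (d s u + L * top u)) =
        (if D u v < w u v then 1 else 0) + G s u v := by
    intro s u v a b
    have := hd s u v a b
    simp only [H]
    linarith
  refine ⟨fun u v => (H u v).toNat, fun u v b => ⟨?_, ?_⟩,
    preserve (d := fun s v => ((d s v + L * top v : ℤ) : ℝ)) hw h1 h2 h3 ?_ ?_⟩
  · have := (hH u v b).1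
    beta_reduce
    omega
  · have := (hH u v b).2
    beta_reduce
    rw [Int.toNat_le]
    push_cast
    exact this
  · rintro s u v ⟨b, a⟩
    have c1 := gap s u v a b
    have c2 := (hG s u v a b).1
    rw [cast u v b]
    have : d s v + L * top v - (d s u + L * top u) ≤ H u v := by
      split_ifs at c1 <;> omega
    exact_mod_cast this
  · rintro s u v ⟨b, a⟩
    have c1 := gap s u v a b
    obtain ⟨c2, c3⟩ := hG s u v a b
    have c4 := h3 u u v ⟨b, reach_refl u⟩
    have c5 := hσ s u v a b
    rw [h1, sub_zero] at c4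
    rw [cast u v b]
    have e : ((H u v : ℤ) : ℝ) ≤ ((d s v + L * top v : ℤ) : ℝ) - ((d s u + L * top u : ℤ) : ℝ) ↔
        H u v ≤ d s v + L * top v - (d s u + L * top u) := by
      rw [← Int.cast_sub, Int.cast_le]
    rw [e]
    simp only [σ] at c3 c5
    constructor
    · intro h
      have := c3.2 (by linarith)
      rw [if_neg (by linarith)] at c1
      omega
    · intro h
      split_ifs at c1 with g
      · omega
      · have := c3.1 (by omega)
        linarith [not_lt.1 g]

end Pool.Agent.P.MP_546b07_lc.Tw
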