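import Pool.Agent.P.MP_546b07_lc.Tw2

set_option autoImplicit false

namespace Pool.Agent.P.MP_546b07_lc.Tw

open Up Relation SimpleGraph

theorem path_via {ι : Type} (T : SimpleGraph ι) (hT : T.IsTree) (S : Set ι)
    (hS : (T.induce S).Connected) (ρ t x : ι) (ht : t ∈ S) (hx : x ∈ S)
    (hmin : ∀ y ∈ S, T.dist t ρ ≤ T.dist y ρ) :
    ∃ (p : T.Walk x t) (W : T.Walk t ρ), (p.append W).IsPath ∧ (∀ y ∈ p.support, y ∈ S) ∧
      W.length = T.dist t ρ := by
  classical
  obtain ⟨p0, hp0⟩ := (hS.preconnected ⟨x, hx⟩ ⟨t, ht⟩).exists_isPath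
  obtain ⟨W, hWp, hWl⟩ := (hT.connected.preconnected t ρ).exists_path_of_dist
  let f : T.induce S ↪g T := Embedding.induce S
  obtain ⟨p, hpp, hsupp⟩ : ∃ p : T.Walk x t, p.IsPath ∧ ∀ y ∈ p.support, y ∈ S := by
    refine ⟨p0.map f.toHom, Walk.IsPath.map f.injective hp0, ?_⟩
    intro y hy
    have hy' : y ∈ (p0.map f.toHom).support := hy
    rw [Walk.support_map, List.mem_map] at hy'
    obtain ⟨z, _, rfl⟩ := hy'
    exact z.2
  refine ⟨p, W, ?_, hsupp, hWl⟩
  rw [Walk.isPath_def, Walk.support_append, List.nodup_append]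
  refine ⟨hpp.support_nodup, hWp.support_nodup.sublist (List.tail_sublist _), ?_⟩
  intro a ha b hb hab
  subst hab
  have haS := hsupp a ha
  have hle := hmin a haS
  cases W with
  | nil => simp at hb
  | cons h W' =>
    simp only [Walk.support_cons, List.tail_cons] at hb
    have h1 : T.dist a _ ≤ (W'.dropUntil a hb).length := T.dist_le _
    have h2 := W'.length_dropUntil_le_length hb
    simp only [Walk.length_cons] at hWl
    omega

theorem exists_depth {ι W : Type} (T : SimpleGraph ι) (hT : T.IsTree) (S : W → Set ι)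
    (hS : ∀ v, (T.induce (S v)).Connected) :
    ∃ (tp : W → ι) (dep : W → ℕ), (∀ v, tp v ∈ S v) ∧
      ∀ u v x, x ∈ S u → x ∈ S v → dep v ≤ dep u → tp u ∈ S v := by
  classical
  obtain ⟨ρ⟩ := hT.connected.nonempty
  have hex : ∀ v, ∃ t ∈ S v, ∀ y ∈ S v, T.dist t ρ ≤ T.dist y ρ := by
    intro v
    obtain ⟨⟨z, hz⟩⟩ := (hS v).nonempty
    obtain ⟨t, ht, hmin⟩ := (measure (fun i => T.dist i ρ)).wf.has_min (S v) ⟨z, hz⟩
    exact ⟨t, ht, fun y hy => not_lt.mp (hmin y hy)⟩
  choose tp htop hmin using hex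
  refine ⟨tp, fun v => T.dist (tp v) ρ, htop, fun u v x hxu hxv h4 => ?_⟩
  obtain ⟨p, Wp, hp, hps, l1⟩ := path_via T hT (S u) (hS u) ρ (tp u) x (htop u) hxu (hmin u)
  obtain ⟨q, Wq, hq, hqs, l2⟩ := path_via T hT (S v) (hS v) ρ (tp v) x (htop v) hxv (hmin v)
  have heq : p.append Wp = q.append Wq := by
    have := (hT.isAcyclic.subsingleton_path x ρ).elim ⟨_, hp⟩ ⟨_, hq⟩
    exact congrArg Subtype.val this
  have h1 : (p.append Wp).getVert p.length = tp u := by
    rw [Walk.getVert_append]; simp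
  have h2 : (q.append Wq).getVert q.length = tp v := by
    rw [Walk.getVert_append]; simp
  have h3 := congrArg Walk.length heq
  rw [Walk.length_append, Walk.length_append, l1, l2] at h3
  beta_reduce at h4
  rcases (show p.length ≤ q.length by omega).lt_or_eq with h | h
  · rw [heq, Walk.getVert_append, if_pos h] at h1
    rw [← h1]
    exact hqs _ (q.getVert_mem_support _)
  · rw [heq, h, h2] at h1
    rw [← h1]
    exact htop v

variable {V : Type}

theorem refine_inj [Fintype V] (r : V → ℕ) : ∃ g : V → ℕ, Function.Injective g ∧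
    (∀ u v, r u < r v → g u < g v) ∧ ∀ v, g v < Fintype.card V := by
  classical
  let e := Fintype.equivFin V
  let K : V → ℕ ×ₗ ℕ := fun v => toLex (r v, e v)
  have hK : Function.Injective K := fun u v h =>
    e.injective (Fin.ext (Prod.mk.inj (toLex.injective h)).2)
  have mono : ∀ u v, K u < K v → (Finset.univ.filter fun x => K x < K u).card <
      (Finset.univ.filter fun x => K x < K v).card := fun u v h =>
    Finset.card_lt_card ⟨fun x hx => by simpa using lt_trans (by simpa using hx) h,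
      fun hs => by simpa using hs (show u ∈ _ by simpa using h)⟩
  refine ⟨fun v => (Finset.univ.filter fun x => K x < K v).card, fun u v h => hK ?_,
    fun u v h => mono u v (Prod.Lex.toLex_lt_toLex.2 (.inl h)), fun v => ?_⟩
  · rcases lt_trichotomy (K u) (K v) with a | a | a
    · exact absurd h (mono u v a).ne
    · exact a
    · exact absurd h (mono v u a).ne'
  · exact Finset.card_lt_univ_of_notMem (x := v) (by simp)

theorem exists_frame [Fintype V] {E : V → V → Prop} (hE : ∀ v, ¬TransGen E v v) {ι : Type}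
    (T : SimpleGraph ι) (B : ι → Finset V) (hT : T.IsTree) (h1 : ∀ i, (B i).card ≤ 3)
    (h2 : ∀ u v, E u v → ∃ i, u ∈ B i ∧ v ∈ B i) (h3 : ∀ v, (T.induce {i | v ∈ B i}).Connected) :
    ∃ (E' : V → V → Prop) (top key : V → ℕ), Frame E' top key ∧ (∀ u v, E u v → E' u v) ∧
      ∀ v, top v < Fintype.card V := by
  classical
  obtain ⟨top, t1, t2, t3⟩ := refine_inj fun v => (Finset.univ.filter fun u => TransGen E u v).card
  obtain ⟨tp, dep, d1, d2⟩ := exists_depth T hT (fun v => {i | v ∈ B i}) h3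
  obtain ⟨key, k1, k2, -⟩ := refine_inj dep
  have bag : ∀ c a, (((∃ i, c ∈ B i ∧ a ∈ B i) ∧ top c < top a) ∨
      ((∃ i, a ∈ B i ∧ c ∈ B i) ∧ top a < top c)) → key a < key c → a ∈ B (tp c) := by
    intro c a h hk
    have hd : dep a ≤ dep c := not_lt.1 fun h => lt_asymm hk (k2 _ _ h)
    rcases h with ⟨⟨i, a1, a2⟩, -⟩ | ⟨⟨i, a2, a1⟩, -⟩ <;> exact d2 c a i a1 a2 hd
  refine ⟨fun u v => (∃ i, u ∈ B i ∧ v ∈ B i) ∧ top u < top v, top, key,
    ⟨fun _ _ h => h.2, k1, fun c a b ha hb ka kb hab => ?_,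
      fun c a b d ha hb hd ka kb kd => ?_⟩, fun u v h => ⟨h2 u v h, t2 _ _ ?_⟩, t3⟩
  · rcases lt_or_gt_of_ne fun e => hab (t1 e) with h | h
    · exact .inl ⟨⟨_, bag c a ha ka, bag c b hb kb⟩, h⟩
    · exact .inr ⟨⟨_, bag c b hb kb, bag c a ha ka⟩, h⟩
  · by_contra hcon
    simp only [not_or] at hcon
    have n1 : c ≠ a := fun e => by rw [e] at ka; omega
    have n2 : c ≠ b := fun e => by rw [e] at kb; omega
    have n3 : c ≠ d := fun e => by rw [e] at kd; omega
    have hs : ({c, a, b, d} : Finset V) ⊆ B (tp c) := by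
      simp only [Finset.insert_subset_iff, Finset.singleton_subset_iff]
      exact ⟨d1 c, bag c a ha ka, bag c b hb kb, bag c d hd kd⟩
    have := (Finset.card_le_card hs).trans (h1 _)
    rw [Finset.card_insert_of_notMem (by simp [n1, n2, n3]),
      Finset.card_insert_of_notMem (by simp [hcon.1, hcon.2.1]),
      Finset.card_pair hcon.2.2] at this
    omega
  · exact Finset.card_lt_card ⟨fun x hx => by
      simpa using TransGen.tail (show TransGen E x u by simpa using hx) h,
      fun hs => hE u (by simpa using hs (show u ∈ _ by simpa using TransGen.single h))⟩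

theorem chain_small {E E' : V → V → Prop} {w : V → V → ℝ} {W : ℝ}
    (hw : ∀ u v, 0 < w u v) (hW : ∀ u v, ¬E u v → W ≤ w u v) (l : List V) :
    ∀ a, (a :: l).IsChain E' → weight w (a :: l) < W → (a :: l).IsChain E := by
  have pos : ∀ (l : List V) a, 0 ≤ weight w (a :: l) := by
    intro l
    induction l with
    | nil => exact fun a => (weight_one w a).ge
    | cons b l ih => exact fun a => weight_cc w a b l ▸ add_nonneg (hw a b).le (ih b)
  induction l with
  | nil => exact fun a _ _ => List.isChain_singleton a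
  | cons b l ih =>
    intro a c h
    rw [List.isChain_cons_cons] at c ⊢
    rw [weight_cc] at h
    exact ⟨by_contra fun e => by linarith [hW a b e, pos l b],
      ih b c.2 (by linarith [hw a b])⟩

theorem main [Fintype V] (E : V → V → Prop) (w : V → V → ℝ) (hE : ∀ v, ¬TransGen E v v)
    (hw : ∀ u v, E u v → 0 < w u v) {ι : Type} (T : SimpleGraph ι) (B : ι → Finset V)
    (hT : T.IsTree) (h1 : ∀ i, (B i).card ≤ 3) (h2 : ∀ u v, E u v → ∃ i, u ∈ B i ∧ v ∈ B i)
    (h3 : ∀ v, (T.induce {i | v ∈ B i}).Connected) :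
    ∃ h : V → V → ℕ, (∀ u v, E u v → 1 ≤ h u v ∧ h u v ≤ Fintype.card V ^ 6) ∧
      ∀ s t p, IsShortest E (fun u v => (h u v : ℝ)) s t p → IsShortest E w s t p := by
  classical
  obtain ⟨E', top, key, hF, hsub, ht⟩ := exists_frame hE T B hT h1 h2 h3
  obtain ⟨W, hW⟩ : ∃ W : ℝ, ∀ p : List V, p.Nodup → weight w p < W := by
    have hf : {p : List V | p.Nodup}.Finite :=
      (List.finite_length_le V (Fintype.card V)).subset fun p hp => hp.length_le_card
    obtain ⟨M, hM⟩ := (hf.image (weight w)).bddAbove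
    exact ⟨M + 1, fun p hp => (hM ⟨p, hp, rfl⟩).trans_lt (lt_add_one M)⟩
  have hW0 : 0 < W := hW [] List.nodup_nil
  let w' : V → V → ℝ := fun u v => if E u v then w u v else W
  have hw' : ∀ u v, 0 < w' u v := fun u v => by
    simp only [w']
    split_ifs with h
    · exact hw u v h
    · exact hW0
  have same : ∀ s t p, IsPath E s t p → IsPath E' s t p ∧ weight w' p = weight w p := by
    intro s t p hp
    obtain ⟨l, rfl⟩ := path_cons hp
    exact ⟨⟨hp.1.imp hsub, hp.2⟩, le_antisymm
      (weight_mono (fun u v h => (if_pos h).le) l s hp.1)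
      (weight_mono (fun u v h => (if_pos h).ge) l s hp.1)⟩
  obtain ⟨h, a1, a2⟩ := frame_main (w := w') hF (fun u v _ => hw' u v)
    (N := Fintype.card V - 1) fun v => Nat.le_sub_one_of_lt (ht v)
  refine ⟨h, fun u v e => ⟨(a1 u v (hsub u v e)).1, (a1 u v (hsub u v e)).2.trans ?_⟩,
    fun s t p hp => ⟨hp.1, fun q hq => ?_⟩⟩
  · have c0 := hF.up u v (hsub u v e)
    have c1 := ht v
    have c2 : 1 ≤ Fintype.card V ^ 4 := Nat.one_le_pow _ _ (by omega)
    have c3 := Nat.mul_le_mul_left (Fintype.card V ^ 4) (show 2 ≤ Fintype.card V by omega)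
    rw [Nat.sub_add_cancel (by omega), show Fintype.card V ^ 6 =
      Fintype.card V ^ 4 * Fintype.card V * Fintype.card V by ring]
    exact Nat.mul_le_mul_right _ (by omega)
  · obtain ⟨p', hp'⟩ := exists_shortest E' (fun u v => (h u v : ℝ)) s t ⟨p, (same s t p hp.1).1⟩
    have b1 := (a2 s t p' hp').2 p (same s t p hp.1).1
    rw [(same s t p hp.1).2] at b1
    have b2 : IsPath E s t p' := by
      obtain ⟨l, rfl⟩ := path_cons hp'.1
      exact ⟨chain_small hw' (fun u v h => (if_neg h).ge) l s hp'.1.1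
        (b1.trans_lt (hW p hp.1.2.1)), hp'.1.2⟩
    have b3 := (a2 s t p ⟨(same s t p hp.1).1,
      fun q hq => (hp.2 p' b2).trans (hp'.2 q hq)⟩).2 q (same s t q hq).1
    rwa [(same s t p hp.1).2, (same s t q hq).2] at b3

end Pool.Agent.P.MP_546b07_lc.Tw
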